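import Pool.Agent.Lib_MP_ca431a_cb.PDBasic

/-!
PIECE [Adapted] (MP_ca431a_al).  Submodules spanned by a subset of a basis.
-/

open Finsupp
open scoped Classical

namespace Pool.Agent.Rognes

variable {R : Type*} [CommRing R] {V : Type*} [AddCommGroup V] [Module R V] {ι : Type*}

/-- `W` is spanned by a subset of the basis `B`. -/
def Adapted (B : Module.Basis ι R V) (W : Submodule R V) : Prop :=
  ∃ s : Set ι, W = Submodule.span R (B '' s)

/-- Proof: `span (B '' s) ⊓ span (B '' t) = span (B '' (s ∩ t))`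
(`Module.Basis.mem_span_image`: `x ∈ span (B '' s) ↔ ↑(B.repr x).support ⊆ s`). -/
theorem Adapted.inf {B : Module.Basis ι R V} {W W' : Submodule R V} (h : Adapted B W)
    (h' : Adapted B W') : Adapted B (W ⊓ W') := by
  obtain ⟨s, rfl⟩ := h
  obtain ⟨t, rfl⟩ := h'
  refine ⟨s ∩ t, ?_⟩
  ext x
  rw [Submodule.mem_inf, B.mem_span_image, B.mem_span_image, B.mem_span_image, Set.subset_inter_iff]

/-- Proof: `span (B '' s) ⊔ span (B '' t) = span (B '' (s ∪ t))`. -/
theorem Adapted.sup {B : Module.Basis ι R V} {W W' : Submodule R V} (h : Adapted B W)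
    (h' : Adapted B W') : Adapted B (W ⊔ W') := by
  obtain ⟨s, rfl⟩ := h
  obtain ⟨t, rfl⟩ := h'
  exact ⟨s ∪ t, by rw [Set.image_union, Submodule.span_union]⟩

theorem adapted_top (B : Module.Basis ι R V) : Adapted B ⊤ := by
  exact ⟨Set.univ, by rw [Set.image_univ, B.span_eq]⟩

theorem adapted_bot (B : Module.Basis ι R V) : Adapted B ⊥ := by
  exact ⟨∅, by simp⟩

/-- Proof: induction on `s` from `adapted_bot`, `Adapted.sup`. -/
theorem adapted_finset_sup {B : Module.Basis ι R V} {s : Finset (Submodule R V)}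
    (h : ∀ W ∈ s, Adapted B W) : Adapted B (s.sup id) := by
  exact Finset.sup_induction (adapted_bot B) (fun _ h1 _ h2 => h1.sup h2) h

/-- Only finitely many submodules are adapted to a given finite basis.
Proof: the image of the finite type `Set ι` under `s ↦ span (B '' s)`. -/
theorem finite_adapted [Finite ι] (B : Module.Basis ι R V) :
    {W : Submodule R V | Adapted B W}.Finite := by
  refine (Set.finite_range (fun s : Set ι => Submodule.span R (B '' s))).subset ?_
  rintro W ⟨s, rfl⟩
  exact ⟨s, rfl⟩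

/-- Proof: `x ∈ span (B '' s)` iff the support of `B.repr x` is contained in `s`, and `a • x` has
the same support as `x` when `a ≠ 0` (`R` is a domain). -/
theorem Adapted.sat [IsDomain R] {B : Module.Basis ι R V} {W : Submodule R V}
    (h : Adapted B W) : Sat W := by
  obtain ⟨s, rfl⟩ := h
  intro a x ha hx
  rw [B.mem_span_image] at hx ⊢
  rw [map_smul, Finsupp.support_smul_eq ha] at hx
  exact hx

/-- A finite set of nonzero, pairwise disjoint submodules adapted to one basis is a partial
decomposition.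

Proof.  `W = span (B '' S W)` with `S W = {i | B i ∈ W}`; for `W ≠ W'` in `s` the sets `S W`, `S W'`
are disjoint (an index `i` in both gives `B i ∈ W ⊓ W' = ⊥`, but `B i ≠ 0`).  For `t ⊆ s` and
`W ∈ s \ t` the sup of `t` is `span (B '' ⋃_{W' ∈ t} S W')`, disjoint from `span (B '' S W)`
(`B.linearIndependent.disjoint_span_image`, or by the supports of `B.repr x`).  The sup is
adapted, hence saturated. -/
theorem isPD_of_adapted [IsDomain R] (B : Module.Basis ι R V) (s : Finset (Submodule R V))
    (h0 : ⊥ ∉ s) (hA : ∀ W ∈ s, Adapted B W)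
    (hdis : ∀ W ∈ s, ∀ W' ∈ s, W ≠ W' → W ⊓ W' = ⊥) : IsPD s := by
  have hspan : ∀ W ∈ s, W = Submodule.span R (B '' {i | B i ∈ W}) := by
    intro W hW
    apply le_antisymm
    · obtain ⟨s0, hs0⟩ := hA W hW
      have h1 : s0 ⊆ {i | B i ∈ W} := by
        intro i hi
        show B i ∈ W
        rw [hs0]
        exact Submodule.subset_span ⟨i, hi, rfl⟩
      calc W = Submodule.span R (B '' s0) := hs0
        _ ≤ _ := Submodule.span_mono (Set.image_mono h1)
    · rw [Submodule.span_le]
      rintro x ⟨i, hi, rfl⟩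
      exact hi
  refine ⟨h0, ?_, (adapted_finset_sup hA).sat⟩
  intro t ht W hW hWt
  have hle : t.sup id ≤ Submodule.span R (B '' {i | ∃ W' ∈ t, B i ∈ W'}) := by
    refine Finset.sup_le ?_
    intro W' hW'
    have h1 := hspan W' (ht hW')
    have h2 : {i | B i ∈ W'} ⊆ {i | ∃ W' ∈ t, B i ∈ W'} := fun i hi => ⟨W', hW', hi⟩
    calc id W' = Submodule.span R (B '' {i | B i ∈ W'}) := h1
      _ ≤ _ := Submodule.span_mono (Set.image_mono h2)
  have hd : Disjoint {i | B i ∈ W} {i | ∃ W' ∈ t, B i ∈ W'} := by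
    rw [Set.disjoint_left]
    rintro i hi ⟨W', hW', hi'⟩
    have hne : W ≠ W' := fun h => hWt (h ▸ hW')
    have h1 : B i ∈ W ⊓ W' := ⟨hi, hi'⟩
    rw [hdis W hW W' (ht hW') hne] at h1
    exact B.ne_zero i ((Submodule.mem_bot R).1 h1)
  have h3 := B.linearIndependent.disjoint_span_image hd
  have h4 := h3.mono_right hle
  rw [← hspan W hW] at h4
  exact h4

end Pool.Agent.Rognes
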