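import Pool.Agent.Lib_MP_ca431a_cb.Chain

/-!
PIECE [Attach] (MP_ca431a_al).  Attaching one element, resp. an antichain, to a poset.
-/

open Finsupp
open scoped Classical

namespace Pool.Agent.Rognes

variable {α : Type*} [PartialOrder α]

/-- The elements of `A` comparable to and different from `y`. -/
def Lk (A : Set α) (y : α) : Set α := {a | a ∈ A ∧ (a < y ∨ y < a)}

/-- Insertion of `y` in a sorted list, with sign. -/
private noncomputable def attJL (y : α) : List α → Ch α
  | [] => single [y] 1
  | a :: l => if a < y then - consM a (attJL y l) else single (y :: a :: l) 1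

/-- Insertion of `y`, linearly extended. -/
private noncomputable def attJ (y : α) : Ch α →ₗ[ℤ] Ch α := Finsupp.linearCombination ℤ (attJL y)

private theorem attJ_single (y : α) (l : List α) : attJ y (single l 1) = attJL y l := by
  simp [attJ]

private theorem attJL_lt {y a : α} (l : List α) (h : a < y) :
    attJL y (a :: l) = - consM a (attJL y l) := by
  show (if a < y then - consM a (attJL y l) else single (y :: a :: l) 1) = _
  rw [if_pos h]

private theorem attJL_gt {y : α} (l : List α) (h : ∀ x ∈ l, ¬ x < y) :
    attJL y l = single (y :: l) 1 := by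
  cases l with
  | nil => rfl
  | cons a l =>
    show (if a < y then - consM a (attJL y l) else single (y :: a :: l) 1) = _
    rw [if_neg (h a (by simp))]

private theorem attJ_consM {y a : α} (h : a < y) (x : Ch α) :
    attJ y (consM a x) = - consM a (attJ y x) := by
  have h1 : (attJ y ∘ₗ consM a : Ch α →ₗ[ℤ] Ch α) = - (consM a ∘ₗ attJ y) := by
    apply ch_ext
    intro l
    rw [LinearMap.comp_apply, LinearMap.neg_apply, LinearMap.comp_apply, consM_single, attJ_single,
      attJ_single, attJL_lt l h]
  have := LinearMap.congr_fun h1 x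
  simpa using this

private theorem attJL_bd {y : α} (l : List α) (hl : l.Pairwise (· < ·))
    (hc : ∀ x ∈ l, x < y ∨ y < x) :
    bd (attJL y l) = single l 1 - attJ y (bdL l) := by
  induction l with
  | nil =>
    show bd (single [y] 1) = single [] 1 - attJ y 0
    simp
  | cons a l ih =>
    rcases hc a (by simp) with h | h
    · have ih' := ih hl.of_cons (fun x hx => hc x (by simp [hx]))
      rw [attJL_lt l h, map_neg, bd_consM, ih', bdL_cons, map_sub, map_sub, attJ_single,
        attJ_consM h, consM_single]
      abel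
    · have hgt : ∀ x ∈ a :: l, y < x := by
        intro x hx
        rcases List.mem_cons.1 hx with rfl | hx
        · exact h
        · exact h.trans (List.rel_of_pairwise_cons hl hx)
      rw [attJL_gt (a :: l) (fun x hx => (hgt x hx).asymm), bd_single, one_smul, bdL_cons y]
      congr 1
      have hK : SubClosed {m : List α | ∀ x ∈ m, y < x} :=
        fun l hl l' h' x hx => hl x (h'.subset hx)
      have hm : bdL (a :: l) ∈ CK {m : List α | ∀ x ∈ m, y < x} l.length :=
        bdL_mem hK hgt (by simp)
      symm
      refine map_eq_of_lists (f := attJ y) (g := consM y) ?_ hm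
      intro m hm' _
      rw [attJ_single, attJL_gt m (fun x hx => (hm' x hx).asymm), consM_single]

private theorem attJL_mem {y : α} (l : List α) (hl : l.Pairwise (· < ·))
    (hc : ∀ x ∈ l, x < y ∨ y < x) :
    attJL y l ∈ CK {m : List α | (∀ x ∈ m, x = y ∨ x ∈ l) ∧ m.Pairwise (· < ·) ∧ y ∈ m}
      (l.length + 1) := by
  induction l with
  | nil =>
    refine single_mem_CK 1 ?_ (by simp)
    refine ⟨?_, by simp, by simp⟩
    intro x hx
    left
    simpa using hx
  | cons a l ih =>
    rcases hc a (by simp) with h | h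
    · have ih' := ih hl.of_cons (fun x hx => hc x (by simp [hx]))
      rw [attJL_lt l h]
      refine Submodule.neg_mem _ (consM_mem ?_ ih')
      rintro m ⟨h1, h2, h3⟩
      refine ⟨?_, ?_, by simp [h3]⟩
      · intro x hx
        rcases List.mem_cons.1 hx with rfl | hx
        · right; simp
        · rcases h1 x hx with rfl | hx'
          · left; rfl
          · right; simp [hx']
      · rw [List.pairwise_cons]
        refine ⟨?_, h2⟩
        intro x hx
        rcases h1 x hx with rfl | hx'
        · exact h
        · exact List.rel_of_pairwise_cons hl hx'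
    · have hgt : ∀ x ∈ a :: l, y < x := by
        intro x hx
        rcases List.mem_cons.1 hx with rfl | hx
        · exact h
        · exact h.trans (List.rel_of_pairwise_cons hl hx)
      rw [attJL_gt (a :: l) (fun x hx => (hgt x hx).asymm)]
      refine single_mem_CK 1 ?_ (by simp)
      refine ⟨?_, ?_, by simp⟩
      · intro x hx
        rcases List.mem_cons.1 hx with rfl | hx
        · left; rfl
        · right; exact hx
      · rw [List.pairwise_cons]
        exact ⟨hgt, hl⟩

private theorem attJL_append {y : α} (L U : List α) (hL : ∀ x ∈ L, x < y)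
    (hU : ∀ x ∈ U, ¬ x < y) :
    attJL y (L ++ U) = single (L ++ y :: U) ((-1) ^ L.length) := by
  induction L with
  | nil =>
    rw [List.nil_append, List.nil_append, attJL_gt U hU]
    simp
  | cons a L ih =>
    have ih' := ih (fun x hx => hL x (by simp [hx]))
    rw [List.cons_append, attJL_lt _ (hL a (by simp)), ih', consM_single, List.length_cons,
      List.cons_append, ← Finsupp.single_neg]
    congr 1
    ring

private theorem attJ_bd {A : Set α} {y : α} {r : ℕ} {x : Ch α} (hx : x ∈ CK (OC (Lk A y)) r) :
    bd (attJ y x) = x - attJ y (bd x) := by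
  refine map_eq_of_lists (f := bd ∘ₗ attJ y) (g := LinearMap.id - attJ y ∘ₗ bd) ?_ hx
  intro l hl _
  rw [LinearMap.comp_apply, LinearMap.sub_apply, LinearMap.comp_apply, LinearMap.id_apply,
    attJ_single, attJL_bd l hl.2 (fun x hx => (hl.1 x hx).2), bd_single, one_smul]

private theorem attJ_mem {A : Set α} {y : α} {r : ℕ} {x : Ch α} (hx : x ∈ CK (OC (Lk A y)) r) :
    attJ y x ∈ CK {m | m ∈ OC (insert y A) ∧ y ∈ m} (r + 1) := by
  refine map_mem_of_lists (f := attJ y) ?_ hx
  intro l hl hr
  rw [attJ_single]
  have h1 := attJL_mem l hl.2 (fun x hx => (hl.1 x hx).2)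
  rw [hr] at h1
  refine CK_mono ?_ _ h1
  rintro m ⟨h2, h3, h4⟩
  refine ⟨⟨?_, h3⟩, h4⟩
  intro x hx
  rcases h2 x hx with rfl | hx'
  · exact Set.mem_insert _ _
  · exact Set.mem_insert_of_mem _ (hl.1 x hx').1

private theorem att_decomp {A : Set α} {y : α} {r : ℕ} {z : Ch α}
    (hz : z ∈ CK (OC (insert y A)) (r + 1)) :
    ∃ z0 ∈ CK (OC A) (r + 1), ∃ x ∈ CK (OC (Lk A y)) r, z = z0 + attJ y x := by
  refine CK_induction (P := fun z => ∃ z0 ∈ CK (OC A) (r + 1), ∃ x ∈ CK (OC (Lk A y)) r,
    z = z0 + attJ y x) ?_ ?_ ?_ hz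
  · exact ⟨0, Submodule.zero_mem _, 0, Submodule.zero_mem _, by simp⟩
  · intro l hl hr c
    by_cases hy : y ∈ l
    · obtain ⟨L, U, rfl⟩ := List.append_of_mem hy
      have hp := hl.2
      rw [List.pairwise_append, List.pairwise_cons] at hp
      obtain ⟨hp1, ⟨hp2, hp3⟩, hp4⟩ := hp
      have hL : ∀ x ∈ L, x < y := fun x hx => hp4 x hx y (by simp)
      have hsub : (L ++ U).Sublist (L ++ y :: U) :=
        (List.Sublist.refl L).append (List.sublist_cons_self y U)
      refine ⟨0, Submodule.zero_mem _, single (L ++ U) ((-1) ^ L.length * c),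
        single_mem_CK _ ⟨?_, hl.2.sublist hsub⟩ ?_, ?_⟩
      · intro x hx
        have h1 := hl.1 x (hsub.subset hx)
        have h2 : x < y ∨ y < x := by
          rcases List.mem_append.1 hx with hx | hx
          · exact Or.inl (hL x hx)
          · exact Or.inr (hp2 x hx)
        refine ⟨?_, h2⟩
        rcases Set.mem_insert_iff.1 h1 with rfl | h1
        · rcases h2 with h2 | h2 <;> exact absurd h2 (lt_irrefl _)
        · exact h1
      · rw [List.length_append, List.length_cons] at hr
        rw [List.length_append]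
        omega
      · have e : (single (L ++ U) ((-1) ^ L.length * c) : Ch α) =
            ((-1) ^ L.length * c) • single (L ++ U) (1 : ℤ) := by simp
        rw [e, map_smul, attJ_single, attJL_append L U hL (fun x hx => (hp2 x hx).asymm), zero_add,
          Finsupp.smul_single]
        congr 1
        rw [smul_eq_mul]
        have : ((-1 : ℤ) ^ L.length) * (-1) ^ L.length = 1 := by
          rw [← mul_pow]
          simp
        calc c = ((-1 : ℤ) ^ L.length * (-1) ^ L.length) * c := by rw [this, one_mul]
          _ = _ := by ring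
    · refine ⟨single l c, single_mem_CK c ⟨?_, hl.2⟩ hr, 0, Submodule.zero_mem _, by simp⟩
      intro x hx
      rcases Set.mem_insert_iff.1 (hl.1 x hx) with rfl | h
      · exact absurd hx hy
      · exact h
  · rintro a b - - ⟨z1, h1, x1, h2, rfl⟩ ⟨z2, h3, x2, h4, rfl⟩
    refine ⟨z1 + z2, Submodule.add_mem _ h1 h3, x1 + x2, Submodule.add_mem _ h2 h4, ?_⟩
    rw [map_add]
    abel

private theorem OC_Lk_subset {A : Set α} {y : α} : OC (Lk A y) ⊆ OC A :=
  OC_mono (fun _ h => h.1)

/-- **Attaching one element.**

Proof.  Define `J : List α → Ch α` by `J [] = single [y] 1` and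
`J (a :: l) = if a < y then - consM a (J l) else single (y :: a :: l) 1`, extended linearly.
(1) For `l ∈ OC (Lk A y)` (strictly increasing, entries comparable to `y`):
`bd (J l) = single l 1 - J (bd l)`.  Induction on `l`.  Case `a < y`: for every chain `x`,
`J (consM a x) = - consM a (J x)`, so
`bd (J (a::l)) = - (J l - a :: bd (J l)) = - J l + a :: (l - J (bd l)) = (a::l) - J (l - a :: bd l)`.
Case `y < a` (then all entries of `a :: l` are `> y`): `J (a::l) = y :: a :: l`,
`bd (J (a::l)) = (a::l) - y :: bd (a::l)` and `J m = y :: m` for all lists `m` occurring in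
`bd (a::l)` (they are sublists of `a :: l`, so they are empty or have a head `> y`; in particular
not `< y`).
(2) `J` maps `CK (OC (Lk A y)) r` to `CK (OC (insert y A)) (r+1)`, and every list in the support of
`J x` contains `y` (the support of `J l` is the single list obtained by inserting `y` in `l` at its
place).
(3) Every list `l ∈ OC (insert y A)` containing `y` equals `L ++ y :: U` with `L < y < U`, and
`J (L ++ U) = (-1)^|L| (L ++ y :: U)`.  Hence every `z ∈ CK (OC (insert y A)) (r+1)` is
`z = z0 + J x` with `z0 ∈ CK (OC A) (r+1)`, `x ∈ CK (OC (Lk A y)) r` (use `CK_induction`; note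
`y ∉ A`).
(4) Let `z ∈ CK (OC (insert y A)) (r+1)`, `bd z = 0`, `z = z0 + J x`.  Then
`0 = bd z0 + x - J (bd x)`, `bd z0 + x` is supported on lists without `y`, `J (bd x)` on lists
containing `y`, so both vanish: `J (bd x) = 0`.  Then `bd x = bd (J (bd x)) + J (bd (bd x)) = 0`
by (1).  So `x = bd w` with `w ∈ CK (OC (Lk A y)) (r+1)`; `bd (J w) = w - J (bd w) = w - J x`, so
`z + bd (J w) = z0 + w ∈ CK (OC A) (r+1)` is a cycle, `= bd u`, and `z = bd (u - J w)`. -/
theorem attach_one {A : Set α} {y : α} (hy : y ∉ A) {r : ℕ} (h1 : Acy (OC A) (r + 1))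
    (h2 : Acy (OC (Lk A y)) r) : Acy (OC (insert y A)) (r + 1) := by
  intro z hz hbz
  obtain ⟨z0, hz0, x, hx, rfl⟩ := att_decomp hz
  have hbd : bd z0 + x = attJ y (bd x) := by
    rw [map_add, attJ_bd hx] at hbz
    have : bd z0 + x = (bd z0 + (x - attJ y (bd x))) + attJ y (bd x) := by abel
    rw [this, hbz, zero_add]
  have hbx : bd x = 0 := by
    rcases r with _ | r
    · have h3 : bd x ∈ (⊥ : Submodule ℤ (Ch α)) := by
        refine map_mem_of_lists (f := bd) ?_ hx
        intro l _ hr
        rw [List.length_eq_zero_iff] at hr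
        subst hr
        simp
      simpa using h3
    · have hbx' : bd x ∈ CK (OC (Lk A y)) r := bd_mem (subClosed_OC _) hx
      have hv1 : attJ y (bd x) ∈ CK (OC A) (r + 1) := by
        rw [← hbd]
        exact Submodule.add_mem _ (bd_mem (subClosed_OC _) hz0) (CK_mono OC_Lk_subset _ hx)
      have hv2 := attJ_mem hbx'
      have hv0 : attJ y (bd x) = 0 := by
        ext l
        by_contra hl
        have h3 := (mem_CK.1 hv1) l hl
        have h4 := (mem_CK.1 hv2) l hl
        exact hy (h3.1.1 y h4.1.2)
      have h5 := attJ_bd hbx'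
      rw [hv0, bd_bd, map_zero, map_zero, sub_zero] at h5
      exact h5.symm
  obtain ⟨w, hw, hwx⟩ := h2 x hx hbx
  have hJw := attJ_bd hw
  rw [hwx] at hJw
  obtain ⟨u, hu, hbu⟩ := h1 (z0 + w) (Submodule.add_mem _ hz0 (CK_mono OC_Lk_subset _ hw)) (by
    rw [map_add, hwx, hbd, hbx, map_zero])
  refine ⟨u - attJ y w, Submodule.sub_mem _ (CK_mono (OC_mono (Set.subset_insert _ _)) _ hu)
    (CK_mono (fun m hm => hm.1) _ (attJ_mem hw)), ?_⟩
  rw [map_sub, hbu, hJw]
  abel

end Pool.Agent.Rognes
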