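import Pool.Agent.Lib_MP_ca431a_cb.Attach

/-!
PIECE [Attach2] (MP_ca431a_al).  Attaching an antichain, and attaching a lower set.
-/

open Finsupp
open scoped Classical

namespace Pool.Agent.Rognes

variable {α : Type*} [PartialOrder α]

/-- Attaching a finite antichain. -/
theorem attach_antichain_fin {A Y : Set α} (hdis : ∀ y ∈ Y, y ∉ A)
    (hanti : ∀ y ∈ Y, ∀ y' ∈ Y, y ≤ y' → y = y') {r : ℕ} (h1 : Acy (OC A) (r + 1))
    (h2 : ∀ y ∈ Y, Acy (OC (Lk A y)) r) (F : Finset α) :
    (F : Set α) ⊆ Y → Acy (OC (A ∪ (F : Set α))) (r + 1) := by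
  induction F using Finset.induction_on with
  | empty =>
    intro _
    rw [Finset.coe_empty, Set.union_empty]
    exact h1
  | insert y F hyF ih =>
    intro hF
    have hyY : y ∈ Y := hF (Finset.mem_coe.2 (Finset.mem_insert_self y F))
    have hFY : (F : Set α) ⊆ Y := fun x hx =>
      hF (Finset.mem_coe.2 (Finset.mem_insert_of_mem (Finset.mem_coe.1 hx)))
    have e : A ∪ ((insert y F : Finset α) : Set α) = insert y (A ∪ (F : Set α)) := by
      rw [Finset.coe_insert, Set.union_insert]
    have e2 : Lk (A ∪ (F : Set α)) y = Lk A y := by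
      apply Set.ext
      intro a
      constructor
      · rintro ⟨ha, h⟩
        rcases ha with ha | ha
        · exact ⟨ha, h⟩
        · exfalso
          rcases h with h | h
          · exact h.ne (hanti a (hFY ha) y hyY h.le)
          · exact h.ne (hanti y hyY a (hFY ha) h.le)
      · rintro ⟨ha, h⟩
        exact ⟨Or.inl ha, h⟩
    rw [e]
    refine attach_one ?_ (ih hFY) ?_
    · rintro (h | h)
      · exact hdis y hyY h
      · exact hyF (Finset.mem_coe.1 h)
    · rw [e2]
      exact h2 y hyY

/-- **Attaching an antichain.**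

Proof.  Every cycle of `A ∪ Y` lives on `A ∪ F` for a finite `F ⊆ Y` (`acy_of_finite`).  Prove
`Acy (OC (A ∪ F)) (r+1)` for every finite set `F ⊆ Y` by `Finset.induction_on`, with `attach_one`:
for `y ∈ Y`, `y ∉ F`: `y ∉ A ∪ F` and `Lk (A ∪ F) y = Lk A y` because `Y` is an antichain. -/
theorem attach_antichain {A Y : Set α} (hdis : ∀ y ∈ Y, y ∉ A)
    (hanti : ∀ y ∈ Y, ∀ y' ∈ Y, y ≤ y' → y = y') {r : ℕ} (h1 : Acy (OC A) (r + 1))
    (h2 : ∀ y ∈ Y, Acy (OC (Lk A y)) r) : Acy (OC (A ∪ Y)) (r + 1) := by
  apply acy_of_finite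
  intro F hF
  have hG : ((F.filter (fun x => x ∈ Y) : Finset α) : Set α) ⊆ Y := by
    intro x hx
    exact (Finset.mem_filter.1 (Finset.mem_coe.1 hx)).2
  refine ⟨A ∪ ((F.filter (fun x => x ∈ Y) : Finset α) : Set α), ?_, ?_,
    attach_antichain_fin hdis hanti h1 h2 _ hG⟩
  · intro x hx
    rcases hF hx with h | h
    · exact Or.inl h
    · exact Or.inr (Finset.mem_coe.2 (Finset.mem_filter.2 ⟨Finset.mem_coe.1 hx, h⟩))
  · intro x hx
    rcases hx with h | h
    · exact Or.inl h
    · exact Or.inr (hG h)

/-- Attaching a finite lower set with acyclic upper links. -/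
theorem attach_lower_fin (n : ℕ) : ∀ (F : Finset α) (X : Set α), F.card = n →
    (∀ r, Acy (OC X) r) → (∀ y ∈ F, ∀ r, Acy (OC {x | x ∈ X ∧ y < x}) r) →
    (∀ x ∈ X, ∀ y ∈ F, ¬ x ≤ y) → ∀ r, Acy (OC (X ∪ (F : Set α))) r := by
  induction n using Nat.strong_induction_on with
  | _ n IH =>
  intro F X hn hX hup hlow r
  rcases F.eq_empty_or_nonempty with h0 | hne
  · subst h0
    rw [Finset.coe_empty, Set.union_empty]
    exact hX r
  · obtain ⟨y, hyF, hmin⟩ := F.exists_minimal hne
    have hmin' : ∀ x ∈ F, ¬ x < y := fun x hx hlt => absurd (hmin hx hlt.le) (not_le_of_gt hlt)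
    have hyX : y ∉ X := fun h => hlow y h y hyF le_rfl
    cases r with
    | zero => exact acy_zero (a := y) (Or.inr (Finset.mem_coe.2 hyF))
    | succ r =>
      have e : X ∪ (F : Set α) = insert y (X ∪ ((F.erase y : Finset α) : Set α)) := by
        apply Set.ext
        intro a
        constructor
        · rintro (h | h)
          · exact Or.inr (Or.inl h)
          · by_cases hay : a = y
            · exact Or.inl hay
            · exact Or.inr (Or.inr (Finset.mem_coe.2
                (Finset.mem_erase.2 ⟨hay, Finset.mem_coe.1 h⟩)))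
        · rintro (h | h | h)
          · exact Or.inr (Finset.mem_coe.2 (h ▸ hyF))
          · exact Or.inl h
          · exact Or.inr (Finset.mem_coe.2 (Finset.mem_of_mem_erase (Finset.mem_coe.1 h)))
      have hcard : (F.erase y).card < n := by
        rw [← hn]
        exact Finset.card_erase_lt_of_mem hyF
      rw [e]
      refine attach_one ?_ ?_ ?_
      · rintro (h | h)
        · exact hyX h
        · exact Finset.notMem_erase y F (Finset.mem_coe.1 h)
      · exact IH _ hcard (F.erase y) X rfl hX
          (fun y' hy' => hup y' (Finset.mem_of_mem_erase hy'))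
          (fun x hx y' hy' => hlow x hx y' (Finset.mem_of_mem_erase hy')) (r + 1)
      · have e2 : Lk (X ∪ ((F.erase y : Finset α) : Set α)) y =
            {x | x ∈ X ∧ y < x} ∪
              (((F.erase y).filter (fun y' => y < y') : Finset α) : Set α) := by
          apply Set.ext
          intro a
          constructor
          · rintro ⟨ha, h⟩
            rcases ha with ha | ha
            · rcases h with h | h
              · exact absurd h.le (hlow a ha y hyF)
              · exact Or.inl ⟨ha, h⟩
            · rcases h with h | h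
              · exact absurd h (hmin' a (Finset.mem_of_mem_erase (Finset.mem_coe.1 ha)))
              · exact Or.inr (Finset.mem_coe.2 (Finset.mem_filter.2 ⟨Finset.mem_coe.1 ha, h⟩))
          · rintro (h | h)
            · exact ⟨Or.inl h.1, Or.inr h.2⟩
            · have h' := Finset.mem_filter.1 (Finset.mem_coe.1 h)
              exact ⟨Or.inr (Finset.mem_coe.2 h'.1), Or.inr h'.2⟩
        rw [e2]
        have hc2 : ((F.erase y).filter (fun y' => y < y')).card < n :=
          lt_of_le_of_lt (Finset.card_filter_le _ _) hcard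
        refine IH _ hc2 _ _ rfl (hup y hyF) ?_ ?_ r
        · intro y' hy' s
          have h1 := Finset.mem_filter.1 hy'
          have e3 : {x | x ∈ {x | x ∈ X ∧ y < x} ∧ y' < x} = {x | x ∈ X ∧ y' < x} := by
            apply Set.ext
            intro a
            constructor
            · rintro ⟨h3, h4⟩
              exact ⟨h3.1, h4⟩
            · rintro ⟨h3, h4⟩
              exact ⟨⟨h3, lt_trans h1.2 h4⟩, h4⟩
          rw [e3]
          exact hup y' (Finset.mem_of_mem_erase h1.1) s
        · intro x hx y' hy'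
          have h1 := Finset.mem_filter.1 hy'
          exact hlow x hx.1 y' (Finset.mem_of_mem_erase h1.1)

/-- **Attaching a lower set with acyclic upper links.**

Proof.  Put `X_{>y} = {x ∈ X | y < x}`.  Claim: for every `n` and every finite set `F` with
`F.card = n` and every `X` such that `X` is acyclic in all degrees, `X_{>y}` is acyclic in all
degrees for all `y ∈ F`, and `¬ x ≤ y` for `x ∈ X`, `y ∈ F`: `X ∪ F` is acyclic in all degrees.
Induction on `n`.  `n = 0` is clear.  Otherwise choose `y ∈ F` minimal, `F' = F.erase y`.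
`X ∪ F = insert y (X ∪ F')`, `y ∉ X ∪ F'`, and `Lk (X ∪ F') y = X_{>y} ∪ {y' ∈ F' | y < y'}`
(nothing of `X` lies below `y`, nothing of `F'` lies below `y` by minimality).  This is acyclic by
the induction hypothesis applied to `X_{>y}` and `{y' ∈ F' | y < y'}`
(note `(X_{>y})_{>y'} = X_{>y'}` for `y < y'`), and `X ∪ F'` is acyclic by the induction
hypothesis.  Degree `r + 1`: `attach_one`.  Degree `0`: a nonempty set is acyclic in degree 0
(`acy_zero`; `y` is an element).
Finally pass from finite `F ⊆ Y` to `Y` by `acy_of_finite`. -/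
theorem attach_lower {X Y : Set α} (hX : ∀ r, Acy (OC X) r)
    (hup : ∀ y ∈ Y, ∀ r, Acy (OC {x | x ∈ X ∧ y < x}) r)
    (hlow : ∀ x ∈ X, ∀ y ∈ Y, ¬ x ≤ y) (r : ℕ) : Acy (OC (X ∪ Y)) r := by
  apply acy_of_finite
  intro F hF
  have hG : ∀ x ∈ F.filter (fun x => x ∈ Y), x ∈ Y := by
    intro x hx
    exact (Finset.mem_filter.1 hx).2
  refine ⟨X ∪ ((F.filter (fun x => x ∈ Y) : Finset α) : Set α), ?_, ?_,
    attach_lower_fin _ (F.filter (fun x => x ∈ Y)) X rfl hX
      (fun y hy => hup y (hG y hy)) (fun x hx y hy => hlow x hx y (hG y hy)) r⟩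
  · intro x hx
    rcases hF hx with h | h
    · exact Or.inl h
    · exact Or.inr (Finset.mem_coe.2 (Finset.mem_filter.2 ⟨Finset.mem_coe.1 hx, h⟩))
  · intro x hx
    rcases hx with h | h
    · exact Or.inl h
    · exact Or.inr (hG x (Finset.mem_coe.1 h))

end Pool.Agent.Rognes
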