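import Pool.Agent.Lib_MP_ca431a_cb.Prism
import Pool.Agent.Lib_MP_ca431a_cb.Attach

/-!
PIECE [BoolQ] (MP_ca431a_al).  The join of the boundary of a simplex with a poset `X`.
-/

open Finsupp
open scoped Classical

namespace Pool.Agent.Rognes

variable {α : Type*} [PartialOrder α] {ι : Type*}

/-- Proper nonempty subsets of `σ` (embedded by `e`) together with `X`. -/
def QQ (e : Finset ι → α) (σ : Finset ι) (X : Set α) : Set α :=
  {a | ∃ s : Finset ι, s ⊂ σ ∧ s.Nonempty ∧ a = e s} ∪ X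

/-- Insert `t` in the subset, if there is one. -/
noncomputable def boolQh (e : Finset ι → α) (σ : Finset ι) (t : ι) (a : α) : α :=
  if H : ∃ s : Finset ι, s ⊂ σ ∧ s.Nonempty ∧ a = e s then e (insert t H.choose) else a

theorem boolQ_inj {e : Finset ι → α} {σ : Finset ι}
    (he : ∀ s t, s ⊆ σ → t ⊆ σ → (e s ≤ e t ↔ s ⊆ t)) {s s' : Finset ι} (hs : s ⊆ σ)
    (hs' : s' ⊆ σ) (h : e s = e s') : s = s' :=
  Finset.Subset.antisymm ((he s s' hs hs').1 h.le) ((he s' s hs' hs).1 h.ge)

theorem boolQ_lt {e : Finset ι → α} {σ : Finset ι}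
    (he : ∀ s t, s ⊆ σ → t ⊆ σ → (e s ≤ e t ↔ s ⊆ t)) {s s' : Finset ι} (hs : s ⊆ σ)
    (hs' : s' ⊆ σ) : e s < e s' ↔ s ⊂ s' := by
  rw [lt_iff_le_not_ge, he s s' hs hs', he s' s hs' hs, Finset.ssubset_iff_subset_ne]
  constructor
  · rintro ⟨h1, h2⟩
    exact ⟨h1, fun h => h2 (h ▸ Finset.Subset.refl _)⟩
  · rintro ⟨h1, h2⟩
    exact ⟨h1, fun h => h2 (Finset.Subset.antisymm h1 h)⟩

theorem boolQh_e {e : Finset ι → α} {σ : Finset ι}
    (he : ∀ s t, s ⊆ σ → t ⊆ σ → (e s ≤ e t ↔ s ⊆ t)) (t : ι) {s : Finset ι} (hs : s ⊂ σ)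
    (hn : s.Nonempty) : boolQh e σ t (e s) = e (insert t s) := by
  have H : ∃ s' : Finset ι, s' ⊂ σ ∧ s'.Nonempty ∧ e s = e s' := ⟨s, hs, hn, rfl⟩
  have h1 : H.choose = s :=
    (boolQ_inj he hs.1 H.choose_spec.1.1 H.choose_spec.2.2).symm
  unfold boolQh
  rw [dif_pos H, h1]

theorem boolQh_x {e : Finset ι → α} {σ : Finset ι} {X : Set α}
    (hX : ∀ s, s ⊂ σ → ∀ x ∈ X, e s < x) (t : ι) {x : α} (hx : x ∈ X) :
    boolQh e σ t x = x := by
  unfold boolQh
  rw [dif_neg]
  rintro ⟨s, hs, _, h⟩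
  exact absurd h (hX s hs x hx).ne'

/-- `insert t s` is a proper subset if `s` is a proper subset different from `σ.erase t`. -/
theorem boolQ_ins {σ s : Finset ι} {t : ι} (ht : t ∈ σ) (hs : s ⊂ σ) (hne : s ≠ σ.erase t) :
    insert t s ⊂ σ := by
  rw [Finset.ssubset_iff_subset_ne]
  refine ⟨Finset.insert_subset ht hs.1, fun h => ?_⟩
  by_cases hts : t ∈ s
  · rw [Finset.insert_eq_of_mem hts] at h
    exact hs.ne h
  · apply hne
    rw [← h, Finset.erase_insert hts]

/-- **The poset of proper nonempty subsets of `σ`, below `X`.**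

Proof.  Induction on `σ.card` (for all `σ`, with `e`, `X`, `m` fixed).
If `σ.card = 1` there is no proper nonempty subset, `QQ e σ X = X`, and `r + 1 < m + 1`.
Otherwise pick `t ∈ σ`, `S0 = σ.erase t` (nonempty), and `A0 = QQ e σ X \ {e S0}`.
(1) `A0` is acyclic in all degrees by `acy_up` with
`h a = if ∃ s, s ⊂ σ ∧ s.Nonempty ∧ a = e s then e (insert t s) else a` (choose `s`; it is unique
by `he`) and `c = e {t}`:
for `s ⊂ σ`, `s ≠ ∅`, `s ≠ S0` the set `insert t s` is a proper nonempty subset of `σ` (it is `σ`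
only if `σ.erase t ⊆ s`, i.e. `s = S0`), and it is `≠ S0` because it contains `t`.  An element of
`X` is not of the form `e s`, `s ⊂ σ` (`hX` is strict); `h` is the identity on `X`.
Monotone: `e s ≤ e s'` iff `s ⊆ s'`; `e s ≤ x` always for `x ∈ X`, `s ⊂ σ`; `x ≤ e s` never.
`a ≤ h a`, `c ≤ h a` clear.  `c = e {t} ∈ A0`: `{t} ⊂ σ` as `σ.card ≥ 2`, `{t} ≠ S0`.
(2) `QQ e σ X = insert (e S0) A0`, `e S0 ∉ A0`, and `Lk A0 (e S0) = QQ e S0 X`:
the `s ⊂ σ` with `S0 ⊂ s` do not exist; the `s ⊂ S0` are in `A0`; all of `X` is above.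
The induction hypothesis gives `Acy (OC (QQ e S0 X)) r` for `r + 1 < m + (σ.card - 1)`.
(3) `attach_one` gives `Acy (OC (QQ e σ X)) (r + 1)` for those `r`;
`Acy (OC (QQ e σ X)) 0` by `acy_zero` (`e {t}` is an element). -/
theorem acy_bool (e : Finset ι → α) (X : Set α) (m : ℕ)
    (hX0 : ∀ r, r < m → Acy (OC X) r) (σ : Finset ι) (hσ : σ.Nonempty)
    (he : ∀ s t, s ⊆ σ → t ⊆ σ → (e s ≤ e t ↔ s ⊆ t))
    (hX : ∀ s, s ⊂ σ → ∀ x ∈ X, e s < x)
    (r : ℕ) (hr : r + 1 < m + σ.card) : Acy (OC (QQ e σ X)) r := by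
  obtain ⟨n, hn⟩ : ∃ n, σ.card = n + 1 := ⟨σ.card - 1, by
    have := Finset.card_pos.2 hσ
    omega⟩
  induction n generalizing σ r with
  | zero =>
    have h1 : QQ e σ X = X := by
      ext a
      constructor
      · rintro (⟨s, hs, hne, _⟩ | h)
        · have h2 := Finset.card_lt_card hs
          have h3 := Finset.card_pos.2 hne
          omega
        · exact h
      · exact fun h => Or.inr h
    rw [h1]
    exact hX0 r (by omega)
  | succ n ih =>
    obtain ⟨t, ht⟩ := hσ
    have hcard0 : (σ.erase t).card = n + 1 := by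
      rw [Finset.card_erase_of_mem ht, hn]
      rfl
    have hne0 : (σ.erase t).Nonempty := Finset.card_pos.1 (by omega)
    have hsub0 : σ.erase t ⊂ σ := Finset.erase_ssubset ht
    have ht0 : t ∉ σ.erase t := Finset.notMem_erase t σ
    have hts : {t} ⊂ σ := by
      rw [Finset.ssubset_iff_subset_ne]
      refine ⟨Finset.singleton_subset_iff.2 ht, fun h => ?_⟩
      rw [← h, Finset.card_singleton] at hn
      omega
    have htn : ({t} : Finset ι).Nonempty := Finset.singleton_nonempty t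
    have htQ : e {t} ∈ QQ e σ X := Or.inl ⟨{t}, hts, htn, rfl⟩
    have htne : e {t} ≠ e (σ.erase t) := by
      intro h
      have h1 := boolQ_inj he hts.1 hsub0.1 h
      exact ht0 (h1 ▸ Finset.mem_singleton_self t)
    cases r with
    | zero => exact acy_zero htQ
    | succ r =>
      have hA0 : ∀ r, Acy (OC (QQ e σ X \ {e (σ.erase t)})) r := by
        intro r
        have hcA : e {t} ∈ QQ e σ X \ {e (σ.erase t)} := ⟨htQ, fun h => htne h⟩
        refine acy_up (A := QQ e σ X \ {e (σ.erase t)}) (boolQh e σ t) (e {t}) hcA ?_ ?_ ?_ ?_ r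
        · rintro x ⟨⟨s, hs, hsn, rfl⟩ | hx, hne⟩
          · have hs0 : s ≠ σ.erase t := fun h => hne (by rw [h]; rfl)
            have h2 := boolQ_ins ht hs hs0
            rw [boolQh_e he t hs hsn]
            refine ⟨Or.inl ⟨_, h2, Finset.insert_nonempty _ _, rfl⟩, fun h => ?_⟩
            have h3 := boolQ_inj he h2.1 hsub0.1 h
            exact ht0 (h3 ▸ Finset.mem_insert_self t s)
          · rw [boolQh_x hX t hx]
            exact ⟨Or.inr hx, hne⟩
        · rintro x ⟨⟨s, hs, hsn, rfl⟩ | hx, hne⟩ y ⟨⟨s', hs', hsn', rfl⟩ | hy, hne'⟩ hxy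
          · rw [boolQh_e he t hs hsn, boolQh_e he t hs' hsn']
            have h1 := (he s s' hs.1 hs'.1).1 hxy
            exact (he _ _ (Finset.insert_subset ht hs.1) (Finset.insert_subset ht hs'.1)).2
              (Finset.insert_subset_insert t h1)
          · rw [boolQh_e he t hs hsn, boolQh_x hX t hy]
            have hs0 : s ≠ σ.erase t := fun h => hne (by rw [h]; rfl)
            exact (hX _ (boolQ_ins ht hs hs0) y hy).le
          · exact absurd hxy (hX s' hs' x hx).not_ge
          · rw [boolQh_x hX t hx, boolQh_x hX t hy]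
            exact hxy
        · rintro x ⟨⟨s, hs, hsn, rfl⟩ | hx, hne⟩
          · rw [boolQh_e he t hs hsn]
            exact (he _ _ hs.1 (Finset.insert_subset ht hs.1)).2 (Finset.subset_insert t s)
          · rw [boolQh_x hX t hx]
        · rintro x ⟨⟨s, hs, hsn, rfl⟩ | hx, hne⟩
          · rw [boolQh_e he t hs hsn]
            exact (he _ _ hts.1 (Finset.insert_subset ht hs.1)).2
              (Finset.singleton_subset_iff.2 (Finset.mem_insert_self t s))
          · rw [boolQh_x hX t hx]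
            exact (hX _ hts x hx).le
      have h0Q : e (σ.erase t) ∈ QQ e σ X := Or.inl ⟨_, hsub0, hne0, rfl⟩
      have hins : insert (e (σ.erase t)) (QQ e σ X \ {e (σ.erase t)}) = QQ e σ X := by
        rw [Set.insert_sdiff_singleton, Set.insert_eq_of_mem h0Q]
      have hLk : Lk (QQ e σ X \ {e (σ.erase t)}) (e (σ.erase t)) = QQ e (σ.erase t) X := by
        ext a
        constructor
        · rintro ⟨⟨⟨s, hs, hsn, rfl⟩ | hx, hne⟩, hlt⟩
          · rcases hlt with h | h
            · exact Or.inl ⟨s, (boolQ_lt he hs.1 hsub0.1).1 h, hsn, rfl⟩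
            · exfalso
              have h1 := Finset.card_lt_card ((boolQ_lt he hsub0.1 hs.1).1 h)
              have h2 := Finset.card_lt_card hs
              omega
          · exact Or.inr hx
        · rintro (⟨s, hs, hsn, rfl⟩ | hx)
          · have hs' : s ⊂ σ := hs.trans hsub0
            have h1 := (boolQ_lt he hs'.1 hsub0.1).2 hs
            exact ⟨⟨Or.inl ⟨s, hs', hsn, rfl⟩, fun h => h1.ne h⟩, Or.inl h1⟩
          · have h1 := hX _ hsub0 a hx
            exact ⟨⟨Or.inr hx, fun h => h1.ne' h⟩, Or.inr h1⟩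
      have hIH : Acy (OC (QQ e (σ.erase t) X)) r := by
        refine ih (σ.erase t) hne0 (fun s s' hs hs' => he s s' (hs.trans hsub0.1) (hs'.trans hsub0.1))
          (fun s hs x hx => hX s (hs.trans hsub0) x hx) r (by omega) hcard0
      have hfin := attach_one (A := QQ e σ X \ {e (σ.erase t)}) (y := e (σ.erase t)) (r := r)
        (fun h => h.2 rfl) (hA0 (r + 1)) (by rw [hLk]; exact hIH)
      rw [hins] at hfin
      exact hfin

end Pool.Agent.Rognes
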