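import Pool.Agent.Lib_MP_ca431a_cb.Chain

/-!
PIECE [Carrier] (MP_ca431a_al).  Acyclic carriers.
-/

open Finsupp
open scoped Classical

namespace Pool.Agent.Rognes

variable {α β : Type*}

/-- `Φ` is an acyclic carrier from the list complex `K` to the list complex `K'`.
Acyclicity is only required for nonempty lists. -/
structure IsCarrier (K : Set (List α)) (K' : Set (List β)) (Φ : List α → Set (List β)) :
    Prop where
  sub : ∀ l ∈ K, Φ l ⊆ K'
  nil : ∀ l ∈ K, [] ∈ Φ l
  mono : ∀ l ∈ K, ∀ l', l'.Sublist l → Φ l' ⊆ Φ l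
  acyc : ∀ l ∈ K, l ≠ [] → ∀ r, Acy (Φ l) r

/-- Extending a linear map from lists of length at most `m` by prescribed values in length `m+1`. -/
theorem carrier_extend {γ : Type*} {K : Set (List α)} {m : ℕ}
    (f : Ch α →ₗ[ℤ] Ch γ) (w : ∀ l : List α, l ∈ K ∧ l.length = m + 1 → Ch γ) :
    ∃ f' : Ch α →ₗ[ℤ] Ch γ, (∀ l : List α, l.length ≤ m → f' (single l 1) = f (single l 1)) ∧
      (∀ l (h : l ∈ K ∧ l.length = m + 1), f' (single l 1) = w l h) ∧
      (∀ l : List α, l.length ≤ m + 1 → f' (bdL l) = f (bdL l)) := by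
  refine ⟨Finsupp.linearCombination ℤ (fun l => if l.length ≤ m then f (single l 1) else
    if h : l ∈ K ∧ l.length = m + 1 then w l h else 0), ?_, ?_, ?_⟩
  · intro l hl
    rw [Finsupp.linearCombination_single, one_smul, if_pos hl]
  · intro l h
    rw [Finsupp.linearCombination_single, one_smul, if_neg (by omega), dif_pos h]
  · intro l hl
    rcases l with _ | ⟨a, l⟩
    · simp
    · have hb : bdL (a :: l) ∈ CK {l' : List α | l'.length ≤ m} l.length := by
        rw [mem_CK]
        intro l' h'
        have := (bdL_mem_aux (a :: l) l' h').2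
        simp only [List.length_cons] at this hl
        exact ⟨show l'.length ≤ m by omega, by omega⟩
      refine map_eq_of_lists ?_ hb
      intro l' hl' _
      have hl2 : l'.length ≤ m := hl'
      rw [Finsupp.linearCombination_single, one_smul, if_pos hl2]

/-- A map carried by `Φ` up to length `m` sends the boundary of a list of length `m+1` into the
carrier. -/
theorem carrier_bdL_mem {γ : Type*} {K : Set (List α)} {Φ : List α → Set (List γ)}
    (hK : SubClosed K) (hmono : ∀ l ∈ K, ∀ l', l'.Sublist l → Φ l' ⊆ Φ l) {m k : ℕ}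
    {f : Ch α →ₗ[ℤ] Ch γ}
    (hf : ∀ l ∈ K, l.length ≤ m → f (single l 1) ∈ CK (Φ l) (l.length + k))
    {l : List α} (hl : l ∈ K) (hlm : l.length = m + 1) : f (bdL l) ∈ CK (Φ l) (m + k) := by
  have hb : bdL l ∈ CK {l' : List α | l'.Sublist l} m := by
    rw [mem_CK]
    intro l' h'
    have := bdL_mem_aux l l' h'
    exact ⟨this.1, by omega⟩
  refine map_mem_of_lists ?_ hb
  intro l' hl' hlen
  have h1 := hf l' (hK l hl l' hl') (by omega)
  rw [hlen] at h1
  exact CK_mono (hmono l hl l' hl') _ h1

/-- Two linear maps which agree on the lists of `K` of length `m` agree on boundaries of lists of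
length `m+1`. -/
theorem carrier_bdL_eq {M : Type*} [AddCommGroup M] {K : Set (List α)} (hK : SubClosed K)
    {m : ℕ} {f g : Ch α →ₗ[ℤ] M}
    (h : ∀ l ∈ K, l.length = m → f (single l 1) = g (single l 1))
    {l : List α} (hl : l ∈ K) (hlm : l.length = m + 1) : f (bdL l) = g (bdL l) :=
  map_eq_of_lists h (bdL_mem hK hl hlm)

/-- **Acyclic carrier theorem, existence.**

Proof.  Induction on `m`.
`m = 0`: `f = linearCombination ℤ (fun l => if l = [] then single [] 1 else 0)`.
Step: let `f` be given for `m`.  For `l ∈ K` with `l.length = m + 1`, `bdL l` is supported on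
sublists `l'` of `l` of length `m` (`bdL_mem_aux`), which are in `K`, and
`f (single l' 1) ∈ CK (Φ l') m ≤ CK (Φ l) m`; so `f (bdL l) ∈ CK (Φ l) m`.  Moreover
`bd (f (bdL l)) = f (bd (bdL l)) = 0` (`bd ∘ f = f ∘ bd` on chains supported on lists of `K` of
length `≤ m`, `bd_bdL`).  As `l ≠ []`, acyclicity of `Φ l` gives `w_l ∈ CK (Φ l) (m+1)` with
`bd w_l = f (bdL l)`.  Put `f' = linearCombination ℤ (fun l => if l.length ≤ m then f (single l 1)
else if h : l ∈ K ∧ l.length = m + 1 then w_l else 0)`.  On chains supported on lists of length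
`≤ m` we have `f' = f`, and for `l ∈ K` of length `m + 1`:
`bd (f' l) = bd w_l = f (bdL l) = f' (bdL l)`. -/
theorem exists_carried_map {K : Set (List α)} {K' : Set (List β)} {Φ : List α → Set (List β)}
    (hK : SubClosed K) (h : IsCarrier K K' Φ) (m : ℕ) :
    ∃ f : Ch α →ₗ[ℤ] Ch β, f (single [] 1) = single [] 1 ∧
      (∀ l ∈ K, l.length ≤ m → f (single l 1) ∈ CK (Φ l) l.length) ∧
      (∀ l ∈ K, l.length ≤ m → bd (f (single l 1)) = f (bdL l)) := by
  induction m with
  | zero =>
    refine ⟨Finsupp.linearCombination ℤ (fun l => if l = [] then single [] 1 else 0), ?_, ?_, ?_⟩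
    · simp
    · intro l hl hm
      have hl0 : l = [] := List.length_eq_zero_iff.1 (by omega)
      subst hl0
      rw [Finsupp.linearCombination_single, one_smul, if_pos rfl]
      exact single_mem_CK _ (h.nil _ hl) rfl
    · intro l hl hm
      have hl0 : l = [] := List.length_eq_zero_iff.1 (by omega)
      subst hl0
      simp
  | succ m ih =>
    obtain ⟨f, h0, h1, h2⟩ := ih
    have hw : ∀ l : List α, ∀ hl : l ∈ K ∧ l.length = m + 1,
        ∃ w : Ch β, w ∈ CK (Φ l) (m + 1) ∧ bd w = f (bdL l) := by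
      rintro l ⟨hl, hlm⟩
      have hne : l ≠ [] := by
        rintro rfl
        simp at hlm
      have hmem : f (bdL l) ∈ CK (Φ l) m :=
        carrier_bdL_mem (k := 0) hK h.mono h1 hl hlm
      have hb : bd (f (bdL l)) = 0 := by
        have e : (bd ∘ₗ f) (bdL l) = (f ∘ₗ bd) (bdL l) := by
          refine carrier_bdL_eq hK ?_ hl hlm
          intro l' hl' hlen
          rw [LinearMap.comp_apply, LinearMap.comp_apply, h2 l' hl' (by omega), bd_single,
            one_smul]
        rw [LinearMap.comp_apply, LinearMap.comp_apply, bd_bdL, map_zero] at e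
        exact e
      obtain ⟨w, hw1, hw2⟩ := h.acyc l hl hne m _ hmem hb
      exact ⟨w, hw1, hw2⟩
    choose w hw1 hw2 using hw
    obtain ⟨f', e1, e2, e3⟩ := carrier_extend f w
    refine ⟨f', ?_, ?_, ?_⟩
    · rw [e1 [] (by simp), h0]
    · intro l hl hm
      rcases Nat.lt_or_ge m l.length with hlt | hle
      · have hlm : l.length = m + 1 := by omega
        have hh := hw1 l ⟨hl, hlm⟩
        rw [← e2 l ⟨hl, hlm⟩, ← hlm] at hh
        exact hh
      · rw [e1 l hle]
        exact h1 l hl hle
    · intro l hl hm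
      rw [e3 l hm]
      rcases Nat.lt_or_ge m l.length with hlt | hle
      · have hlm : l.length = m + 1 := by omega
        rw [e2 l ⟨hl, hlm⟩]
        exact hw2 l ⟨hl, hlm⟩
      · rw [e1 l hle]
        exact h2 l hl hle

/-- **Acyclic carrier theorem, homotopy.**

Proof.  Induction on `m`.  `m = 0`: `D = 0` (for `l = []`: `bd 0 = F [] - G [] ...= 0`, `bdL [] = 0`).
Step: for `l ∈ K`, `l.length = m + 1`, the chain
`c_l = G (single l 1) - F (single l 1) - D (bdL l)` lies in `CK (Φ l) (m+1)` and is a cycle: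
`bd c_l = G (bdL l) - F (bdL l) - bd (D (bdL l))` and
`bd (D (bdL l)) = G (bdL l) - F (bdL l) - D (bd (bdL l)) = G (bdL l) - F (bdL l)` (linear extension
of the identity over lists of `K` of length `m`).  Choose `w_l ∈ CK (Φ l) (m+2)` with
`bd w_l = c_l` and define the new `D` as in `exists_carried_map`. -/
theorem exists_carried_homotopy {K : Set (List α)} {K' : Set (List β)}
    {Φ : List α → Set (List β)} (hK : SubClosed K) (h : IsCarrier K K' Φ) (m : ℕ)
    (F G : Ch α →ₗ[ℤ] Ch β) (h0 : F (single [] 1) = G (single [] 1))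
    (hF : ∀ l ∈ K, l.length ≤ m → F (single l 1) ∈ CK (Φ l) l.length)
    (hG : ∀ l ∈ K, l.length ≤ m → G (single l 1) ∈ CK (Φ l) l.length)
    (hF' : ∀ l ∈ K, l.length ≤ m → bd (F (single l 1)) = F (bdL l))
    (hG' : ∀ l ∈ K, l.length ≤ m → bd (G (single l 1)) = G (bdL l)) :
    ∃ D : Ch α →ₗ[ℤ] Ch β,
      (∀ l ∈ K, l.length ≤ m → D (single l 1) ∈ CK (Φ l) (l.length + 1)) ∧
      (∀ l ∈ K, l.length ≤ m →
        bd (D (single l 1)) = G (single l 1) - F (single l 1) - D (bdL l)) := by
  induction m with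
  | zero =>
    refine ⟨0, ?_, ?_⟩
    · intro l hl hm
      simp
    · intro l hl hm
      have hl0 : l = [] := List.length_eq_zero_iff.1 (by omega)
      subst hl0
      rw [h0]
      simp
  | succ m ih =>
    obtain ⟨D, h1, h2⟩ := ih (fun l hl hm => hF l hl (by omega)) (fun l hl hm => hG l hl (by omega))
      (fun l hl hm => hF' l hl (by omega)) (fun l hl hm => hG' l hl (by omega))
    have hw : ∀ l : List α, ∀ hl : l ∈ K ∧ l.length = m + 1,
        ∃ w : Ch β, w ∈ CK (Φ l) (m + 1 + 1) ∧
          bd w = G (single l 1) - F (single l 1) - D (bdL l) := by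
      rintro l ⟨hl, hlm⟩
      have hne : l ≠ [] := by
        rintro rfl
        simp at hlm
      have hD : D (bdL l) ∈ CK (Φ l) (m + 1) :=
        carrier_bdL_mem (k := 1) hK h.mono h1 hl hlm
      have hGl := hG l hl (by omega)
      have hFl := hF l hl (by omega)
      rw [hlm] at hGl hFl
      have hmem : G (single l 1) - F (single l 1) - D (bdL l) ∈ CK (Φ l) (m + 1) :=
        Submodule.sub_mem _ (Submodule.sub_mem _ hGl hFl) hD
      have hb : bd (G (single l 1) - F (single l 1) - D (bdL l)) = 0 := by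
        have e : (bd ∘ₗ D) (bdL l) = (G - F - D ∘ₗ bd) (bdL l) := by
          refine carrier_bdL_eq hK ?_ hl hlm
          intro l' hl' hlen
          rw [LinearMap.comp_apply, h2 l' hl' (by omega)]
          simp
        rw [LinearMap.comp_apply] at e
        rw [map_sub, map_sub, e, hG' l hl (by omega), hF' l hl (by omega)]
        simp [bd_bdL]
      obtain ⟨w, hw1, hw2⟩ := h.acyc l hl hne (m + 1) _ hmem hb
      exact ⟨w, hw1, hw2⟩
    choose w hw1 hw2 using hw
    obtain ⟨D', e1, e2, e3⟩ := carrier_extend D w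
    refine ⟨D', ?_, ?_⟩
    · intro l hl hm
      rcases Nat.lt_or_ge m l.length with hlt | hle
      · have hlm : l.length = m + 1 := by omega
        have hh := hw1 l ⟨hl, hlm⟩
        rw [← e2 l ⟨hl, hlm⟩, ← hlm] at hh
        exact hh
      · rw [e1 l hle]
        exact h1 l hl hle
    · intro l hl hm
      rw [e3 l hm]
      rcases Nat.lt_or_ge m l.length with hlt | hle
      · have hlm : l.length = m + 1 := by omega
        rw [e2 l ⟨hl, hlm⟩]
        exact hw2 l ⟨hl, hlm⟩
      · rw [e1 l hle]
        exact h2 l hl hle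

end Pool.Agent.Rognes
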