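import Pool.Agent.Lib_MP_ca431a_cb.PDBasic

/-!
PIECE [CaseA1] (MP_ca431a_al).  The two modifications `g d` and `k d` used in Case A.
-/

open Finsupp
open scoped Classical

namespace Pool.Agent.Rognes

variable {R : Type*} [CommRing R] [IsDomain R]
variable {V : Type*} [AddCommGroup V] [Module R V] [Module.IsTorsionFree R V]

/-- The blocks of `k d`: the blocks of `d` not inside `B1`, and `L1`, `B1 ⊓ E`. -/
noncomputable def kset (E B1 L1 : Submodule R V) (d : PD R V) : Finset (Submodule R V) :=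
  insert L1 (insert (B1 ⊓ E) (d.bl.filter (fun W => ¬ W ≤ B1)))

/-- The blocks of `g d`: blocks `W ≤ B1` of `d` are replaced by the nonzero ones among `W ⊓ E`
and (if `L1 ≤ W`) `L1`. -/
noncomputable def gset (E B1 L1 : Submodule R V) (d : PD R V) : Finset (Submodule R V) :=
  d.bl.biUnion (fun W => if W ≤ B1 then
    (if L1 ≤ W then ({L1, W ⊓ E} : Finset (Submodule R V)).erase ⊥
      else ({W ⊓ E} : Finset (Submodule R V)).erase ⊥) else {W})

/-- `k d`. -/
noncomputable def kA (E B1 L1 : Submodule R V) (d : PD R V) : PD R V :=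
  if h : IsPD (kset E B1 L1 d) then ⟨kset E B1 L1 d, h⟩ else d

/-- `g d`. -/
noncomputable def gA (E B1 L1 : Submodule R V) (d : PD R V) : PD R V :=
  if h : IsPD (gset E B1 L1 d) then ⟨gset E B1 L1 d, h⟩ else d

/-- Modular law: `L1 ⊔ (W ⊓ E) = W` if `L1 ≤ W` and `L1`, `E` are complements. -/
theorem sup_inf_of_compl {E L1 W : Submodule R V} (hc : IsCompl L1 E) (h : L1 ≤ W) :
    L1 ⊔ (W ⊓ E) = W := by
  rw [inf_comm, ← sup_inf_assoc_of_le E h, hc.sup_eq_top, top_inf_eq]

theorem mem_kset {E B1 L1 : Submodule R V} {d : PD R V} {U : Submodule R V} :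
    U ∈ kset E B1 L1 d ↔ U = L1 ∨ U = B1 ⊓ E ∨ (U ∈ d.bl ∧ ¬ U ≤ B1) := by
  rw [kset, Finset.mem_insert, Finset.mem_insert, Finset.mem_filter]

/-- Proof: `IsPD.refine` for `d0` with `s B1 = {L1, B1 ⊓ E}` (`isPD_pair`: `L1 ≠ ⊥`, `B1 ⊓ E ≠ ⊥`
since `L1 ≠ B1`, disjoint, sup `= B1` by `sup_inf_of_compl`, saturated) and
`s B = d.bl.filter (· ≤ B)` for `B ≠ B1` (`IsPD.subset`).  Its union is `kset`: a block `W` of `d`
not inside `B1` lies in some block `B ≠ B1` of `d0`; a block of `d` inside `B ≠ B1`, `B ∈ d0.bl`, is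
not inside `B1` (`PD.block_unique`). -/
theorem isPD_kset {E B1 L1 : Submodule R V} {d0 d : PD R V} (hE : Sat E) (hc : IsCompl L1 E)
    (hL : L1 ≠ ⊥) (hB1 : B1 ∈ d0.bl) (h1 : L1 ≤ B1) (hne : L1 ≠ B1) (hd : d ≤ d0) :
    IsPD (kset E B1 L1 d) := by
  have hsup : L1 ⊔ (B1 ⊓ E) = B1 := sup_inf_of_compl hc h1
  have hBE : B1 ⊓ E ≠ ⊥ := by
    intro h0
    rw [h0, sup_bot_eq] at hsup
    exact hne hsup
  have key : kset E B1 L1 d = d0.bl.biUnion (fun B => if B = B1 then {L1, B1 ⊓ E} else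
      d.bl.filter (fun W => W ≤ B)) := by
    ext U
    rw [mem_kset, Finset.mem_biUnion]
    constructor
    · rintro (rfl | rfl | ⟨hU, hU1⟩)
      · exact ⟨B1, hB1, by simp⟩
      · exact ⟨B1, hB1, by simp⟩
      · obtain ⟨B, hB, hUB⟩ := hd U hU
        have hBB : B ≠ B1 := by
          rintro rfl
          exact hU1 hUB
        exact ⟨B, hB, by simp [hBB, hU, hUB]⟩
    · rintro ⟨B, hB, hU⟩
      by_cases hBB : B = B1
      · rw [if_pos hBB, Finset.mem_insert, Finset.mem_singleton] at hU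
        rcases hU with hU | hU
        · exact Or.inl hU
        · exact Or.inr (Or.inl hU)
      · rw [if_neg hBB, Finset.mem_filter] at hU
        refine Or.inr (Or.inr ⟨hU.1, fun h => hBB ?_⟩)
        exact d0.block_unique hB hB1 (d.ne_bot hU.1) hU.2 h
  rw [key]
  refine IsPD.refine d0.pd _ (fun B hB => ?_) (fun B hB => ?_)
  · by_cases hBB : B = B1
    · rw [if_pos hBB]
      refine isPD_pair hL hBE (hc.disjoint.mono_right inf_le_right) ?_
      rw [hsup]
      exact d0.pd.sat_of_mem hB1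
    · rw [if_neg hBB]
      exact d.pd.subset (Finset.filter_subset _ _)
  · by_cases hBB : B = B1
    · rw [if_pos hBB, hBB, Finset.sup_insert, Finset.sup_singleton]
      exact sup_le h1 inf_le_left
    · rw [if_neg hBB]
      exact Finset.sup_le fun W hW => (Finset.mem_filter.1 hW).2

/-- Proof: `IsPD.refine` for `d` (`isPD_pair`, `isPD_singleton`, `isPD_empty`).  For `W ≤ B1`,
`L1 ≤ W` the finset `{L1, W ⊓ E}.erase ⊥` is `{L1, W ⊓ E}` if `W ⊓ E ≠ ⊥` (sup `W`) and
`{L1}` if `W ⊓ E = ⊥` (then `W = L1` by `sup_inf_of_compl`).  For `W ≤ B1`, `¬ L1 ≤ W` it is `∅` or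
`{W ⊓ E}`, saturated by `Sat.inf`. -/
theorem isPD_gset {E B1 L1 : Submodule R V} (d : PD R V) (hE : Sat E) (hc : IsCompl L1 E)
    (hL : L1 ≠ ⊥) : IsPD (gset E B1 L1 d) := by
  refine IsPD.refine d.pd _ (fun W hW => ?_) (fun W hW => ?_)
  · have hWs : Sat W := d.pd.sat_of_mem hW
    split_ifs with h1 h2
    · have hsup : L1 ⊔ (W ⊓ E) = W := sup_inf_of_compl hc h2
      by_cases h0 : W ⊓ E = ⊥
      · rw [h0, sup_bot_eq] at hsup
        have : ({L1, W ⊓ E} : Finset (Submodule R V)).erase ⊥ = {L1} := by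
          ext U
          simp only [Finset.mem_erase, Finset.mem_insert, Finset.mem_singleton]
          constructor
          · rintro ⟨h3, h4 | h4⟩
            · exact h4
            · exact absurd (h4.trans h0) h3
          · rintro rfl
            exact ⟨hL, Or.inl rfl⟩
        rw [this]
        refine isPD_singleton hL ?_
        rw [hsup]
        exact hWs
      · rw [Finset.erase_eq_of_notMem]
        · refine isPD_pair hL h0 (hc.disjoint.mono_right inf_le_right) ?_
          rw [hsup]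
          exact hWs
        · rw [Finset.mem_insert, Finset.mem_singleton]
          rintro (h3 | h3)
          · exact hL h3.symm
          · exact h0 h3.symm
    · by_cases h0 : W ⊓ E = ⊥
      · rw [h0, Finset.erase_singleton]
        exact isPD_empty
      · rw [Finset.erase_eq_of_notMem]
        · exact isPD_singleton h0 (hWs.inf hE)
        · rw [Finset.mem_singleton]
          exact fun h3 => h0 h3.symm
    · exact isPD_singleton (d.ne_bot hW) hWs
  · refine Finset.sup_le fun U hU => ?_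
    simp only [id]
    split_ifs at hU with h1 h2
    · have h3 := Finset.mem_of_mem_erase hU
      rw [Finset.mem_insert, Finset.mem_singleton] at h3
      rcases h3 with rfl | rfl
      · exact h2
      · exact inf_le_left
    · have h3 := Finset.mem_of_mem_erase hU
      rw [Finset.mem_singleton] at h3
      rw [h3]
      exact inf_le_left
    · rw [Finset.mem_singleton] at hU
      rw [hU]

theorem mem_gset {E B1 L1 : Submodule R V} {d : PD R V} (hL : L1 ≠ ⊥) {U : Submodule R V} :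
    U ∈ gset E B1 L1 d ↔ (U ∈ d.bl ∧ ¬ U ≤ B1) ∨ (∃ W ∈ d.bl, W ≤ B1 ∧ L1 ≤ W ∧ U = L1) ∨
      (∃ W ∈ d.bl, W ≤ B1 ∧ U = W ⊓ E ∧ U ≠ ⊥) := by
  rw [gset, Finset.mem_biUnion]
  constructor
  · rintro ⟨W, hW, hU⟩
    split_ifs at hU with h1 h2
    · rw [Finset.mem_erase, Finset.mem_insert, Finset.mem_singleton] at hU
      rcases hU with ⟨h3, h4 | h4⟩
      · exact Or.inr (Or.inl ⟨W, hW, h1, h2, h4⟩)
      · exact Or.inr (Or.inr ⟨W, hW, h1, h4, h3⟩)
    · rw [Finset.mem_erase, Finset.mem_singleton] at hU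
      exact Or.inr (Or.inr ⟨W, hW, h1, hU.2, hU.1⟩)
    · rw [Finset.mem_singleton] at hU
      subst hU
      exact Or.inl ⟨hW, h1⟩
  · rintro (⟨hU, h1⟩ | ⟨W, hW, h1, h2, rfl⟩ | ⟨W, hW, h1, h2, h3⟩)
    · exact ⟨U, hU, by rw [if_neg h1]; exact Finset.mem_singleton_self _⟩
    · refine ⟨W, hW, ?_⟩
      rw [if_pos h1, if_pos h2, Finset.mem_erase, Finset.mem_insert]
      exact ⟨hL, Or.inl rfl⟩
    · refine ⟨W, hW, ?_⟩
      rw [if_pos h1]
      split_ifs with h4
      · rw [Finset.mem_erase, Finset.mem_insert, Finset.mem_singleton]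
        exact ⟨h3, Or.inr h2⟩
      · rw [Finset.mem_erase, Finset.mem_singleton]
        exact ⟨h3, h2⟩

end Pool.Agent.Rognes
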