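import Pool.Agent.Lib_MP_ca431a_cb.Chain

/-!
PIECE [Prism] (MP_ca431a_al).  Homotopies between monotone self-maps of a poset, on strictly
increasing lists (order complex) -- the three contraction criteria.  See the docstrings.
-/

open Finsupp
open scoped Classical

namespace Pool.Agent.Rognes

variable {α : Type*} [PartialOrder α]

section prism_aux

variable {β γ : Type*}

/-- The induced map. -/
noncomputable def mapM (F : β → γ) : Ch β →ₗ[ℤ] Ch γ := Finsupp.lmapDomain ℤ ℤ (List.map F)

theorem mapM_single (F : β → γ) (l : List β) (c : ℤ) : mapM F (single l c) = single (l.map F) c := by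
  simp [mapM]

theorem mapM_consM (F : β → γ) (a : β) (x : Ch β) : mapM F (consM a x) = consM (F a) (mapM F x) := by
  have h : (mapM F ∘ₗ consM a : Ch β →ₗ[ℤ] Ch γ) = consM (F a) ∘ₗ mapM F := by
    apply ch_ext
    intro l
    simp [mapM_single]
  exact LinearMap.congr_fun h x

theorem mapM_bdL (F : β → γ) (l : List β) : mapM F (bdL l) = bdL (l.map F) := by
  induction l with
  | nil => simp
  | cons a l ih => rw [bdL_cons, map_sub, mapM_single, mapM_consM, ih, List.map_cons, bdL_cons]

theorem bd_mapM (F : β → γ) (x : Ch β) : bd (mapM F x) = mapM F (bd x) := by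
  have h : (bd ∘ₗ mapM F : Ch β →ₗ[ℤ] Ch γ) = mapM F ∘ₗ bd := by
    apply ch_ext
    intro l
    simp [mapM_single, mapM_bdL]
  exact LinearMap.congr_fun h x

/-- The prism of a list. -/
noncomputable def prismL (F G : β → γ) : List β → Ch γ
  | [] => 0
  | a :: l => single (F a :: G a :: l.map G) 1 - consM (F a) (prismL F G l)

/-- The prism operator. -/
noncomputable def prism (F G : β → γ) : Ch β →ₗ[ℤ] Ch γ := Finsupp.linearCombination ℤ (prismL F G)

theorem prism_single (F G : β → γ) (l : List β) (c : ℤ) : prism F G (single l c) = c • prismL F G l := by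
  simp [prism]

theorem prismL_cons (F G : β → γ) (a : β) (l : List β) :
    prismL F G (a :: l) = single (F a :: G a :: l.map G) 1 - consM (F a) (prismL F G l) := rfl

theorem prism_consM (F G : β → γ) (a : β) (x : Ch β) :
    prism F G (consM a x) = consM (F a) (consM (G a) (mapM G x)) - consM (F a) (prism F G x) := by
  have h : (prism F G ∘ₗ consM a : Ch β →ₗ[ℤ] Ch γ) =
      consM (F a) ∘ₗ consM (G a) ∘ₗ mapM G - consM (F a) ∘ₗ prism F G := by
    apply ch_ext
    intro l
    simp [mapM_single, prism_single, prismL_cons]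
  exact LinearMap.congr_fun h x

theorem bd_prism (F G : β → γ) (x : Ch β) :
    bd (prism F G x) = mapM G x - mapM F x - prism F G (bd x) := by
  have h : (bd ∘ₗ prism F G : Ch β →ₗ[ℤ] Ch γ) = mapM G - mapM F - prism F G ∘ₗ bd := by
    apply ch_ext
    intro l
    show bd (prism F G (single l 1)) = mapM G (single l 1) - mapM F (single l 1) - prism F G (bd (single l 1))
    rw [prism_single, one_smul, mapM_single, mapM_single, bd_single, one_smul]
    induction l with
    | nil => simp [prismL]
    | cons a l ih =>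
      have e : prism F G (bdL (a :: l)) =
          prismL F G l - (consM (F a) (consM (G a) (bdL (l.map G))) - consM (F a) (prism F G (bdL l))) := by
        rw [bdL_cons, map_sub, prism_consM, prism_single, one_smul, mapM_bdL]
      rw [e, prismL_cons, map_sub, bd_consM, ih, bd_single, one_smul, bdL_cons, bdL_cons, List.map_cons,
        List.map_cons]
      simp only [map_sub, consM_single]
      abel
  exact LinearMap.congr_fun h x

end prism_aux

section prism_order

variable {β : Type*} [PartialOrder β]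

theorem prism_mem_aux {A : Set α} {B : Set β} {F G : α → β} (hFA : ∀ x ∈ A, F x ∈ B) (hGA : ∀ x ∈ A, G x ∈ B)
    (hF : ∀ x ∈ A, ∀ y ∈ A, x ≤ y → F x ≤ F y) (hG : ∀ x ∈ A, ∀ y ∈ A, x ≤ y → G x ≤ G y)
    (hFG : ∀ x ∈ A, F x ≤ G x) (l : List α) : l ∈ WC A → ∀ a ∈ A, (∀ x ∈ l, a ≤ x) →
      prismL F G l ∈ CK {m | m ∈ WC B ∧ ∀ y ∈ m, F a ≤ y} (l.length + 1) := by
  induction l with
  | nil =>
    intro _ a _ _
    exact Submodule.zero_mem _
  | cons b l ih =>
    intro hl a ha hal
    have hb : b ∈ A := hl.1 b List.mem_cons_self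
    have hl' : l ∈ WC A := ⟨fun x hx => hl.1 x (List.mem_cons_of_mem _ hx), (List.pairwise_cons.1 hl.2).2⟩
    have hbl : ∀ x ∈ l, b ≤ x := (List.pairwise_cons.1 hl.2).1
    have hab : a ≤ b := hal b List.mem_cons_self
    have hFab : F a ≤ F b := hF a ha b hb hab
    have hmapG : l.map G ∈ WC B := by
      refine ⟨?_, ?_⟩
      · intro y hy
        obtain ⟨x, hx, rfl⟩ := List.mem_map.1 hy
        exact hGA x (hl'.1 x hx)
      · rw [List.pairwise_map]
        exact hl'.2.imp_of_mem (fun {x y} hx hy hxy => hG x (hl'.1 x hx) y (hl'.1 y hy) hxy)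
    have hGb : ∀ y ∈ l.map G, G b ≤ y := by
      intro y hy
      obtain ⟨x, hx, rfl⟩ := List.mem_map.1 hy
      exact hG b hb x (hl'.1 x hx) (hbl x hx)
    rw [prismL_cons]
    refine Submodule.sub_mem _ (single_mem_CK _ ⟨⟨?_, ?_⟩, ?_⟩ ?_) ?_
    · intro y hy
      rcases List.mem_cons.1 hy with rfl | hy
      · exact hFA b hb
      · rcases List.mem_cons.1 hy with rfl | hy
        · exact hGA b hb
        · exact hmapG.1 y hy
    · rw [List.pairwise_cons, List.pairwise_cons]
      refine ⟨?_, hGb, hmapG.2⟩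
      intro y hy
      rcases List.mem_cons.1 hy with rfl | hy
      · exact hFG b hb
      · exact (hFG b hb).trans (hGb y hy)
    · intro y hy
      rcases List.mem_cons.1 hy with rfl | hy
      · exact hFab
      · rcases List.mem_cons.1 hy with rfl | hy
        · exact hFab.trans (hFG b hb)
        · exact hFab.trans ((hFG b hb).trans (hGb y hy))
    · simp
    · refine consM_mem ?_ (ih hl' b hb hbl)
      rintro m ⟨hm, hmb⟩
      refine ⟨⟨?_, ?_⟩, ?_⟩
      · intro y hy
        rcases List.mem_cons.1 hy with rfl | hy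
        · exact hFA b hb
        · exact hm.1 y hy
      · rw [List.pairwise_cons]
        exact ⟨hmb, hm.2⟩
      · intro y hy
        rcases List.mem_cons.1 hy with rfl | hy
        · exact hFab
        · exact hFab.trans (hmb y hy)

theorem prism_mem {A : Set α} {B : Set β} {F G : α → β} (hFA : ∀ x ∈ A, F x ∈ B) (hGA : ∀ x ∈ A, G x ∈ B)
    (hF : ∀ x ∈ A, ∀ y ∈ A, x ≤ y → F x ≤ F y) (hG : ∀ x ∈ A, ∀ y ∈ A, x ≤ y → G x ≤ G y)
    (hFG : ∀ x ∈ A, F x ≤ G x) {r : ℕ} {x : Ch α} (hx : x ∈ CK (WC A) r) :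
    prism F G x ∈ CK (WC B) (r + 1) := by
  refine map_mem_of_lists (f := prism F G) ?_ hx
  intro l hl hr
  rw [prism_single, one_smul]
  cases l with
  | nil => exact Submodule.zero_mem _
  | cons b l =>
    have hb : b ∈ A := hl.1 b List.mem_cons_self
    have h1 := prism_mem_aux hFA hGA hF hG hFG (b :: l) hl b hb (by
      intro x hx
      rcases List.mem_cons.1 hx with rfl | hx
      · exact le_rfl
      · exact (List.pairwise_cons.1 hl.2).1 x hx)
    rw [hr] at h1
    exact CK_mono (fun m hm => hm.1) _ h1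

/-- Normalisation. -/
noncomputable def nrm : Ch α →ₗ[ℤ] Ch α :=
  Finsupp.linearCombination ℤ (fun l => if l.Pairwise (· < ·) then single l 1 else 0)

theorem nrm_pos {l : List α} (h : l.Pairwise (· < ·)) : nrm (single l 1) = single l 1 := by
  unfold nrm
  rw [Finsupp.linearCombination_single, one_smul, if_pos h]

theorem nrm_neg {l : List α} (h : ¬ l.Pairwise (· < ·)) : nrm (single l 1) = 0 := by
  unfold nrm
  rw [Finsupp.linearCombination_single, one_smul, if_neg h]

theorem nrm_mem {A : Set α} {r : ℕ} {x : Ch α} (hx : x ∈ CK (WC A) r) : nrm x ∈ CK (OC A) r := by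
  refine map_mem_of_lists (f := nrm) ?_ hx
  intro l hl hr
  by_cases h : l.Pairwise (· < ·)
  · rw [nrm_pos h]
    exact single_mem_CK _ ⟨hl.1, h⟩ hr
  · rw [nrm_neg h]
    exact Submodule.zero_mem _

theorem nrm_id {A : Set α} {r : ℕ} {x : Ch α} (hx : x ∈ CK (OC A) r) : nrm x = x :=
  map_eq_of_lists (f := nrm) (g := LinearMap.id) (fun l hl _ => nrm_pos hl.2) hx

theorem nrm_consM (a : α) (x : Ch α) : nrm (consM a x) = nrm (consM a (nrm x)) := by
  have h : (nrm ∘ₗ consM a : Ch α →ₗ[ℤ] Ch α) = nrm ∘ₗ consM a ∘ₗ nrm := by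
    apply ch_ext
    intro l
    show nrm (consM a (single l 1)) = nrm (consM a (nrm (single l 1)))
    by_cases h : l.Pairwise (· < ·)
    · rw [nrm_pos h]
    · rw [nrm_neg h, map_zero, map_zero, consM_single, nrm_neg]
      exact fun h2 => h (List.pairwise_cons.1 h2).2
  exact LinearMap.congr_fun h x

theorem nrm_consM_consM (a : α) (x : Ch α) : nrm (consM a (consM a x)) = 0 := by
  have h : (nrm ∘ₗ consM a ∘ₗ consM a : Ch α →ₗ[ℤ] Ch α) = 0 := by
    apply ch_ext
    intro l
    show nrm (consM a (consM a (single l 1))) = 0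
    rw [consM_single, consM_single, nrm_neg]
    intro h2
    exact lt_irrefl a ((List.pairwise_cons.1 h2).1 a List.mem_cons_self)
  exact LinearMap.congr_fun h x

theorem bd_nrm_list (l : List α) (hl : l.Pairwise (· ≤ ·)) : bd (nrm (single l 1)) = nrm (bdL l) := by
  induction l with
  | nil => rw [nrm_pos List.Pairwise.nil, bd_single, one_smul, bdL_nil, map_zero]
  | cons a m ih =>
    have hm := (List.pairwise_cons.1 hl).2
    have ham := (List.pairwise_cons.1 hl).1
    by_cases h1 : m.Pairwise (· < ·)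
    · by_cases h2 : (a :: m).Pairwise (· < ·)
      · rw [nrm_pos h2, bd_single, one_smul]
        have h3 : bdL (a :: m) ∈ CK (OC (Set.univ : Set α)) m.length :=
          bdL_mem (subClosed_OC _) ⟨fun x _ => Set.mem_univ x, h2⟩ (List.length_cons ..)
        exact (nrm_id h3).symm
      · cases m with
        | nil => exact absurd (List.pairwise_singleton _ _) h2
        | cons b m' =>
          have hab : a = b := by
            by_contra hne
            have hlt : a < b := lt_of_le_of_ne (ham b List.mem_cons_self) hne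
            apply h2
            rw [List.pairwise_cons]
            refine ⟨?_, h1⟩
            intro x hx
            rcases List.mem_cons.1 hx with rfl | hx
            · exact hlt
            · exact hlt.trans ((List.pairwise_cons.1 h1).1 x hx)
          subst hab
          rw [nrm_neg h2, map_zero, bdL_cons, bdL_cons, map_sub (consM a), consM_single, sub_sub_cancel, nrm_consM_consM]
    · have h2 : ¬ (a :: m).Pairwise (· < ·) := fun h => h1 (List.pairwise_cons.1 h).2
      rw [nrm_neg h2, map_zero, bdL_cons, map_sub, nrm_neg h1, nrm_consM, ← ih hm, nrm_neg h1, map_zero, map_zero, map_zero,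
        sub_zero]

theorem bd_nrm {A : Set α} {r : ℕ} {x : Ch α} (hx : x ∈ CK (WC A) r) : bd (nrm x) = nrm (bd x) := by
  refine map_eq_of_lists (f := bd ∘ₗ nrm) (g := nrm ∘ₗ bd) ?_ hx
  intro l hl _
  show bd (nrm (single l 1)) = nrm (bd (single l 1))
  rw [bd_nrm_list l hl.2, bd_single, one_smul]

/-- homotopic maps -/
def Hm (A : Set α) (F G : α → α) : Prop :=
  ∀ (r : ℕ) (z : Ch α), z ∈ CK (OC A) r → bd z = 0 →
    ∃ w ∈ CK (OC A) (r + 1), bd w = nrm (mapM G z) - nrm (mapM F z)

theorem Hm.symm {A : Set α} {F G : α → α} (h : Hm A F G) : Hm A G F := by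
  intro r z hz hb
  obtain ⟨w, hw, e⟩ := h r z hz hb
  exact ⟨-w, Submodule.neg_mem _ hw, by rw [map_neg, e, neg_sub]⟩

theorem Hm.trans {A : Set α} {F G H : α → α} (h : Hm A F G) (h' : Hm A G H) : Hm A F H := by
  intro r z hz hb
  obtain ⟨w, hw, e⟩ := h r z hz hb
  obtain ⟨w', hw', e'⟩ := h' r z hz hb
  exact ⟨w' + w, Submodule.add_mem _ hw' hw, by rw [map_add, e, e', sub_add_sub_cancel]⟩

theorem Hm.of_le {A : Set α} {F G : α → α} (hFA : ∀ x ∈ A, F x ∈ A) (hGA : ∀ x ∈ A, G x ∈ A)
    (hF : ∀ x ∈ A, ∀ y ∈ A, x ≤ y → F x ≤ F y) (hG : ∀ x ∈ A, ∀ y ∈ A, x ≤ y → G x ≤ G y)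
    (hFG : ∀ x ∈ A, F x ≤ G x) : Hm A F G := by
  intro r z hz hb
  have h1 := prism_mem hFA hGA hF hG hFG (CK_mono (OC_subset_WC A) r hz)
  refine ⟨nrm (prism F G z), nrm_mem h1, ?_⟩
  rw [bd_nrm h1, bd_prism, hb, map_zero, sub_zero, map_sub]

theorem mapM_id' (z : Ch α) : mapM (fun x => x) z = z := by
  have h : (mapM (fun x => x) : Ch α →ₗ[ℤ] Ch α) = LinearMap.id := by
    apply ch_ext
    intro l
    rw [mapM_single, List.map_id']
    rfl
  exact LinearMap.congr_fun h z

theorem acy_of_Hm {A : Set α} {c : α} (hc : c ∈ A) (h : Hm A (fun x => x) (fun _ => c)) (r : ℕ) :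
    Acy (OC A) r := by
  cases r with
  | zero => exact acy_zero hc
  | succ r =>
    intro z hz hb
    obtain ⟨w, hw, e⟩ := h (r + 1) z hz hb
    rw [mapM_id', nrm_id hz] at e
    have h0 : nrm (mapM (fun _ => c) z) = 0 := by
      cases r with
      | zero =>
        have h1 : mapM (fun _ => c) z = consM c (bd z) := by
          refine map_eq_of_lists (f := mapM (fun _ => c)) (g := consM c ∘ₗ bd) ?_ hz
          intro l _ hr
          obtain ⟨x, rfl⟩ := List.length_eq_one_iff.1 hr
          show mapM (fun _ => c) (single [x] 1) = consM c (bd (single [x] 1))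
          rw [mapM_single, bd_single, one_smul, bdL_cons, bdL_nil, map_zero, sub_zero, consM_single]
          rfl
        rw [h1, hb, map_zero, map_zero]
      | succ r =>
        have h1 : nrm (mapM (fun _ => c) z) = (0 : Ch α →ₗ[ℤ] Ch α) z := by
          refine map_eq_of_lists (f := nrm ∘ₗ mapM (fun _ => c)) (g := 0) ?_ hz
          intro l _ hr
          show nrm (mapM (fun _ => c) (single l 1)) = 0
          rw [mapM_single, nrm_neg]
          intro h2
          match l, hr with
          | [], hr => simp at hr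
          | [x], hr => simp at hr
          | x :: y :: l, _ =>
            rw [List.map_cons, List.map_cons] at h2
            exact lt_irrefl c ((List.pairwise_cons.1 h2).1 c List.mem_cons_self)
        exact h1
    refine ⟨-w, Submodule.neg_mem _ hw, ?_⟩
    rw [map_neg, e, h0, zero_sub, neg_neg]

end prism_order

/-- **Contraction `id ≤ h ≥ c`.**

Proof of all three criteria (suggested file layout; the helper definitions are yours).
* `mapM F : Ch α →ₗ Ch β := Finsupp.lmapDomain ℤ ℤ (List.map F)`; `bd (mapM F x) = mapM F (bd x)`.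
* Prism: `prismL F G [] = 0`, `prismL F G (a :: l) =
  single (F a :: G a :: l.map G) 1 - consM (F a) (prismL F G l)`, extended linearly to `prism F G`.
  Then for ALL `x : Ch α`: `bd (prism F G x) = mapM G x - mapM F x - prism F G (bd x)`
  (induction on the list, using `bd_consM`:
  `∂D(a::l) = (Ga::Gl) - Fa::∂(Ga::Gl) - D l + Fa::∂(D l)`, insert the induction hypothesis).
* If `F, G` map `A` to `B`, are monotone on `A`, and `F x ≤ G x` on `A`, then `prism F G` maps
  `CK (WC A) r` to `CK (WC B) (r+1)` (weakly increasing lists; by list induction prove that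
  `prismL F G l` is supported on weakly increasing lists of length `|l|+1` with entries in `B`
  whose first entry is `F (head l)`; or: all entries `≥ F a` whenever all entries of `l` are
  `≥ a ∈ A`).
* Normalisation: `nrm : Ch α →ₗ Ch α` sends a list to itself if it is strictly increasing and to
  `0` otherwise.  For `x ∈ CK (WC A) r`: `nrm x ∈ CK (OC A) r`, `bd (nrm x) = nrm (bd x)`;
  for `x ∈ CK (OC A) r`: `nrm x = x`.  Proof of `bd (nrm l) = nrm (bd l)` for a weakly increasing
  list `l`, by induction: `l = a :: m`.  Note `nrm (a :: y) = nrm (a :: nrm y)` (linear in `y`).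
  If `m` is not strictly increasing then `nrm l = 0`, `nrm m = 0` and
  `nrm (bd l) = nrm m - nrm (a :: bd m) = 0 - nrm (a :: nrm (bd m)) = - nrm (a :: bd (nrm m)) = 0`.
  If `m` is strictly increasing but `l` is not, then (`l` weakly increasing) `m = a :: m'` and
  `bd l = m - a :: (m' - a :: bd m') = a :: a :: bd m'`, killed by `nrm`.
  If `l` is strictly increasing all terms of `bd l` are sublists, hence strictly increasing.
* Say `Hm A F G` if for all `r` and all `z ∈ CK (OC A) r` with `bd z = 0` there is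
  `w ∈ CK (OC A) (r+1)` with `bd w = nrm (mapM G z) - nrm (mapM F z)`.  For `F, G : α → α`
  monotone on `A`, preserving `A`, `F x ≤ G x` on `A`: `Hm A F G` (take `w = nrm (prism F G z)`).
  `Hm` is symmetric and transitive.
* `nrm (mapM id z) = z`; and for the constant map `c ∈ A` and a cycle `z ∈ CK (OC A) r`:
  `nrm (mapM (fun _ => c) z) = 0` when `1 ≤ r` (for `r ≥ 2` because the lists `[c, c, ...]` are not
  strictly increasing, for `r = 1` because `mapM (fun _ => c) z = consM c (bd z)`).
  The case `r = 0` is `acy_zero`.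
So `Hm A id (fun _ => c)` implies `Acy (OC A) r` for all `r`. -/
theorem acy_up {A : Set α} (h : α → α) (c : α) (hc : c ∈ A) (hA : ∀ x ∈ A, h x ∈ A)
    (hm : ∀ x ∈ A, ∀ y ∈ A, x ≤ y → h x ≤ h y) (h1 : ∀ x ∈ A, x ≤ h x) (h2 : ∀ x ∈ A, c ≤ h x)
    (r : ℕ) : Acy (OC A) r := by
  have e1 : Hm A (fun x => x) h := Hm.of_le (fun x hx => hx) hA (fun _ _ _ _ hxy => hxy) hm h1
  have e2 : Hm A (fun _ => c) h := Hm.of_le (fun _ _ => hc) hA (fun _ _ _ _ _ => le_rfl) hm h2
  exact acy_of_Hm hc (e1.trans e2.symm) r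

/-- **Contraction `id ≥ h ≤ c`.**  See `acy_up`. -/
theorem acy_down {A : Set α} (h : α → α) (c : α) (hc : c ∈ A) (hA : ∀ x ∈ A, h x ∈ A)
    (hm : ∀ x ∈ A, ∀ y ∈ A, x ≤ y → h x ≤ h y) (h1 : ∀ x ∈ A, h x ≤ x) (h2 : ∀ x ∈ A, h x ≤ c)
    (r : ℕ) : Acy (OC A) r := by
  have e1 : Hm A h (fun x => x) := Hm.of_le hA (fun x hx => hx) hm (fun _ _ _ _ hxy => hxy) h1
  have e2 : Hm A h (fun _ => c) := Hm.of_le hA (fun _ _ => hc) hm (fun _ _ _ _ _ => le_rfl) h2
  exact acy_of_Hm hc (e1.symm.trans e2) r

/-- **Contraction `id ≥ g ≤ k ≥ c`.**  See `acy_up`. -/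
theorem acy_zig {A : Set α} (g k : α → α) (c : α) (hc : c ∈ A) (hg : ∀ x ∈ A, g x ∈ A)
    (hk : ∀ x ∈ A, k x ∈ A)
    (hgm : ∀ x ∈ A, ∀ y ∈ A, x ≤ y → g x ≤ g y) (hkm : ∀ x ∈ A, ∀ y ∈ A, x ≤ y → k x ≤ k y)
    (h1 : ∀ x ∈ A, g x ≤ x) (h2 : ∀ x ∈ A, g x ≤ k x) (h3 : ∀ x ∈ A, c ≤ k x)
    (r : ℕ) : Acy (OC A) r := by
  have e1 : Hm A g (fun x => x) := Hm.of_le hg (fun x hx => hx) hgm (fun _ _ _ _ hxy => hxy) h1
  have e2 : Hm A g k := Hm.of_le hg hk hgm hkm h2
  have e3 : Hm A (fun _ => c) k := Hm.of_le (fun _ _ => hc) hk (fun _ _ _ _ _ => le_rfl) hkm h3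
  exact acy_of_Hm hc (e1.symm.trans (e2.trans e3.symm)) r

end Pool.Agent.Rognes
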