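import Pool.Agent.Lib_MP_ca431a_cb.CaseA1
import Pool.Agent.Lib_MP_ca431a_cb.Prism

/-!
PIECE [CaseA2] (MP_ca431a_al).  A block of `d0` with exactly one line of `τ`.
-/

open Finsupp
open scoped Classical

namespace Pool.Agent.Rognes

variable {R : Type*} [CommRing R] [IsDomain R]
variable {V : Type*} [AddCommGroup V] [Module R V] [Module.IsTorsionFree R V]

/-- **Case A of Lemma G.**

Proof.  Put `U1 = B1 ⊓ E`.  `L1 ⊔ U1 = B1` (`sup_inf_of_compl`), `U1 ≠ ⊥` (as `L1 ≠ B1`).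
Also `E ≠ ⊤` (`L1 ⊓ E = ⊥`, `L1 ≠ ⊥`), `E ≠ ⊥` (because `⊥ ≠ U1 ≤ E`), so every `L ∈ τ.bl` is `≠ ⊤`.
Let `A = GG E τ d0`, `g = gA E B1 L1`, `k = kA E B1 L1`, `c = k τ` (`τ ≤ d0`; by `huniq` its blocks are
`L1`, `U1` and the `L ∈ τ.bl`, `L ≠ L1`).  For `d ≤ d0`: `(g d).bl = gset …`, `(k d).bl = kset …`
(`isPD_gset`, `isPD_kset`).
Facts for `τ ≤ d ≤ d0`:
(0) A block `W ≤ B1` of `d` with `L1 ≤ W` exists (`τ ≤ d` and a block of `d` containing `L1` lies in a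
block of `d0`, which is `B1` by `PD.block_unique`).  A block of `d` lies inside `B1` or inside another
block of `d0` (then it is not inside `B1`).
(1) `g d ≤ d`, `g d ≤ k d`, `k d ≤ d0`; `g`, `k` are monotone on such `d`: for `W ≤ W'` blocks of
`d ≤ d'`: `W ≤ B1` iff `W' ≤ B1` (if `W ≤ B1`, then `W'` lies in a block of `d0` which meets `B1` in
`W ≠ ⊥`); `W ⊓ E ≤ W' ⊓ E`; `L1` is a block of both `g d` and `g d'`.
(2) `g d`, `k d` satisfy: `τ ≤ g d`, `τ ≤ k d` : `L1` is a block of both; another `L ∈ τ.bl` is not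
inside `B1` (`huniq`), it lies in a block `W` of `d` which is not inside `B1`, and is kept.
(3) `k d ≠ d0`: `B1` is not a block of `k d`: `B1 ≠ L1`; `B1 ≠ U1` (else `L1 ≤ B1 ≤ E`, `L1 = ⊥`);
`B1 ≤ B1`.  `g d ≠ d0`: otherwise `d0 = g d ≤ k d ≤ d0`.
(4) `PE` (assume the `PE` condition for blocks of `d`, and `⊤ ∉ d.bl`; for `d = τ` use `hbad`):
nonempty (`L1`); `⊤` is not a block (`L1 < B1 ≤ ⊤`; `W ⊓ E ≤ E ≠ ⊤`; the kept blocks);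
a block meeting `E` trivially is `L1` or a kept block (`(W ⊓ E) ⊓ E = W ⊓ E ≠ ⊥`).
(5) Good: `k d` contains `U1` and `U1 ⊓ E = U1 ≠ ⊥`; `g d` is good if `d` is: a block `W` of `d` with
`W ⊓ E ≠ ⊥` is kept, or `W ⊓ E` is a block of `g d`.
So `g d, k d ∈ A` for `d ∈ A`, and `c = k τ ∈ A`; `c ≤ k d` by monotonicity of `k`.
Conclude by `acy_zig`. -/
theorem caseA (E : Submodule R V) (hE : Sat E) (τ d0 : PD R V)
    (hbad : ∀ L ∈ τ.bl, IsCompl L E) (hle : τ ≤ d0) {B1 L1 : Submodule R V} (hB1 : B1 ∈ d0.bl)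
    (hL1 : L1 ∈ τ.bl) (h1 : L1 ≤ B1) (hne : L1 ≠ B1)
    (huniq : ∀ L ∈ τ.bl, L ≤ B1 → L = L1) (r : ℕ) : Acy (OC (GG E τ d0)) r := by
  have hL : L1 ≠ ⊥ := τ.ne_bot hL1
  have hc : IsCompl L1 E := hbad L1 hL1
  have hBsup : L1 ⊔ (B1 ⊓ E) = B1 := sup_inf_of_compl hc h1
  have hU1 : B1 ⊓ E ≠ ⊥ := by
    intro h0
    rw [h0, sup_bot_eq] at hBsup
    exact hne hBsup
  have hUU : ∀ W : Submodule R V, (W ⊓ E) ⊓ E = W ⊓ E := fun W => by rw [inf_assoc, inf_idem]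
  have hEtop : E ≠ ⊤ := by
    intro h
    have h2 := hc.inf_eq_bot
    rw [h, inf_top_eq] at h2
    exact hL h2
  have hEbot : E ≠ ⊥ := by
    intro h
    exact hU1 (by rw [h, inf_bot_eq])
  have hcomplTop : ∀ L : Submodule R V, IsCompl L E → (⊤ : Submodule R V) ≠ L := by
    rintro L h rfl
    have h2 := h.inf_eq_bot
    rw [top_inf_eq] at h2
    exact hEbot h2
  have hinfTop : ∀ W : Submodule R V, (⊤ : Submodule R V) ≠ W ⊓ E := by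
    intro W h
    exact hEtop (top_le_iff.1 (h.le.trans inf_le_right))
  have hB1E : B1 ≠ B1 ⊓ E := by
    intro h
    have h2 : L1 ≤ E := h1.trans (h.le.trans inf_le_right)
    have h3 := hc.inf_eq_bot
    rw [inf_eq_left.2 h2] at h3
    exact hL h3
  -- membership
  have memk : ∀ d : PD R V, d ≤ d0 → ∀ U : Submodule R V, U ∈ (kA E B1 L1 d).bl ↔
      U = L1 ∨ U = B1 ⊓ E ∨ (U ∈ d.bl ∧ ¬ U ≤ B1) := by
    intro d hd U
    rw [kA, dif_pos (isPD_kset hE hc hL hB1 h1 hne hd)]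
    exact mem_kset
  have memg : ∀ (d : PD R V) (U : Submodule R V), U ∈ (gA E B1 L1 d).bl ↔
      (U ∈ d.bl ∧ ¬ U ≤ B1) ∨ (∃ W ∈ d.bl, W ≤ B1 ∧ L1 ≤ W ∧ U = L1) ∨
      (∃ W ∈ d.bl, W ≤ B1 ∧ U = W ⊓ E ∧ U ≠ ⊥) := by
    intro d U
    rw [gA, dif_pos (isPD_gset d hE hc hL)]
    exact mem_gset hL
  -- fact (0)
  have hin : ∀ d : PD R V, d ≤ d0 → ∀ W W' : Submodule R V, W ≠ ⊥ → W ≤ B1 → W' ∈ d.bl →
      W ≤ W' → W' ≤ B1 := by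
    intro d hd W W' hW hWB hW' hWW
    obtain ⟨B, hB, hle'⟩ := hd W' hW'
    rw [d0.block_unique hB hB1 hW (hWW.trans hle') hWB] at hle'
    exact hle'
  have hzero : ∀ d : PD R V, τ ≤ d → d ≤ d0 → ∃ W ∈ d.bl, W ≤ B1 ∧ L1 ≤ W := by
    intro d hτ hd
    obtain ⟨W, hW, hLW⟩ := hτ L1 hL1
    exact ⟨W, hW, hin d hd L1 W hL h1 hW hLW, hLW⟩
  -- facts about `k`
  have k1 : ∀ d : PD R V, d ≤ d0 → kA E B1 L1 d ≤ d0 := by
    intro d hd U hU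
    rcases (memk d hd U).1 hU with h | h | ⟨h, _⟩
    · exact ⟨B1, hB1, h ▸ h1⟩
    · exact ⟨B1, hB1, h ▸ inf_le_left⟩
    · exact hd U h
  have kmono : ∀ d d' : PD R V, d' ≤ d0 → d ≤ d' → kA E B1 L1 d ≤ kA E B1 L1 d' := by
    intro d d' hd' hdd U hU
    rcases (memk d (hdd.trans hd') U).1 hU with h | h | ⟨h, h2⟩
    · exact ⟨U, (memk d' hd' U).2 (Or.inl h), le_rfl⟩
    · exact ⟨U, (memk d' hd' U).2 (Or.inr (Or.inl h)), le_rfl⟩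
    · obtain ⟨W', hW', hle'⟩ := hdd U h
      exact ⟨W', (memk d' hd' W').2 (Or.inr (Or.inr ⟨hW', fun h3 => h2 (hle'.trans h3)⟩)), hle'⟩
  have kτ : ∀ d : PD R V, τ ≤ d → d ≤ d0 → τ ≤ kA E B1 L1 d := by
    intro d hτ hd L hLτ
    by_cases hLL : L = L1
    · exact ⟨L, (memk d hd L).2 (Or.inl hLL), le_rfl⟩
    · obtain ⟨W, hW, hLW⟩ := hτ L hLτ
      exact ⟨W, (memk d hd W).2 (Or.inr (Or.inr ⟨hW, fun h3 =>
        hLL (huniq L hLτ (hLW.trans h3))⟩)), hLW⟩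
  have kne : ∀ d : PD R V, d ≤ d0 → kA E B1 L1 d ≠ d0 := by
    intro d hd h
    have h2 : B1 ∈ (kA E B1 L1 d).bl := by rw [h]; exact hB1
    rcases (memk d hd B1).1 h2 with h3 | h3 | ⟨_, h3⟩
    · exact hne h3.symm
    · exact hB1E h3
    · exact h3 le_rfl
  have kPE : ∀ d : PD R V, d ∈ PE E → d ≤ d0 → kA E B1 L1 d ∈ PE E := by
    intro d hdE hd
    refine ⟨⟨⟨L1, (memk d hd L1).2 (Or.inl rfl)⟩, fun h => ?_⟩, fun W hW hWE => ?_⟩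
    · rcases (memk d hd ⊤).1 h with h3 | h3 | ⟨h3, _⟩
      · exact hcomplTop L1 hc h3
      · exact hinfTop B1 h3
      · exact hdE.1.2 h3
    · rcases (memk d hd W).1 hW with h3 | h3 | ⟨h3, _⟩
      · rw [h3]; exact hc
      · exact absurd (by rw [h3, hUU] at hWE; exact hWE) hU1
      · exact hdE.2 W h3 hWE
  have kGG : ∀ d : PD R V, d ∈ PE E → τ ≤ d → d ≤ d0 → kA E B1 L1 d ∈ GG E τ d0 := by
    intro d hdE hτ hd
    refine ⟨kPE d hdE hd, ⟨B1 ⊓ E, (memk d hd _).2 (Or.inr (Or.inl rfl)), ?_⟩, kτ d hτ hd,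
      k1 d hd, kne d hd⟩
    rw [hUU]
    exact hU1
  have τPE : τ ∈ PE E :=
    ⟨⟨⟨L1, hL1⟩, fun h => hcomplTop ⊤ (hbad ⊤ h) rfl⟩, fun W hW _ => hbad W hW⟩
  -- facts about `g`
  have g1 : ∀ d : PD R V, gA E B1 L1 d ≤ d := by
    intro d U hU
    rcases (memg d U).1 hU with ⟨h, _⟩ | ⟨W, hW, _, h2, h3⟩ | ⟨W, hW, _, h2, _⟩
    · exact ⟨U, h, le_rfl⟩
    · exact ⟨W, hW, h3 ▸ h2⟩
    · exact ⟨W, hW, h2 ▸ inf_le_left⟩
  have g2 : ∀ d : PD R V, d ≤ d0 → gA E B1 L1 d ≤ kA E B1 L1 d := by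
    intro d hd U hU
    rcases (memg d U).1 hU with ⟨h, h'⟩ | ⟨W, hW, _, h2, h3⟩ | ⟨W, hW, hWB, h2, _⟩
    · exact ⟨U, (memk d hd U).2 (Or.inr (Or.inr ⟨h, h'⟩)), le_rfl⟩
    · exact ⟨U, (memk d hd U).2 (Or.inl h3), le_rfl⟩
    · refine ⟨B1 ⊓ E, (memk d hd _).2 (Or.inr (Or.inl rfl)), ?_⟩
      rw [h2]
      exact inf_le_inf_right E hWB
  have gmono : ∀ d d' : PD R V, d' ≤ d0 → d ≤ d' → gA E B1 L1 d ≤ gA E B1 L1 d' := by
    intro d d' hd' hdd U hU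
    rcases (memg d U).1 hU with ⟨h, h'⟩ | ⟨W, hW, hWB, h2, h3⟩ | ⟨W, hW, hWB, h2, h3⟩
    · obtain ⟨W', hW', hle'⟩ := hdd U h
      exact ⟨W', (memg d' W').2 (Or.inl ⟨hW', fun h3 => h' (hle'.trans h3)⟩), hle'⟩
    · obtain ⟨W', hW', hle'⟩ := hdd W hW
      exact ⟨U, (memg d' U).2 (Or.inr (Or.inl ⟨W', hW', hin d' hd' W W' (d.ne_bot hW) hWB hW' hle',
        h2.trans hle', h3⟩)), le_rfl⟩
    · obtain ⟨W', hW', hle'⟩ := hdd W hW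
      have hUW : U ≤ W' ⊓ E := by
        rw [h2]
        exact inf_le_inf_right E hle'
      refine ⟨W' ⊓ E, (memg d' _).2 (Or.inr (Or.inr ⟨W', hW',
        hin d' hd' W W' (d.ne_bot hW) hWB hW' hle', rfl, fun h4 => h3 ?_⟩)), hUW⟩
      rw [h4] at hUW
      exact le_bot_iff.1 hUW
  have gτ : ∀ d : PD R V, τ ≤ d → d ≤ d0 → τ ≤ gA E B1 L1 d := by
    intro d hτ hd L hLτ
    by_cases hLL : L = L1
    · obtain ⟨W, hW, hWB, hLW⟩ := hzero d hτ hd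
      exact ⟨L, (memg d L).2 (Or.inr (Or.inl ⟨W, hW, hWB, hLW, hLL⟩)), le_rfl⟩
    · obtain ⟨W, hW, hLW⟩ := hτ L hLτ
      exact ⟨W, (memg d W).2 (Or.inl ⟨hW, fun h3 => hLL (huniq L hLτ (hLW.trans h3))⟩), hLW⟩
  have gGG : ∀ d ∈ GG E τ d0, gA E B1 L1 d ∈ GG E τ d0 := by
    rintro d ⟨hdE, hgood, hτ, hd, hdne⟩
    refine ⟨⟨⟨?_, fun h => ?_⟩, fun W hW hWE => ?_⟩, ?_, gτ d hτ hd, (g1 d).trans hd, fun h => ?_⟩
    · obtain ⟨W, hW, hWB, hLW⟩ := hzero d hτ hd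
      exact ⟨L1, (memg d L1).2 (Or.inr (Or.inl ⟨W, hW, hWB, hLW, rfl⟩))⟩
    · rcases (memg d ⊤).1 h with ⟨h3, _⟩ | ⟨W, _, _, _, h3⟩ | ⟨W, _, _, h3, _⟩
      · exact hdE.1.2 h3
      · exact hcomplTop L1 hc h3
      · exact hinfTop W h3
    · rcases (memg d W).1 hW with ⟨h3, _⟩ | ⟨W', _, _, _, h3⟩ | ⟨W', _, _, h3, h4⟩
      · exact hdE.2 W h3 hWE
      · rw [h3]; exact hc
      · exact absurd (by rw [h3, hUU, ← h3] at hWE; exact hWE) h4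
    · obtain ⟨W, hW, hWE⟩ := hgood
      by_cases hWB : W ≤ B1
      · refine ⟨W ⊓ E, (memg d _).2 (Or.inr (Or.inr ⟨W, hW, hWB, rfl, hWE⟩)), ?_⟩
        rw [hUU]
        exact hWE
      · exact ⟨W, (memg d W).2 (Or.inl ⟨hW, hWB⟩), hWE⟩
    · have h2 := g2 d hd
      rw [h] at h2
      exact kne d hd (le_antisymm (k1 d hd) h2)
  refine acy_zig (gA E B1 L1) (kA E B1 L1) (kA E B1 L1 τ) (kGG τ τPE le_rfl hle) gGG
    (fun d hd => kGG d hd.1 hd.2.2.1 hd.2.2.2.1) (fun d _ d' hd' h => gmono d d' hd'.2.2.2.1 h)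
    (fun d _ d' hd' h => kmono d d' hd'.2.2.2.1 h) (fun d _ => g1 d) (fun d hd => g2 d hd.2.2.2.1)
    (fun d hd => kmono τ d hd.2.2.2.1 hd.2.2.1) r

end Pool.Agent.Rognes
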