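import Pool.Agent.Lib_MP_ca431a_cb.Merge
import Pool.Agent.Lib_MP_ca431a_cb.Prism

/-!
PIECE [CaseB1] (MP_ca431a_al).  Two lines of `τ` in the same block of `d0`.
-/

open Finsupp
open scoped Classical

namespace Pool.Agent.Rognes

variable {R : Type*} [CommRing R] [IsDomain R]
variable {V : Type*} [AddCommGroup V] [Module R V] [Module.IsTorsionFree R V]

/-- If `L1, L2` are two different blocks of `τ`, complements of `E`, inside `W`, then `W` meets `E`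
nontrivially.
Proof: otherwise `W = W ⊓ (L1 ⊔ E) = L1 ⊔ (W ⊓ E) = L1` (modular law), so `L2 ≤ L1`, contradicting
`L1 ⊓ L2 = ⊥`, `L2 ≠ ⊥`. -/
theorem meets_of_two {E : Submodule R V} {τ : PD R V} (hbad : ∀ L ∈ τ.bl, IsCompl L E)
    {L1 L2 W : Submodule R V} (hL1 : L1 ∈ τ.bl) (hL2 : L2 ∈ τ.bl) (hne : L1 ≠ L2)
    (h1 : L1 ≤ W) (h2 : L2 ≤ W) : W ⊓ E ≠ ⊥ := by
  intro h0
  have hc := hbad L1 hL1
  have hW : L1 = W := by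
    have h3 : (L1 ⊔ E) ⊓ W = L1 ⊔ (E ⊓ W) := sup_inf_assoc_of_le E h1
    rw [hc.sup_eq_top, top_inf_eq, inf_comm E W, h0, sup_bot_eq] at h3
    exact h3.symm
  subst hW
  exact hne (τ.block_unique hL1 hL2 (τ.ne_bot hL2) h2 le_rfl)

/-- If `d` (not necessarily good) satisfies the `PE` condition, `τ ≤ d ≤ d0`, and
`mrg L1 L2 d ≠ d0`, then `mrg L1 L2 d ∈ GG E τ d0`.

Proof.  Let `M = mblk L1 L2 d ⊇ L1 ⊔ L2` be the merged block (`L1 ≤ W1 ∈ d.bl`, `L2 ≤ W2 ∈ d.bl` as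
`τ ≤ d`).  `M ⊓ E ≠ ⊥` by `meets_of_two`, so `mrg d` is good, and a block of `mrg d` meeting `E`
trivially is a block of `d`.  `τ ≤ d ≤ mrg d` (`le_mrg`), `mrg d ≤ d0` (`mrg_le`).  Nonempty: contains
`M`.  If `⊤` is a block of `mrg d`, then `(mrg d).bl = {⊤}` (`PD.eq_singleton_top`), and `⊤` is a
block of `d0` because `mrg d ≤ d0`, so `d0.bl = {⊤}`, contradicting `mrg d ≠ d0`. -/
theorem mrg_mem_GG {E : Submodule R V} {τ d0 d : PD R V} (hbad : ∀ L ∈ τ.bl, IsCompl L E)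
    {B L1 L2 : Submodule R V} (hB : B ∈ d0.bl) (hL1 : L1 ∈ τ.bl) (hL2 : L2 ∈ τ.bl)
    (hne : L1 ≠ L2) (h1 : L1 ≤ B) (h2 : L2 ≤ B)
    (hPE : ∀ W ∈ d.bl, W ⊓ E = ⊥ → IsCompl W E) (hτd : τ ≤ d) (hd : d ≤ d0)
    (hm : mrg L1 L2 d ≠ d0) : mrg L1 L2 d ∈ GG E τ d0 := by
  obtain ⟨W1, hW1, hLW1⟩ := hτd L1 hL1
  obtain ⟨W2, hW2, hLW2⟩ := hτd L2 hL2
  have n1 : L1 ≠ ⊥ := τ.ne_bot hL1
  have n2 : L2 ≠ ⊥ := τ.ne_bot hL2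
  have hM : mblk L1 L2 d = W1 ⊔ W2 := mblk_eq n1 n2 hW1 hLW1 hW2 hLW2
  have hmem := fun W => mem_mrg (L2 := L2) hW1 hLW1 W
  have hMm : mblk L1 L2 d ∈ (mrg L1 L2 d).bl := (hmem _).2 (Or.inl rfl)
  have hME : mblk L1 L2 d ⊓ E ≠ ⊥ := by
    rw [hM]
    exact meets_of_two hbad hL1 hL2 hne (hLW1.trans le_sup_left) (hLW2.trans le_sup_right)
  have hle0 : mrg L1 L2 d ≤ d0 := mrg_le hd n1 n2 hB h1 h2
  refine mem_GG.2 ⟨mem_PE.2 ⟨mem_Pcirc.2 ⟨⟨_, hMm⟩, ?_⟩, ?_⟩, ⟨_, hMm, hME⟩,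
    hτd.trans (le_mrg d), hle0, hm⟩
  · intro ht
    obtain ⟨W', hW', hle'⟩ := hle0 ⊤ ht
    have hW'' : W' = ⊤ := top_le_iff.1 hle'
    subst hW''
    exact hm (PD.ext ((PD.eq_singleton_top _ ht).trans (PD.eq_singleton_top _ hW').symm))
  · intro W hW hWE
    rcases (hmem W).1 hW with rfl | ⟨hWd, -⟩
    · exact absurd hWE hME
    · exact hPE W hWd hWE

/-- The elements of `GG E τ d0` not merging to `d0` form an acyclic poset.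

Proof.  `acy_up` with `h = mrg L1 L2`, `c = mrg L1 L2 τ`: `mrg_mem_GG`, `mrg_mono`, `mrg_idem`
(so that `mrg (mrg d) = mrg d ≠ d0`), `le_mrg`; `c ≤ mrg d` by `mrg_mono` (`τ ≤ d`). -/
theorem caseB_contr (E : Submodule R V) (τ d0 : PD R V) (hbad : ∀ L ∈ τ.bl, IsCompl L E)
    (hle : τ ≤ d0) {B L1 L2 : Submodule R V} (hB : B ∈ d0.bl) (hL1 : L1 ∈ τ.bl)
    (hL2 : L2 ∈ τ.bl) (hne : L1 ≠ L2) (h1 : L1 ≤ B) (h2 : L2 ≤ B)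
    (hm : mrg L1 L2 τ ≠ d0) (r : ℕ) :
    Acy (OC {d | d ∈ GG E τ d0 ∧ mrg L1 L2 d ≠ d0}) r := by
  have n1 : L1 ≠ ⊥ := τ.ne_bot hL1
  have n2 : L2 ≠ ⊥ := τ.ne_bot hL2
  have hcm : mrg L1 L2 τ ∈ {d | d ∈ GG E τ d0 ∧ mrg L1 L2 d ≠ d0} := by
    refine ⟨mrg_mem_GG hbad hB hL1 hL2 hne h1 h2 (fun W hW _ => hbad W hW) le_rfl hle hm, ?_⟩
    rw [mrg_idem hL1 le_rfl hL2 le_rfl]
    exact hm
  refine acy_up (A := {d | d ∈ GG E τ d0 ∧ mrg L1 L2 d ≠ d0}) (mrg L1 L2) (mrg L1 L2 τ) hcm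
    ?_ ?_ ?_ ?_ r
  · rintro d ⟨hd, hdm⟩
    obtain ⟨hdPE, -, hτd, hdd0, -⟩ := mem_GG.1 hd
    obtain ⟨W1, hW1, hLW1⟩ := hτd L1 hL1
    obtain ⟨W2, hW2, hLW2⟩ := hτd L2 hL2
    refine ⟨mrg_mem_GG hbad hB hL1 hL2 hne h1 h2 (mem_PE.1 hdPE).2 hτd hdd0 hdm, ?_⟩
    rw [mrg_idem hW1 hLW1 hW2 hLW2]
    exact hdm
  · intro x _ y _ hxy
    exact mrg_mono hxy
  · intro x _
    exact le_mrg x
  · rintro d ⟨hd, -⟩
    exact mrg_mono (mem_GG.1 hd).2.2.1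

end Pool.Agent.Rognes
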