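import Pool.Agent.Lib_MP_ca431a_cb.CaseB1
import Pool.Agent.Lib_MP_ca431a_cb.Attach2

/-!
PIECE [CaseB2] (MP_ca431a_al).  Two lines of `τ` in the same block of `d0`: the elements merging to `d0`.
-/

open Finsupp
open scoped Classical

namespace Pool.Agent.Rognes

variable {R : Type*} [CommRing R] [IsDomain R]
variable {V : Type*} [AddCommGroup V] [Module R V] [Module.IsTorsionFree R V]

/-- Structure of the elements `d ∈ GG E τ d0` with `mrg d = d0`.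

Proof.  Let `L1 ≤ W1 ∈ d.bl`, `L2 ≤ W2 ∈ d.bl`.  If `W1 = W2` then `mrg d = d ≠ d0` (`mrg_eq_self`).
So `W1 ≠ W2`; `W1 ⊔ W2 = mblk L1 L2 d` (`mblk_eq`) is a block of `mrg d = d0` containing `L1`, hence
equal to `B`.  A block of `d` containing neither `L1` nor `L2` is a block of `mrg d = d0`
(`mem_mrg`), and it is different from `B`; conversely a block `≠ B` of `d0 = mrg d` is such a block
of `d`. -/
theorem bad_struct {E : Submodule R V} {τ d0 d : PD R V}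
    {B L1 L2 : Submodule R V} (hB : B ∈ d0.bl) (hL1 : L1 ∈ τ.bl)
    (hL2 : L2 ∈ τ.bl) (h1 : L1 ≤ B) (h2 : L2 ≤ B)
    (hd : d ∈ GG E τ d0) (hm : mrg L1 L2 d = d0) :
    ∃ W1 W2 : Submodule R V, W1 ≠ W2 ∧ L1 ≤ W1 ∧ L2 ≤ W2 ∧ W1 ⊔ W2 = B ∧
      ∀ W, W ∈ d.bl ↔ W = W1 ∨ W = W2 ∨ (W ∈ d0.bl ∧ W ≠ B) := by
  have hL1b : L1 ≠ ⊥ := τ.ne_bot hL1
  have hL2b : L2 ≠ ⊥ := τ.ne_bot hL2
  obtain ⟨W1, hW1, hLW1⟩ := hd.2.2.1 L1 hL1
  obtain ⟨W2, hW2, hLW2⟩ := hd.2.2.1 L2 hL2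
  have hBeq : mblk L1 L2 d = W1 ⊔ W2 := mblk_eq hL1b hL2b hW1 hLW1 hW2 hLW2
  have hmem : ∀ W, W ∈ d0.bl ↔ W = mblk L1 L2 d ∨ (W ∈ d.bl ∧ ¬ Has L1 L2 W) := by
    intro W
    rw [← hm]
    exact mem_mrg hW1 hLW1 W
  have hB' : W1 ⊔ W2 = B := by
    have h3 : W1 ⊔ W2 ∈ d0.bl := (hmem _).2 (Or.inl hBeq.symm)
    exact d0.block_unique h3 hB hL1b (hLW1.trans le_sup_left) h1
  refine ⟨W1, W2, ?_, hLW1, hLW2, hB', ?_⟩
  · intro h
    apply hd.2.2.2.2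
    rw [← hm]
    exact (mrg_eq_self hL1b hL2b hW1 hLW1 (h ▸ hLW2)).symm
  · intro W
    constructor
    · intro hW
      by_cases hH : Has L1 L2 W
      · rcases hH with hH | hH
        · exact Or.inl (d.block_unique hW hW1 hL1b hH hLW1)
        · exact Or.inr (Or.inl (d.block_unique hW hW2 hL2b hH hLW2))
      · refine Or.inr (Or.inr ⟨(hmem W).2 (Or.inr ⟨hW, hH⟩), ?_⟩)
        rintro rfl
        exact hH (Or.inl h1)
    · rintro (rfl | rfl | ⟨hW, hne⟩)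
      · exact hW1
      · exact hW2
      · rcases (hmem W).1 hW with h3 | h3
        · exact absurd (h3.trans (hBeq.trans hB')) hne
        · exact h3.1

/-- These elements form an antichain.

Proof.  Let `d ≤ d'` be two of them, with `W1, W2` and `W1', W2'` from `bad_struct`.  `W1` is inside a
block of `d'`, which contains `L1`, so it is `W1'` (`PD.block_unique`); `W1 ≤ W1'`, `W2 ≤ W2'`,
`W1 ⊔ W2 = B = W1' ⊔ W2'`, `W1' ⊓ W2' = ⊥`; modular law: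
`W1' = W1' ⊓ (W1 ⊔ W2) = W1 ⊔ (W1' ⊓ W2) = W1`, likewise `W2' = W2`.  The remaining blocks are the
blocks `≠ B` of `d0` in both cases. -/
theorem bad_antichain {E : Submodule R V} {τ d0 d d' : PD R V}
    {B L1 L2 : Submodule R V} (hB : B ∈ d0.bl) (hL1 : L1 ∈ τ.bl)
    (hL2 : L2 ∈ τ.bl) (h1 : L1 ≤ B) (h2 : L2 ≤ B)
    (hd : d ∈ GG E τ d0) (hm : mrg L1 L2 d = d0) (hd' : d' ∈ GG E τ d0)
    (hm' : mrg L1 L2 d' = d0) (hle : d ≤ d') : d = d' := by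
  have hL1b : L1 ≠ ⊥ := τ.ne_bot hL1
  have hL2b : L2 ≠ ⊥ := τ.ne_bot hL2
  obtain ⟨W1, W2, hne, hLW1, hLW2, hB1, hmem⟩ := bad_struct hB hL1 hL2 h1 h2 hd hm
  obtain ⟨W1', W2', hne', hLW1', hLW2', hB1', hmem'⟩ := bad_struct hB hL1 hL2 h1 h2 hd' hm'
  have hW1 : W1 ∈ d.bl := (hmem W1).2 (Or.inl rfl)
  have hW2 : W2 ∈ d.bl := (hmem W2).2 (Or.inr (Or.inl rfl))
  have hW1' : W1' ∈ d'.bl := (hmem' W1').2 (Or.inl rfl)
  have hW2' : W2' ∈ d'.bl := (hmem' W2').2 (Or.inr (Or.inl rfl))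
  have hle1 : W1 ≤ W1' := by
    obtain ⟨W, hW, h3⟩ := hle W1 hW1
    rw [← d'.block_unique hW hW1' hL1b (hLW1.trans h3) hLW1']
    exact h3
  have hle2 : W2 ≤ W2' := by
    obtain ⟨W, hW, h3⟩ := hle W2 hW2
    rw [← d'.block_unique hW hW2' hL2b (hLW2.trans h3) hLW2']
    exact h3
  have hdis : W1' ⊓ W2' = ⊥ := by
    by_contra h3
    exact hne' (d'.block_unique hW1' hW2' h3 inf_le_left inf_le_right)
  have e1 : W1' = W1 := by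
    have h3 : (W1 ⊔ W2) ⊓ W1' = W1 ⊔ W2 ⊓ W1' := sup_inf_assoc_of_le W2 hle1
    have h4 : W2 ⊓ W1' = ⊥ := by
      rw [← le_bot_iff, ← hdis]
      exact le_inf inf_le_right (inf_le_left.trans hle2)
    have h5 : (W1 ⊔ W2) ⊓ W1' = W1' := by
      rw [hB1, ← hB1']
      exact inf_eq_right.2 le_sup_left
    rw [h4, sup_bot_eq, h5] at h3
    exact h3
  have e2 : W2' = W2 := by
    have h3 : (W2 ⊔ W1) ⊓ W2' = W2 ⊔ W1 ⊓ W2' := sup_inf_assoc_of_le W1 hle2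
    have h4 : W1 ⊓ W2' = ⊥ := by
      rw [← le_bot_iff, ← hdis]
      exact le_inf (inf_le_left.trans hle1) inf_le_right
    have h5 : (W2 ⊔ W1) ⊓ W2' = W2' := by
      rw [sup_comm, hB1, ← hB1']
      exact inf_eq_right.2 le_sup_right
    rw [h4, sup_bot_eq, h5] at h3
    exact h3
  apply PD.ext
  ext W
  rw [hmem W, hmem' W, e1, e2]

/-- The link of such a `d` in the complement is `GG E τ d`.

Proof.  Let `x ∈ GG E τ d0`, `mrg x ≠ d0`.  If `d < x` then `d0 = mrg d ≤ mrg x ≤ d0` (`mrg_mono`,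
`mrg_le`), contradiction.  If `x < d`: then `x ∈ GG E τ d`.  Conversely, let `x ∈ GG E τ d`: `x ≤ d ≤ d0`,
`x ≠ d0` (else `d0 ≤ d`, so `d = d0`), and `mrg x ≠ d0` by `bad_antichain` (`x ≤ d`, `x ≠ d`). -/
theorem bad_link {E : Submodule R V} {τ d0 d : PD R V}
    {B L1 L2 : Submodule R V} (hB : B ∈ d0.bl) (hL1 : L1 ∈ τ.bl)
    (hL2 : L2 ∈ τ.bl) (h1 : L1 ≤ B) (h2 : L2 ≤ B)
    (hd : d ∈ GG E τ d0) (hm : mrg L1 L2 d = d0) :
    Lk {x | x ∈ GG E τ d0 ∧ mrg L1 L2 x ≠ d0} d = GG E τ d := by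
  have hL1b : L1 ≠ ⊥ := τ.ne_bot hL1
  have hL2b : L2 ≠ ⊥ := τ.ne_bot hL2
  ext x
  constructor
  · rintro ⟨⟨hx, hxm⟩, hlt | hlt⟩
    · exact ⟨hx.1, hx.2.1, hx.2.2.1, hlt.le, hlt.ne⟩
    · exfalso
      apply hxm
      apply le_antisymm (mrg_le hx.2.2.2.1 hL1b hL2b hB h1 h2)
      rw [← hm]
      exact mrg_mono hlt.le
  · intro hx
    have hxd0 : x ≤ d0 := hx.2.2.2.1.trans hd.2.2.2.1
    have hxne : x ≠ d0 := by
      rintro rfl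
      exact hd.2.2.2.2 (le_antisymm hd.2.2.2.1 hx.2.2.2.1)
    have hxG : x ∈ GG E τ d0 := ⟨hx.1, hx.2.1, hx.2.2.1, hxd0, hxne⟩
    refine ⟨⟨hxG, ?_⟩, Or.inl (lt_of_le_of_ne hx.2.2.2.1 hx.2.2.2.2)⟩
    intro hxm
    exact hx.2.2.2.2 (bad_antichain hB hL1 hL2 h1 h2 hxG hxm hd hm hx.2.2.2.1)

/-- **Case B of Lemma G.**

Proof.  `GG E τ d0` is the union of `{d | d ∈ GG E τ d0 ∧ mrg L1 L2 d ≠ d0}` (acyclic,
`caseB_contr`) and `{d | d ∈ GG E τ d0 ∧ mrg L1 L2 d = d0}` (antichain, `bad_antichain`), with links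
`GG E τ d` (`bad_link`).  Use `attach_antichain`. -/
theorem caseB (E : Submodule R V) (τ d0 : PD R V) (hbad : ∀ L ∈ τ.bl, IsCompl L E)
    (hle : τ ≤ d0) {B L1 L2 : Submodule R V} (hB : B ∈ d0.bl) (hL1 : L1 ∈ τ.bl)
    (hL2 : L2 ∈ τ.bl) (hne : L1 ≠ L2) (h1 : L1 ≤ B) (h2 : L2 ≤ B)
    (hm : mrg L1 L2 τ ≠ d0) {r : ℕ}
    (hlink : ∀ d, d ∈ GG E τ d0 → mrg L1 L2 d = d0 → Acy (OC (GG E τ d)) r) :
    Acy (OC (GG E τ d0)) (r + 1) := by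
  have hset : GG E τ d0 = {d | d ∈ GG E τ d0 ∧ mrg L1 L2 d ≠ d0} ∪
      {d | d ∈ GG E τ d0 ∧ mrg L1 L2 d = d0} := by
    ext d
    constructor
    · intro hd
      by_cases h : mrg L1 L2 d = d0
      · exact Or.inr ⟨hd, h⟩
      · exact Or.inl ⟨hd, h⟩
    · rintro (h | h)
      · exact h.1
      · exact h.1
  rw [hset]
  refine attach_antichain ?_ ?_
    (caseB_contr E τ d0 hbad hle hB hL1 hL2 hne h1 h2 hm (r + 1)) ?_
  · rintro y ⟨_, hy⟩ ⟨_, hy'⟩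
    exact hy' hy
  · rintro y ⟨hy, hym⟩ y' ⟨hy', hym'⟩ hyy
    exact bad_antichain hB hL1 hL2 h1 h2 hy hym hy' hym' hyy
  · rintro y ⟨hy, hym⟩
    rw [bad_link hB hL1 hL2 h1 h2 hy hym]
    exact hlink y hy hym

end Pool.Agent.Rognes
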