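import Mathlib

/-!
# Chains on lists (MP_ca431a_al), base file

`Ch α` is the free abelian group on finite lists of elements of `α`; the list `[x_0,…,x_p]` is the
ordered simplex `(x_0,…,x_p)` and the empty list `[]` is the generator in degree `-1`
(augmentation).  `bd` is the usual alternating sum boundary.
-/

open Finsupp

namespace Pool.Agent.Rognes

/-- Integral chains: the free abelian group on lists. -/
abbrev Ch (α : Type*) := List α →₀ ℤ

variable {α β γ : Type*}

/-- Put `a` in front of every list. -/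
noncomputable def consM (a : α) : Ch α →ₗ[ℤ] Ch α := Finsupp.lmapDomain ℤ ℤ (List.cons a)

@[simp] theorem consM_single (a : α) (l : List α) (c : ℤ) :
    consM a (single l c) = single (a :: l) c := by
  simp [consM]

/-- Boundary of a list: `∂ [] = 0`, `∂ (a :: l) = l - a :: ∂ l`. -/
noncomputable def bdL : List α → Ch α
  | [] => 0
  | a :: l => single l 1 - consM a (bdL l)

@[simp] theorem bdL_nil : bdL ([] : List α) = 0 := rfl

@[simp] theorem bdL_cons (a : α) (l : List α) :
    bdL (a :: l) = single l 1 - consM a (bdL l) := rfl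

/-- The boundary map. -/
noncomputable def bd : Ch α →ₗ[ℤ] Ch α := Finsupp.linearCombination ℤ bdL

@[simp] theorem bd_single (l : List α) (c : ℤ) : bd (single l c) = c • bdL l := by
  simp [bd]

/-- Linear maps on chains agree if they agree on lists. -/
theorem ch_ext {M : Type*} [AddCommGroup M] {f g : Ch α →ₗ[ℤ] M}
    (h : ∀ l, f (single l 1) = g (single l 1)) : f = g := by
  apply Finsupp.lhom_ext'
  intro l
  apply LinearMap.ext_ring
  simpa using h l

theorem bd_consM (a : α) (x : Ch α) : bd (consM a x) = x - consM a (bd x) := by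
  have h : (bd ∘ₗ consM a : Ch α →ₗ[ℤ] Ch α) = LinearMap.id - consM a ∘ₗ bd := by
    apply ch_ext
    intro l
    simp
  have := LinearMap.congr_fun h x
  simpa using this

theorem bd_bdL (l : List α) : bd (bdL l) = 0 := by
  induction l with
  | nil => simp
  | cons a l ih =>
    rw [bdL_cons, map_sub, bd_consM, ih, bd_single]
    simp

theorem bd_bd (x : Ch α) : bd (bd x) = 0 := by
  have h : (bd ∘ₗ bd : Ch α →ₗ[ℤ] Ch α) = 0 := by
    apply ch_ext
    intro l
    simp [bd_bdL]
  have := LinearMap.congr_fun h x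
  simpa using this

/-- Chains of list length `r` (degree `r - 1`) supported on the set `K` of lists. -/
noncomputable def CK (K : Set (List α)) (r : ℕ) : Submodule ℤ (Ch α) :=
  Finsupp.supported ℤ ℤ {l | l ∈ K ∧ l.length = r}

theorem mem_CK {K : Set (List α)} {r : ℕ} {x : Ch α} :
    x ∈ CK K r ↔ ∀ l, x l ≠ 0 → l ∈ K ∧ l.length = r := by
  constructor
  · intro h l hl
    exact (Finsupp.mem_supported ℤ x).1 h (Finsupp.mem_support_iff.2 hl)
  · intro h
    refine (Finsupp.mem_supported ℤ x).2 ?_
    intro l hl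
    exact h l (Finsupp.mem_support_iff.1 hl)

theorem single_mem_CK {K : Set (List α)} {r : ℕ} {l : List α} (c : ℤ) (hl : l ∈ K)
    (hr : l.length = r) : single l c ∈ CK K r :=
  Finsupp.single_mem_supported ℤ c ⟨hl, hr⟩

theorem CK_mono {K K' : Set (List α)} (h : K ⊆ K') (r : ℕ) : CK K r ≤ CK K' r :=
  Finsupp.supported_mono (fun _ hl => ⟨h hl.1, hl.2⟩)

/-- Induction: a property of chains closed under `0`, `+` and integer multiples of lists. -/
theorem CK_induction {K : Set (List α)} {r : ℕ} {P : Ch α → Prop} (h0 : P 0)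
    (hs : ∀ l ∈ K, l.length = r → ∀ c : ℤ, P (single l c))
    (ha : ∀ x y, x ∈ CK K r → y ∈ CK K r → P x → P y → P (x + y)) {x : Ch α}
    (hx : x ∈ CK K r) : P x := by
  classical
  have key : ∀ (s : Finset (List α)) (f : List α → ℤ), (∀ l ∈ s, l ∈ K ∧ l.length = r) →
      P (∑ l ∈ s, single l (f l)) ∧ (∑ l ∈ s, single l (f l)) ∈ CK K r := by
    intro s f
    induction s using Finset.induction_on with
    | empty => intro _; exact ⟨by simpa using h0, by simp⟩
    | insert a s has ih =>
      intro hs'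
      have h1 := ih (fun l hl => hs' l (Finset.mem_insert_of_mem hl))
      have h2 := hs' a (Finset.mem_insert_self _ _)
      rw [Finset.sum_insert has]
      have h3 : single a (f a) ∈ CK K r := single_mem_CK _ h2.1 h2.2
      exact ⟨ha _ _ h3 h1.2 (hs a h2.1 h2.2 _) h1.1, Submodule.add_mem _ h3 h1.2⟩
  have := (key x.support x (fun l hl => (mem_CK.1 hx) l (Finsupp.mem_support_iff.1 hl))).1
  have e : (∑ l ∈ x.support, single l (x l)) = x := by
    have := Finsupp.sum_single x
    simpa [Finsupp.sum] using this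
  rwa [e] at this

/-- A linear map sends `CK K r` into a submodule once it does so on lists. -/
theorem map_mem_of_lists {M : Type*} [AddCommGroup M] {K : Set (List α)} {r : ℕ}
    {f : Ch α →ₗ[ℤ] M} {S : Submodule ℤ M}
    (h : ∀ l ∈ K, l.length = r → f (single l 1) ∈ S) {x : Ch α} (hx : x ∈ CK K r) : f x ∈ S := by
  refine CK_induction (P := fun x => f x ∈ S) ?_ ?_ ?_ hx
  · simp
  · intro l hl hr c
    have : single l c = c • (single l (1 : ℤ) : Ch α) := by simp
    rw [this, map_smul]
    exact S.smul_mem _ (h l hl hr)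
  · intro x y _ _ h1 h2
    rw [map_add]
    exact S.add_mem h1 h2

/-- Two linear maps which agree on the lists of `K` of length `r` agree on `CK K r`. -/
theorem map_eq_of_lists {M : Type*} [AddCommGroup M] {K : Set (List α)} {r : ℕ}
    {f g : Ch α →ₗ[ℤ] M}
    (h : ∀ l ∈ K, l.length = r → f (single l 1) = g (single l 1)) {x : Ch α} (hx : x ∈ CK K r) :
    f x = g x := by
  have : (f - g) x ∈ (⊥ : Submodule ℤ M) := by
    refine map_mem_of_lists (K := K) (r := r) ?_ hx
    intro l hl hr
    simp [h l hl hr]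
  have h2 : f x - g x = 0 := by simpa using this
  exact sub_eq_zero.1 h2

theorem consM_mem {K K' : Set (List α)} {r : ℕ} {a : α} (h : ∀ l ∈ K, a :: l ∈ K') {x : Ch α}
    (hx : x ∈ CK K r) : consM a x ∈ CK K' (r + 1) := by
  refine map_mem_of_lists (f := consM a) ?_ hx
  intro l hl hr
  rw [consM_single]
  exact single_mem_CK _ (h l hl) (by simp [hr])

/-- A set of lists is closed under passing to sublists. -/
def SubClosed (K : Set (List α)) : Prop := ∀ l ∈ K, ∀ l', l'.Sublist l → l' ∈ K

theorem bdL_mem_aux (l : List α) :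
    ∀ l', (bdL l) l' ≠ 0 → l'.Sublist l ∧ l'.length + 1 = l.length := by
  classical
  induction l with
  | nil => intro l' h; simp at h
  | cons a l ih =>
    intro l' h
    rw [bdL_cons] at h
    by_cases h1 : l' = l
    · subst h1
      exact ⟨List.sublist_cons_self _ _, by simp⟩
    · have h2 : (consM a (bdL l)) l' ≠ 0 := by
        intro h3
        apply h
        rw [Finsupp.sub_apply, h3, Finsupp.single_eq_of_ne (by simpa using h1)]
        simp
      have h4 : consM a (bdL l) ∈ Finsupp.supported ℤ ℤ (List.cons a '' {m | (bdL l) m ≠ 0}) := by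
        rw [consM]
        rw [Finsupp.mem_supported]
        intro m hm
        have := Finsupp.mapDomain_support hm
        rw [Finset.mem_image] at this
        obtain ⟨k, hk, rfl⟩ := this
        exact ⟨k, Finsupp.mem_support_iff.1 hk, rfl⟩
      have h5 := (Finsupp.mem_supported ℤ _).1 h4 (Finsupp.mem_support_iff.2 h2)
      obtain ⟨m, hm, rfl⟩ := h5
      have := ih m hm
      exact ⟨this.1.cons_cons a, by simp [this.2]⟩

theorem bdL_mem {K : Set (List α)} (hK : SubClosed K) {l : List α} (hl : l ∈ K) {r : ℕ}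
    (hr : l.length = r + 1) : bdL l ∈ CK K r := by
  rw [mem_CK]
  intro l' h
  have := bdL_mem_aux l l' h
  exact ⟨hK l hl l' this.1, by omega⟩

theorem bd_mem {K : Set (List α)} (hK : SubClosed K) {r : ℕ} {x : Ch α}
    (hx : x ∈ CK K (r + 1)) : bd x ∈ CK K r := by
  refine map_mem_of_lists (f := bd) ?_ hx
  intro l hl hr
  simpa using bdL_mem hK hl hr

/-- The complex of lists `K` has vanishing (augmented, hence reduced) homology at list length `r`,
i.e. in degree `r - 1`. -/
def Acy (K : Set (List α)) (r : ℕ) : Prop :=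
  ∀ z ∈ CK K r, bd z = 0 → ∃ w ∈ CK K (r + 1), bd w = z

/-- Strictly increasing lists in `A`: the simplices of the order complex of `A`. -/
def OC [Preorder α] (A : Set α) : Set (List α) :=
  {l | (∀ x ∈ l, x ∈ A) ∧ l.Pairwise (· < ·)}

/-- Weakly increasing lists in `A`. -/
def WC [Preorder α] (A : Set α) : Set (List α) :=
  {l | (∀ x ∈ l, x ∈ A) ∧ l.Pairwise (· ≤ ·)}

/-- All lists with entries in `A` (the full simplex on `A`). -/
def FC (A : Set α) : Set (List α) := {l | ∀ x ∈ l, x ∈ A}

theorem mem_OC [Preorder α] {A : Set α} {l : List α} :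
    l ∈ OC A ↔ (∀ x ∈ l, x ∈ A) ∧ l.Pairwise (· < ·) := Iff.rfl

theorem mem_WC [Preorder α] {A : Set α} {l : List α} :
    l ∈ WC A ↔ (∀ x ∈ l, x ∈ A) ∧ l.Pairwise (· ≤ ·) := Iff.rfl

theorem mem_FC {A : Set α} {l : List α} : l ∈ FC A ↔ ∀ x ∈ l, x ∈ A := Iff.rfl

theorem subClosed_OC [Preorder α] (A : Set α) : SubClosed (OC A) := by
  intro l hl l' h
  exact ⟨fun x hx => hl.1 x (h.subset hx), hl.2.sublist h⟩

theorem subClosed_WC [Preorder α] (A : Set α) : SubClosed (WC A) := by
  intro l hl l' h
  exact ⟨fun x hx => hl.1 x (h.subset hx), hl.2.sublist h⟩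

theorem subClosed_FC (A : Set α) : SubClosed (FC A) := by
  intro l hl l' h x hx
  exact hl x (h.subset hx)

theorem OC_mono [Preorder α] {A B : Set α} (h : A ⊆ B) : OC A ⊆ OC B :=
  fun _ hl => ⟨fun x hx => h (hl.1 x hx), hl.2⟩

theorem OC_subset_WC [Preorder α] (A : Set α) : OC A ⊆ WC A :=
  fun _ hl => ⟨hl.1, hl.2.imp (fun h => le_of_lt h)⟩

/-- Every chain of the order complex of `A` lives on a finite subset of `A`. -/
theorem exists_finset_support [Preorder α] {A : Set α} {r : ℕ} {z : Ch α} (hz : z ∈ CK (OC A) r) :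
    ∃ F : Finset α, (F : Set α) ⊆ A ∧ z ∈ CK (OC (F : Set α)) r := by
  classical
  refine ⟨z.support.biUnion (fun l => l.toFinset), ?_, ?_⟩
  · intro x hx
    simp only [Finset.coe_biUnion, Set.mem_iUnion, Finset.mem_coe, List.mem_toFinset] at hx
    obtain ⟨l, hl, hx⟩ := hx
    exact ((mem_CK.1 hz) l (Finsupp.mem_support_iff.1 hl)).1.1 x hx
  · rw [mem_CK]
    intro l hl
    have h := (mem_CK.1 hz) l hl
    refine ⟨⟨?_, h.1.2⟩, h.2⟩
    intro x hx
    simp only [Finset.coe_biUnion, Set.mem_iUnion, Finset.mem_coe, List.mem_toFinset]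
    exact ⟨l, Finsupp.mem_support_iff.2 hl, hx⟩

/-- Vanishing only depends on finite pieces. -/
theorem acy_of_finite [Preorder α] {A : Set α} {r : ℕ}
    (h : ∀ F : Finset α, (F : Set α) ⊆ A → ∃ B : Set α, (F : Set α) ⊆ B ∧ B ⊆ A ∧ Acy (OC B) r) :
    Acy (OC A) r := by
  intro z hz hbz
  obtain ⟨F, hF, hzF⟩ := exists_finset_support hz
  obtain ⟨B, hFB, hBA, hB⟩ := h F hF
  obtain ⟨w, hw, hwz⟩ := hB z (CK_mono (OC_mono hFB) r hzF) hbz
  exact ⟨w, CK_mono (OC_mono hBA) _ hw, hwz⟩

/-- A nonempty set is acyclic at list length `0`. -/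
theorem acy_zero [Preorder α] {A : Set α} {a : α} (ha : a ∈ A) : Acy (OC A) 0 := by
  intro z hz _
  refine ⟨consM a z, consM_mem (K := {l | l = []}) ?_ ?_, ?_⟩
  · rintro l rfl
    refine ⟨by simpa using ha, by simp⟩
  · rw [mem_CK]
    intro l hl
    have := ((mem_CK.1 hz) l hl).2
    exact ⟨List.length_eq_zero_iff.1 this, this⟩
  · rw [bd_consM]
    have : bd z = 0 := by
      have : z ∈ CK (OC A) 0 := hz
      have h2 : bd z ∈ (⊥ : Submodule ℤ (Ch α)) := by
        refine map_mem_of_lists (f := bd) ?_ hz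
        intro l _ hr
        rw [List.length_eq_zero_iff] at hr
        subst hr
        simp
      simpa using h2
    rw [this]; simp

/-- The full simplex on a nonempty set is acyclic. -/
theorem acy_FC {A : Set α} {a : α} (ha : a ∈ A) (r : ℕ) : Acy (FC A) r := by
  intro z hz hbz
  refine ⟨consM a z, consM_mem (K := FC A) ?_ hz, ?_⟩
  · intro l hl x hx
    rcases List.mem_cons.1 hx with rfl | hx
    · exact ha
    · exact hl x hx
  · rw [bd_consM, hbz]; simp

end Pool.Agent.Rognes
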