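import Pool.Agent.Lib_MP_ca431a_cb.Adapted

/-!
PIECE [FullBasis] (MP_ca431a_al).  A full decomposition has an adapted basis.
-/

open Finsupp
open scoped Classical

namespace Pool.Agent.Rognes

variable {R : Type*} [CommRing R] [IsDomain R] [IsPrincipalIdealRing R]
variable {V : Type*} [AddCommGroup V] [Module R V] [Module.Free R V] [Module.Finite R V]

/-- A full decomposition has an adapted basis, and all partial sums are adapted to it.

Proof.  The blocks `W ∈ d.bl` form an internal direct sum
(`DirectSum.isInternal_submodule_of_iSupIndep_of_iSup_eq_top` or the like, index type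
`{W // W ∈ d.bl}`), each is free of finite rank (`Submodule.basisOfPid` or instances), use
`DirectSum.IsInternal.collectedBasis`, and reindex by `Fin (Module.finrank R V)`
(the index type is finite of cardinality `finrank`).  `W` is the span of the basis vectors coming
from `W`; conclude with `adapted_finset_sup`. -/
theorem exists_basis_of_full (d : PD R V) (hd : d.bl.sup id = ⊤) :
    ∃ B : Module.Basis (Fin (Module.finrank R V)) R V, ∀ W ∈ d.bl, Adapted B W := by
  have hind : iSupIndep (fun i : {W // W ∈ d.bl} => (i.1 : Submodule R V)) :=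
    iSupIndep_iff_supIndep_univ.2 (by
      rw [Finset.univ_eq_attach]
      exact d.pd.ind.attach)
  have hsup : (⨆ i : {W // W ∈ d.bl}, (i.1 : Submodule R V)) = ⊤ := by
    rw [← hd, Finset.sup_eq_iSup, iSup_subtype]
    rfl
  have hint : DirectSum.IsInternal (fun i : {W // W ∈ d.bl} => (i.1 : Submodule R V)) :=
    DirectSum.isInternal_submodule_of_iSupIndep_of_iSup_eq_top hind hsup
  have hb : ∀ i : {W // W ∈ d.bl}, ∃ n : ℕ, Nonempty (Module.Basis (Fin n) R i.1) := by
    intro i
    obtain ⟨n, b⟩ := Submodule.basisOfPid (Module.finBasis R V) i.1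
    exact ⟨n, ⟨b⟩⟩
  choose n hn using hb
  let b : ∀ i : {W // W ∈ d.bl}, Module.Basis (Fin (n i)) R i.1 := fun i => (hn i).some
  let C : Module.Basis (Σ i : {W // W ∈ d.bl}, Fin (n i)) R V := hint.collectedBasis b
  have hcard : Fintype.card (Σ i : {W // W ∈ d.bl}, Fin (n i)) = Module.finrank R V :=
    (Module.finrank_eq_card_basis C).symm
  let e : (Σ i : {W // W ∈ d.bl}, Fin (n i)) ≃ Fin (Module.finrank R V) :=
    Fintype.equivFinOfCardEq hcard
  have hC : ∀ a : Σ i : {W // W ∈ d.bl}, Fin (n i), C a = (b a.1 a.2 : V) := fun a =>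
    congrFun (hint.collectedBasis_coe b) a
  have hB : ∀ j, C.reindex e j = (b (e.symm j).1 (e.symm j).2 : V) := fun j => by
    rw [Module.Basis.reindex_apply, hC]
  refine ⟨C.reindex e, fun W hW => ⟨{j | (e.symm j).1 = ⟨W, hW⟩}, le_antisymm ?_ ?_⟩⟩
  · have h1 : W = Submodule.map W.subtype (Submodule.span R (Set.range (b ⟨W, hW⟩))) := by
      rw [(b ⟨W, hW⟩).span_eq, Submodule.map_subtype_top]
    intro x hx
    rw [h1, Submodule.map_span] at hx
    refine Submodule.span_mono ?_ hx
    rintro _ ⟨_, ⟨a, rfl⟩, rfl⟩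
    refine ⟨e ⟨⟨W, hW⟩, a⟩, ?_, ?_⟩
    · show (e.symm (e ⟨⟨W, hW⟩, a⟩)).1 = ⟨W, hW⟩
      rw [Equiv.symm_apply_apply]
    · rw [hB, Equiv.symm_apply_apply]
      rfl
  · rw [Submodule.span_le]
    rintro _ ⟨j, hj, rfl⟩
    have hj' : (e.symm j).1 = ⟨W, hW⟩ := hj
    have h2 : ((b (e.symm j).1 (e.symm j).2 : (e.symm j).1.1) : V) ∈ (e.symm j).1.1 := Subtype.mem _
    rw [hB]
    have h3 : (e.symm j).1.1 = W := congrArg Subtype.val hj'
    exact h3 ▸ h2

end Pool.Agent.Rognes
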