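import Pool.Agent.Lib_MP_ca431a_cb.SatCompl
import Pool.Agent.Lib_MP_ca431a_cb.FullBasis

/-!
PIECE [ChainBasis] (MP_ca431a_al).  A chain of partial decompositions has an adapted basis.
-/

open Finsupp
open scoped Classical

namespace Pool.Agent.Rognes

variable {R : Type*} [CommRing R] [IsDomain R] [IsPrincipalIdealRing R]
variable {V : Type*} [AddCommGroup V] [Module R V] [Module.Free R V] [Module.Finite R V]

/-- Step 1 of `exists_adapted_basis`: a common partial decomposition refining a chain. -/
theorem exists_common_refinement (l : List (PD R V)) :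
    ∀ d : PD R V, (l ++ [d]).Pairwise (· ≤ ·) →
      ∃ e : PD R V, e ≤ d ∧
        ∀ d' ∈ l ++ [d], ∀ W ∈ d'.bl, ∃ t : Finset (Submodule R V), t ⊆ e.bl ∧ W = t.sup id := by
  induction l using List.reverseRecOn with
  | nil =>
    intro d _
    refine ⟨d, le_rfl, ?_⟩
    intro d' hd' W hW
    have hd2 : d' = d := by simpa using hd'
    subst hd2
    exact ⟨{W}, Finset.singleton_subset_iff.2 hW, by simp⟩
  | append_singleton l d1 ih =>
    intro d hl
    have hl1 : (l ++ [d1]).Pairwise (· ≤ ·) := (List.pairwise_append.1 hl).1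
    have hd1 : d1 ≤ d :=
      (List.pairwise_append.1 hl).2.2 d1 (by simp) d (by simp)
    obtain ⟨e, he, hsup⟩ := ih d1 hl1
    obtain ⟨e', hsub, he', hfill⟩ := exists_fill (he.trans hd1)
    refine ⟨e', he', ?_⟩
    intro d' hd' W hW
    rcases List.mem_append.1 hd' with hd' | hd'
    · obtain ⟨t, ht, hWt⟩ := hsup d' hd' W hW
      exact ⟨t, ht.trans hsub, hWt⟩
    · have hd2 : d' = d := by simpa using hd'
      subst hd2
      exact ⟨_, Finset.filter_subset _ _, hfill W hW⟩

/-- Step 2: a partial decomposition extends to a full one. -/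
theorem exists_full_extension (e : PD R V) :
    ∃ f : PD R V, e.bl ⊆ f.bl ∧ f.bl.sup id = ⊤ := by
  obtain ⟨C, hC⟩ := sat_exists_isCompl e.pd.sat
  by_cases h0 : C = ⊥
  · refine ⟨e, Finset.Subset.refl _, ?_⟩
    have := hC.sup_eq_top
    rwa [h0, sup_bot_eq] at this
  · have hsup : (insert C e.bl).sup id = ⊤ := by
      rw [Finset.sup_insert, sup_comm]
      exact hC.sup_eq_top
    refine ⟨⟨insert C e.bl, ?_, ?_, ?_⟩, Finset.subset_insert _ _, hsup⟩
    · intro hb
      rcases Finset.mem_insert.1 hb with hb | hb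
      · exact h0 hb.symm
      · exact e.pd.ne hb
    · exact e.pd.ind.insert hC.disjoint.symm
    · rw [hsup]
      exact sat_top

/-- **A chain of partial decompositions has a common adapted basis.**

Proof.  Claim: for a chain `l = d_1 ≤ … ≤ d_k` (`k ≥ 1`) there is `e : PD R V` with `e ≤ d_k` such
that every block of every `d_i` is a sup of a subset of `e.bl`.  Induction along the list (use
`List.reverseRecOn` or prove it for `l ++ [d]`): `k = 1`: `e = d_1`.  Step: given `e` for
`d_1 ≤ … ≤ d_k` and `d_k ≤ d_{k+1}`: `e ≤ d_{k+1}`; `exists_fill` gives `e' ⊇ e` with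
`e' ≤ d_{k+1}` and every block of `d_{k+1}` a sup of blocks of `e'`.
Finally let `C` be a complement of `e.bl.sup id` (`sat_exists_isCompl`) and add it to `e.bl` if it
is nonzero: a full decomposition `f ⊇ e` (`IsPD` : `Finset.SupIndep.insert`, `sat_top`), and use
`exists_basis_of_full`, `adapted_finset_sup`.  The empty list: any basis
(`Module.finBasis R V`; or apply the construction to the empty partial decomposition). -/
theorem exists_adapted_basis (l : List (PD R V)) (hl : l.Pairwise (· ≤ ·)) :
    ∃ B : Module.Basis (Fin (Module.finrank R V)) R V, ∀ d ∈ l, ∀ W ∈ d.bl, Adapted B W := by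
  rcases List.eq_nil_or_concat' l with rfl | ⟨l', d, rfl⟩
  · exact ⟨Module.finBasis R V, by simp⟩
  · obtain ⟨e, -, he⟩ := exists_common_refinement l' d hl
    obtain ⟨f, hef, hf⟩ := exists_full_extension e
    obtain ⟨B, hB⟩ := exists_basis_of_full f hf
    refine ⟨B, ?_⟩
    intro d' hd' W hW
    obtain ⟨t, ht, rfl⟩ := he d' hd' W hW
    exact adapted_finset_sup (fun W' hW' => hB W' (hef (ht hW')))

end Pool.Agent.Rognes
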