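import Pool.Agent.Lib_MP_ca431a_cb.Prism
import Pool.Agent.Lib_MP_ca431a_cb.ChainBasis

/-!
PIECE [Cmp1] (MP_ca431a_al).  Comparison of the common basis complex with the poset of proper
partial decompositions, by acyclic carriers.
-/

open Finsupp
open scoped Classical

namespace Pool.Agent.Rognes

variable (R : Type*) [CommRing R] [IsDomain R] [IsPrincipalIdealRing R]
variable (V : Type*) [AddCommGroup V] [Module R V] [Module.Free R V] [Module.Finite R V]

/-- Tuples of proper nonzero submodules with a common basis. -/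
def CBK : Set (List (Submodule R V)) :=
  {l | (∀ W ∈ l, W ≠ ⊥ ∧ W ≠ ⊤) ∧
    ∃ B : Module.Basis (Fin (Module.finrank R V)) R V, ∀ W ∈ l, Adapted B W}

variable {R V}

theorem subClosed_CBK : SubClosed (CBK R V) := by
  rintro l ⟨h1, B, hB⟩ l' hl'
  exact ⟨fun W hW => h1 W (hl'.subset hW), B, fun W hW => hB W (hl'.subset hW)⟩

/-- The submodules adapted to every basis to which all members of `l` are adapted. -/
def LL (l : List (Submodule R V)) : Set (Submodule R V) :=
  {W | ∀ B : Module.Basis (Fin (Module.finrank R V)) R V, (∀ W' ∈ l, Adapted B W') → Adapted B W}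

/-- Proper partial decompositions with all blocks in `LL l`. -/
def PL (l : List (Submodule R V)) : Set (PD R V) :=
  {d | d ∈ Pcirc R V ∧ ∀ W ∈ d.bl, W ∈ LL l}

theorem mem_LL_of_mem {l : List (Submodule R V)} {W : Submodule R V} (h : W ∈ l) : W ∈ LL l :=
  fun _ hB => hB W h

theorem LL_inf {l : List (Submodule R V)} {W W' : Submodule R V} (h : W ∈ LL l) (h' : W' ∈ LL l) :
    W ⊓ W' ∈ LL l := fun B hB => (h B hB).inf (h' B hB)

theorem LL_mono {l l' : List (Submodule R V)} (h : l'.Sublist l) : LL l' ⊆ LL l :=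
  fun _ hW B hB => hW B (fun W' hW' => hB W' (h.subset hW'))

/-- **`PL l` is acyclic for a nonempty simplex `l`.**

Proof.  Let `B0` be a basis adapted to `l`.  The set `{U ∈ LL l | U ≠ ⊥}` is finite
(`finite_adapted B0`) and contains a proper submodule (a member of `l`), so it has a minimal
element `a`, and one can take `a ≤ W0` for a member `W0 ≠ ⊤` of `l`; so `a ≠ ⊤`.
For `W ∈ LL l`: `a ⊓ W ∈ LL l` (`LL_inf`), so `a ⊓ W = ⊥` or `a ⊓ W = a`, i.e. `a ≤ W`.
For `d ∈ PL l` put `h d = d` if `a ≤ W` for some `W ∈ d.bl`, and `h d = insert a d.bl` otherwise;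
in the second case all blocks of `d` are disjoint from `a`, and `insert a d.bl` is a partial
decomposition by `isPD_of_adapted B0` (the blocks of `d` are pairwise disjoint).
`h d ∈ PL l`: `a ≠ ⊤`, `a ∈ LL l`.  `h` is monotone: let `d ≤ d'`.  If `a ≤ W` for some `W ∈ d.bl`
then also `a ≤ W'` for some `W' ∈ d'.bl`, and `h d = d ≤ d' = h d'`.  If not, but `a ≤ W'` for some
`W' ∈ d'.bl`: `insert a d ≤ d'`.  If neither: `insert a d ≤ insert a d'`.
`d ≤ h d` and `{a} ≤ h d`; `{a} ∈ PL l` (`isPD_singleton`, `Adapted.sat`).  Conclude by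
`acy_up` (extend `h` to all of `PD R V` by `if ∃ W ∈ d.bl, a ≤ W then d else if hpd : IsPD (insert a d.bl)
then ⟨insert a d.bl, hpd⟩ else d`). -/
theorem acy_PL {l : List (Submodule R V)} (hl : l ∈ CBK R V) (hne : l ≠ []) (r : ℕ) :
    Acy (OC (PL l)) r := by
  obtain ⟨hprop, B0, hB0⟩ := hl
  obtain ⟨W0, hW0⟩ := List.exists_mem_of_ne_nil l hne
  have hLLad : ∀ W ∈ LL l, Adapted B0 W := fun W hW => hW B0 hB0
  -- a minimal member of `LL l` below `W0`
  have hfin : {U : Submodule R V | U ∈ LL l ∧ U ≠ ⊥ ∧ U ≤ W0}.Finite :=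
    (finite_adapted B0).subset (fun U hU => hLLad U hU.1)
  obtain ⟨a, ha⟩ := hfin.exists_minimal ⟨W0, mem_LL_of_mem hW0, (hprop W0 hW0).1, le_rfl⟩
  obtain ⟨ha1, ha2, ha3⟩ := ha.prop
  have hatop : a ≠ ⊤ := by
    intro h
    rw [h] at ha3
    exact (hprop W0 hW0).2 (top_le_iff.1 ha3)
  have key : ∀ W ∈ LL l, a ⊓ W = ⊥ ∨ a ≤ W := by
    intro W hW
    by_cases h : a ⊓ W = ⊥
    · exact Or.inl h
    · refine Or.inr ?_
      have hmem : a ⊓ W ∈ {U : Submodule R V | U ∈ LL l ∧ U ≠ ⊥ ∧ U ≤ W0} :=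
        ⟨LL_inf ha1 hW, h, inf_le_left.trans ha3⟩
      exact (ha.le_of_le hmem inf_le_left).trans inf_le_right
  have hpd : ∀ d ∈ PL l, (¬ ∃ W ∈ d.bl, a ≤ W) → IsPD (insert a d.bl) := by
    intro d hd hno
    have haW : ∀ W ∈ d.bl, a ⊓ W = ⊥ := by
      intro W hW
      rcases key W (hd.2 W hW) with h | h
      · exact h
      · exact absurd ⟨W, hW, h⟩ hno
    refine isPD_of_adapted B0 _ ?_ ?_ ?_
    · intro h
      rcases Finset.mem_insert.1 h with h | h
      · exact ha2 h.symm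
      · exact d.pd.ne h
    · intro W hW
      rcases Finset.mem_insert.1 hW with h | h
      · rw [h]; exact hLLad a ha1
      · exact hLLad W (hd.2 W h)
    · intro W hW W' hW' hWW'
      rcases Finset.mem_insert.1 hW with h | h
      · rcases Finset.mem_insert.1 hW' with h' | h'
        · exact absurd (h.trans h'.symm) hWW'
        · rw [h]; exact haW W' h'
      · rcases Finset.mem_insert.1 hW' with h' | h'
        · rw [h', inf_comm]; exact haW W h
        · exact disjoint_iff.1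
            (d.pd.ind.pairwiseDisjoint (Finset.mem_coe.2 h) (Finset.mem_coe.2 h') hWW')
  -- the map `h`
  let h : PD R V → PD R V := fun d =>
    if ∃ W ∈ d.bl, a ≤ W then d
    else if hp : IsPD (insert a d.bl) then ⟨insert a d.bl, hp⟩ else d
  have hcase : ∀ d ∈ PL l, ((∃ W ∈ d.bl, a ≤ W) ∧ h d = d) ∨ (h d).bl = insert a d.bl := by
    intro d hd
    by_cases hex : ∃ W ∈ d.bl, a ≤ W
    · exact Or.inl ⟨hex, if_pos hex⟩
    · refine Or.inr ?_
      have e1 : h d = ⟨insert a d.bl, hpd d hd hex⟩ := by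
        show (if ∃ W ∈ d.bl, a ≤ W then d
          else if hp : IsPD (insert a d.bl) then ⟨insert a d.bl, hp⟩ else d) = _
        rw [if_neg hex, dif_pos (hpd d hd hex)]
      rw [e1]
  have hsub : ∀ d ∈ PL l, d.bl ⊆ (h d).bl := by
    intro d hd
    rcases hcase d hd with ⟨-, h1⟩ | h1
    · rw [h1]
    · rw [h1]; exact Finset.subset_insert _ _
  have hsup : ∀ d ∈ PL l, (h d).bl ⊆ insert a d.bl := by
    intro d hd
    rcases hcase d hd with ⟨-, h1⟩ | h1
    · rw [h1]; exact Finset.subset_insert _ _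
    · rw [h1]
  have hex : ∀ d ∈ PL l, ∃ W ∈ (h d).bl, a ≤ W := by
    intro d hd
    rcases hcase d hd with ⟨h0, h1⟩ | h1
    · rw [h1]; exact h0
    · rw [h1]; exact ⟨a, Finset.mem_insert_self _ _, le_rfl⟩
  let c : PD R V := ⟨{a}, isPD_singleton ha2 (hLLad a ha1).sat⟩
  have hc : c ∈ PL l := by
    refine ⟨⟨⟨a, Finset.mem_singleton_self a⟩, ?_⟩, ?_⟩
    · intro ht
      exact hatop (Finset.mem_singleton.1 ht).symm
    · intro W hW
      rw [Finset.mem_singleton.1 hW]
      exact ha1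
  refine acy_up h c hc ?_ ?_ ?_ ?_ r
  · intro d hd
    obtain ⟨W, hW⟩ := hd.1.1
    refine ⟨⟨⟨W, hsub d hd hW⟩, ?_⟩, ?_⟩
    · intro ht
      rcases Finset.mem_insert.1 (hsup d hd ht) with h1 | h1
      · exact hatop h1.symm
      · exact hd.1.2 h1
    · intro W hW
      rcases Finset.mem_insert.1 (hsup d hd hW) with h1 | h1
      · rw [h1]; exact ha1
      · exact hd.2 W h1
  · intro x hx y hy hxy W hW
    rcases Finset.mem_insert.1 (hsup x hx hW) with h1 | h1
    · rw [h1]; exact hex y hy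
    · obtain ⟨W', hW', h2⟩ := hxy W h1
      exact ⟨W', hsub y hy hW', h2⟩
  · intro x hx W hW
    exact ⟨W, hsub x hx hW, le_rfl⟩
  · intro x hx W hW
    rw [Finset.mem_singleton.1 hW]
    exact hex x hx

end Pool.Agent.Rognes
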