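import Pool.Agent.Lib_MP_ca431a_cb.Carrier

/-!
PIECE [Transfer] (MP_ca431a_al).  Transfer of vanishing along acyclic carriers.
-/

open Finsupp
open scoped Classical

namespace Pool.Agent.Rognes

variable {α β : Type*}

/-- **Transfer of vanishing along carriers.**

Proof.  Let `z ∈ CK K r` with `bd z = 0`.  Let `f` be carried by `Φ` (for `m = r`) and `g` carried
by `Ψ` (for `m = r + 1`), from `exists_carried_map`.  `f z ∈ CK K' r`, `bd (f z) = f (bd z) = 0`, so
`f z = bd w`, `w ∈ CK K' (r+1)`.  `g w ∈ CK K (r+1)`, `bd (g w) = g (bd w) = g (f z)`.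
The maps `id` and `g ∘ₗ f` satisfy the hypotheses of `exists_carried_homotopy` for `Θ`, `m = r`:
`single l 1 ∈ CK (Θ l) l.length` by `h1`; `f (single l 1) ∈ CK (Φ l) l.length` and for each list
`l' ∈ Φ l` (which lies in `K'`) of length `l.length ≤ r`,
`g (single l' 1) ∈ CK (Ψ l') _ ≤ CK (Θ l) _` by `h2`; `bd (g (f l)) = g (bd (f l)) = g (f (bdL l))`.
So `bd (D z) = g (f z) - z - D (bd z) = g (f z) - z`, and `D z ∈ CK K (r+1)` as `Θ l ⊆ K`.
Hence `z = bd (g w - D z)`. -/
theorem acy_transfer {K : Set (List α)} {K' : Set (List β)} (hK : SubClosed K)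
    (hK' : SubClosed K') {Φ : List α → Set (List β)} {Ψ : List β → Set (List α)}
    {Θ : List α → Set (List α)} (hΦ : IsCarrier K K' Φ) (hΨ : IsCarrier K' K Ψ)
    (hΘ : IsCarrier K K Θ) (h1 : ∀ l ∈ K, l ∈ Θ l)
    (h2 : ∀ l ∈ K, ∀ m ∈ Φ l, Ψ m ⊆ Θ l) {r : ℕ} (h : Acy K' r) : Acy K r := by
  intro z hz hbz
  obtain ⟨f, f0, f1, f2⟩ := exists_carried_map hK hΦ r
  obtain ⟨g, g0, g1, g2⟩ := exists_carried_map hK' hΨ (r + 1)
  have hfz : f z ∈ CK K' r := by
    refine map_mem_of_lists (K := K) (r := r) ?_ hz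
    intro l hl hr
    have h3 := f1 l hl hr.le
    rw [hr] at h3
    exact CK_mono (hΦ.sub l hl) r h3
  have hbf : bd (f z) = f (bd z) := by
    have h3 := map_eq_of_lists (f := bd ∘ₗ f) (g := f ∘ₗ bd) (K := K) (r := r) (fun l hl hr => by
      simpa using f2 l hl hr.le) hz
    simpa using h3
  have hbfz : bd (f z) = 0 := by rw [hbf, hbz, map_zero]
  obtain ⟨w, hw, hwz⟩ := h (f z) hfz hbfz
  have hbg : ∀ s, s ≤ r + 1 → ∀ x ∈ CK K' s, bd (g x) = g (bd x) := by
    intro s hs x hx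
    have h3 := map_eq_of_lists (f := bd ∘ₗ g) (g := g ∘ₗ bd) (K := K') (r := s) (fun l hl hr => by
      simpa using g2 l hl (hr.le.trans hs)) hx
    simpa using h3
  have hgw : g w ∈ CK K (r + 1) := by
    refine map_mem_of_lists (K := K') (r := r + 1) ?_ hw
    intro l hl hr
    have h3 := g1 l hl hr.le
    rw [hr] at h3
    exact CK_mono (hΨ.sub l hl) (r + 1) h3
  have hbgw : bd (g w) = g (f z) := by rw [hbg (r + 1) le_rfl w hw, hwz]
  obtain ⟨D, D1, D2⟩ := exists_carried_homotopy hK hΘ r (LinearMap.id : Ch α →ₗ[ℤ] Ch α) (g ∘ₗ f)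
    (by simp [f0, g0])
    (fun l hl hr => by
      simpa using single_mem_CK (1 : ℤ) (h1 l hl) rfl)
    (fun l hl hr => by
      rw [LinearMap.comp_apply]
      refine map_mem_of_lists (K := Φ l) (r := l.length) ?_ (f1 l hl hr)
      intro m hm hml
      have h3 := g1 m (hΦ.sub l hl hm) (by omega)
      rw [hml] at h3
      exact CK_mono (h2 l hl m hm) _ h3)
    (fun l hl hr => by simp)
    (fun l hl hr => by
      rw [LinearMap.comp_apply, LinearMap.comp_apply, ← f2 l hl hr]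
      exact hbg l.length (by omega) _ (CK_mono (hΦ.sub l hl) _ (f1 l hl hr)))
  have hDz : D z ∈ CK K (r + 1) := by
    refine map_mem_of_lists (K := K) (r := r) ?_ hz
    intro l hl hr
    have h3 := D1 l hl hr.le
    rw [hr] at h3
    exact CK_mono (hΘ.sub l hl) (r + 1) h3
  have hbD : bd (D z) = g (f z) - z := by
    have h3 := map_eq_of_lists (f := bd ∘ₗ D) (g := g ∘ₗ f - LinearMap.id - D ∘ₗ bd) (K := K)
      (r := r) (fun l hl hr => by
        have h4 := D2 l hl hr.le
        simpa using h4) hz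
    simp only [LinearMap.comp_apply, LinearMap.sub_apply, LinearMap.id_apply, hbz, map_zero,
      sub_zero] at h3
    exact h3
  refine ⟨g w - D z, Submodule.sub_mem _ hgw hDz, ?_⟩
  rw [map_sub, hbgw, hbD]
  abel

end Pool.Agent.Rognes
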