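import Pool.Agent.Lib_MP_ca431a_cb.Cmp1
import Pool.Agent.Lib_MP_ca431a_cb.Transfer

/-!
PIECE [Cmp2] (MP_ca431a_al).  Comparison of the common basis complex with the poset of proper partial decompositions.
-/

open Finsupp
open scoped Classical

namespace Pool.Agent.Rognes

variable {R : Type*} [CommRing R] [IsDomain R] [IsPrincipalIdealRing R]
variable {V : Type*} [AddCommGroup V] [Module R V] [Module.Free R V] [Module.Finite R V]

private theorem cmp2_PL_mono {l l' : List (Submodule R V)} (h : l'.Sublist l) :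
    PL l' ⊆ PL l :=
  fun _ hd => ⟨hd.1, fun W hW => LL_mono h (hd.2 W hW)⟩

omit [IsDomain R] [IsPrincipalIdealRing R] [Module.Free R V] [Module.Finite R V] in
private theorem cmp2_OC_mono {A A' : Set (PD R V)} (h : A' ⊆ A) : OC A' ⊆ OC A :=
  fun _ hl => ⟨fun x hx => h (hl.1 x hx), hl.2⟩

omit [IsDomain R] [IsPrincipalIdealRing R] [Module.Free R V] [Module.Finite R V] in
private theorem cmp2_FC_mono {A A' : Set (Submodule R V)} (h : A' ⊆ A) : FC A' ⊆ FC A :=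
  fun _ hl x hx => h (hl x hx)

private theorem cmp2_Phi : IsCarrier (CBK R V) (OC (Pcirc R V)) (fun l => OC (PL l)) where
  sub := fun _ _ => cmp2_OC_mono (fun _ hd => hd.1)
  nil := fun _ _ => ⟨by simp, List.Pairwise.nil⟩
  mono := fun _ _ _ h => cmp2_OC_mono (cmp2_PL_mono h)
  acyc := fun _ hl hne r => acy_PL hl hne r

private theorem cmp2_Psi : IsCarrier (OC (Pcirc R V)) (CBK R V)
    (fun m => FC {W : Submodule R V | ∃ d ∈ m, W ∈ d.bl}) where
  sub := by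
    intro m hm l hl
    obtain ⟨B, hB⟩ := exists_adapted_basis m (hm.2.imp le_of_lt)
    refine ⟨fun W hW => ?_, B, fun W hW => ?_⟩
    · obtain ⟨d, hd, hWd⟩ := hl W hW
      refine ⟨d.ne_bot hWd, fun h => ?_⟩
      subst h
      exact (hm.1 d hd).2 hWd
    · obtain ⟨d, hd, hWd⟩ := hl W hW
      exact hB d hd W hWd
  nil := fun _ _ => by simp [FC]
  mono := fun _ _ _ h => cmp2_FC_mono (fun _ ⟨d, hd, hW⟩ => ⟨d, h.subset hd, hW⟩)
  acyc := by
    intro m hm hne r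
    obtain ⟨d, hd⟩ := List.exists_mem_of_ne_nil m hne
    obtain ⟨W, hW⟩ := (hm.1 d hd).1
    exact acy_FC (A := {W : Submodule R V | ∃ d ∈ m, W ∈ d.bl}) (a := W) ⟨d, hd, hW⟩ r

private theorem cmp2_Theta : IsCarrier (CBK R V) (CBK R V)
    (fun l => FC {W : Submodule R V | W ∈ LL l ∧ W ≠ ⊥ ∧ W ≠ ⊤}) where
  sub := by
    intro l hl l' hl'
    obtain ⟨_, B, hB⟩ := hl
    exact ⟨fun W hW => (hl' W hW).2, B, fun W hW => (hl' W hW).1 B hB⟩
  nil := fun _ _ => by simp [FC]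
  mono := fun _ _ _ h => cmp2_FC_mono (fun _ hW => ⟨LL_mono h hW.1, hW.2⟩)
  acyc := by
    intro l hl hne r
    obtain ⟨W, hW⟩ := List.exists_mem_of_ne_nil l hne
    exact acy_FC (A := {W : Submodule R V | W ∈ LL l ∧ W ≠ ⊥ ∧ W ≠ ⊤}) (a := W)
      ⟨mem_LL_of_mem hW, hl.1 W hW⟩ r

/-- **Comparison.**

Proof.  `acy_transfer` with `K = CBK R V`, `K' = OC (Pcirc R V)`,
`Φ l = OC (PL l)`, `Ψ m = FC {W | ∃ d ∈ m, W ∈ d.bl}`, `Θ l = FC {W | W ∈ LL l ∧ W ≠ ⊥ ∧ W ≠ ⊤}`.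
* `Φ` is a carrier: `PL l ⊆ Pcirc`; monotone by `LL_mono`; acyclic by `acy_PL`.
* `Ψ` is a carrier: for `m ∈ OC (Pcirc R V)` all blocks of members of `m` are `≠ ⊥` and `≠ ⊤`, and
  have a common adapted basis by `exists_adapted_basis` (strictly increasing implies weakly
  increasing), so `Ψ m ⊆ CBK R V`; monotone; acyclic by `acy_FC` for `m ≠ []` (a block of the head).
* `Θ` is a carrier: if `B` is adapted to `l`, then to all members of `LL l`; monotone by `LL_mono`;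
  acyclic by `acy_FC` for `l ≠ []` (the head of `l`).
* `l ∈ Θ l`; and for `l ∈ K`, `m ∈ Φ l`: `Ψ m ⊆ Θ l`. -/
theorem acy_CBK_of_Pcirc {r : ℕ} (h : Acy (OC (Pcirc R V)) r) : Acy (CBK R V) r := by
  refine acy_transfer subClosed_CBK (subClosed_OC _) cmp2_Phi cmp2_Psi cmp2_Theta ?_ ?_ h
  · intro l hl W hW
    exact ⟨mem_LL_of_mem hW, hl.1 W hW⟩
  · intro l _ m hm l' hl' W hW
    obtain ⟨d, hd, hWd⟩ := hl' W hW
    refine ⟨(hm.1 d hd).2 W hWd, d.ne_bot hWd, fun h => ?_⟩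
    subst h
    exact (hm.1 d hd).1.2 hWd

end Pool.Agent.Rognes
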