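import Mathlib

/-!
# Definitions used in the statement of the hand-in `MP_ca431a_al.ManyUnits`

* `CBTuples R d`: the tuples (lists) of vertices of the common basis complex `CB_d(R)` whose set of
  entries is a simplex.
* `boundary`: the alternating sum boundary on finite integral combinations of tuples.
* `ReducedHomologyVanishes K i`: the reduced (augmented) ordered simplicial homology in degree `i`
  of the complex with tuples `K` vanishes.
* `ManyUnits R`: the hypothesis on the ring.
-/

namespace Pool.Agent.Rognes

/-- Tuples `[W_0, …, W_p]` (repetitions allowed, the empty tuple included) of vertices of the common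
basis complex of `R^d` whose entries span a simplex: every `W_i` is a summand of `R^d`, different
from `0` and `R^d`, and there is a basis `B` of `R^d` such that every `W_i` is the span of a subset
of `B`. -/
def CBTuples (R : Type*) [CommRing R] (d : ℕ) : Set (List (Submodule R (Fin d → R))) :=
  {l | (∀ W ∈ l, (∃ W' : Submodule R (Fin d → R), IsCompl W W') ∧ W ≠ ⊥ ∧ W ≠ ⊤) ∧
    ∃ B : Module.Basis (Fin d) R (Fin d → R),
      ∀ W ∈ l, ∃ s : Set (Fin d), W = Submodule.span R (B '' s)}

/-- The simplicial boundary `∂ (x_0, …, x_p) = ∑ (-1)^i (x_0, …, omit x_i, …, x_p)` on finite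
integral combinations of tuples; `∂ (x_0) = ()` (augmentation) and `∂ () = 0`. -/
noncomputable def boundary {X : Type*} : (List X →₀ ℤ) →ₗ[ℤ] (List X →₀ ℤ) :=
  Finsupp.linearCombination ℤ
    (fun l => ∑ i ∈ Finset.range l.length, Finsupp.single (l.eraseIdx i) ((-1 : ℤ) ^ i))

/-- Vanishing of the reduced homology in degree `i` of the ordered simplicial chain complex spanned
by the tuples in `K` (the chain group in degree `i` is spanned by the tuples in `K` with `i + 1`
entries): every cycle of degree `i` is a boundary. -/
def ReducedHomologyVanishes {X : Type*} (K : Set (List X)) (i : ℤ) : Prop :=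
  ∀ z : List X →₀ ℤ, (∀ l ∈ z.support, l ∈ K ∧ (l.length : ℤ) = i + 1) → boundary z = 0 →
    ∃ w : List X →₀ ℤ, (∀ l ∈ w.support, l ∈ K ∧ (l.length : ℤ) = i + 2) ∧ boundary w = z

/-- `R` has enough units: for all `n ≥ 1` and every finite set `S` of unimodular vectors of `R^n`
there is a surjective linear form which takes only the value `0` and unit values on `S`. -/
def ManyUnits (R : Type*) [CommRing R] : Prop :=
  ∀ (n : ℕ), 0 < n → ∀ S : Finset (Fin n → R), (∀ v ∈ S, ∃ c : Fin n → R, ∑ i, c i * v i = 1) →
    ∃ φ : (Fin n → R) →ₗ[R] R, Function.Surjective φ ∧ ∀ v ∈ S, φ v = 0 ∨ IsUnit (φ v)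

end Pool.Agent.Rognes
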