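import Pool.Agent.Lib_MP_ca431a_cb.Adapted

/-!
PIECE [SatCompl] (MP_ca431a_al).  Complements of saturated submodules; filling up.
-/

open Finsupp
open scoped Classical

namespace Pool.Agent.Rognes

variable {R : Type*} [CommRing R] [IsDomain R] [IsPrincipalIdealRing R]
variable {V : Type*} [AddCommGroup V] [Module R V] [Module.Free R V] [Module.Finite R V]

/-- A saturated submodule of a finitely generated free module over a PID has a complement.

Proof.  `V ⧸ U` is finitely generated and torsion free (saturation), hence free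
(`Module.free_of_finite_type_torsion_free'`), hence projective: the quotient map has a section
`g : V ⧸ U →ₗ V` (`Module.projective_lifting_property`); `C = range g` is a complement of `U`. -/
theorem sat_exists_isCompl {U : Submodule R V} (hU : Sat U) : ∃ C : Submodule R V, IsCompl U C := by
  have htf : Module.IsTorsionFree R (V ⧸ U) := by
    refine Module.IsTorsionFree.of_smul_eq_zero ?_
    intro a x hx
    obtain ⟨y, rfl⟩ := Submodule.mkQ_surjective U x
    by_cases ha : a = 0
    · exact Or.inl ha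
    · right
      rw [← map_smul, Submodule.mkQ_apply, Submodule.Quotient.mk_eq_zero] at hx
      rw [Submodule.mkQ_apply, Submodule.Quotient.mk_eq_zero]
      exact hU a y ha hx
  have hfree : Module.Free R (V ⧸ U) := Module.free_of_finite_type_torsion_free'
  obtain ⟨g, hg⟩ := Module.projective_lifting_property U.mkQ
    (LinearMap.id : (V ⧸ U) →ₗ[R] (V ⧸ U)) (Submodule.mkQ_surjective U)
  have hg' : ∀ y, U.mkQ (g y) = y := fun y => by
    have h1 := LinearMap.congr_fun hg y
    simpa using h1
  refine ⟨LinearMap.range g, ?_, ?_⟩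
  · rw [Submodule.disjoint_def]
    rintro x hx ⟨y, rfl⟩
    have h1 : U.mkQ (g y) = 0 := by
      rw [Submodule.mkQ_apply, Submodule.Quotient.mk_eq_zero]
      exact hx
    rw [hg'] at h1
    rw [h1, map_zero]
  · rw [codisjoint_iff_le_sup]
    intro x _
    have h1 : x = (x - g (U.mkQ x)) + g (U.mkQ x) := by abel
    rw [h1]
    refine Submodule.add_mem_sup ?_ ⟨_, rfl⟩
    rw [← Submodule.Quotient.mk_eq_zero U, ← Submodule.mkQ_apply, map_sub, hg', sub_self]

theorem satcompl_sat_of_isCompl {U C : Submodule R V} (h : IsCompl U C) : Sat C := by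
  intro a x ha hx
  have hx' : x ∈ U ⊔ C := by
    rw [h.sup_eq_top]
    exact Submodule.mem_top
  obtain ⟨u, hu, c, hc, rfl⟩ := Submodule.mem_sup.1 hx'
  have h1 : a • u ∈ C := by
    have h2 : a • u = a • (u + c) - a • c := by rw [smul_add]; abel
    rw [h2]
    exact Submodule.sub_mem _ hx (Submodule.smul_mem _ _ hc)
  have h3 : a • u = 0 := Submodule.disjoint_def.1 h.disjoint _ (Submodule.smul_mem _ _ hu) h1
  have h4 : u = 0 := by
    rcases smul_eq_zero.1 h3 with h | h
    · exact absurd h ha
    · exact h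
  rw [h4, zero_add]
  exact hc

/-- Relative version: if `U ≤ W`, `U` saturated in `V`, then `U` has a complement inside `W`.
Proof: `C ⊓ W` with `C` from `sat_exists_isCompl`; modular law. -/
theorem sat_exists_rel_compl {U W : Submodule R V} (hU : Sat U) (hUW : U ≤ W) (hW : Sat W) :
    ∃ C : Submodule R V, C ≤ W ∧ U ⊓ C = ⊥ ∧ U ⊔ C = W ∧ Sat C := by
  obtain ⟨C, hC⟩ := sat_exists_isCompl hU
  refine ⟨C ⊓ W, inf_le_right, ?_, ?_, (satcompl_sat_of_isCompl hC).inf hW⟩
  · rw [← le_bot_iff, ← hC.inf_eq_bot]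
    exact inf_le_inf_left _ inf_le_left
  · rw [← sup_inf_assoc_of_le C hUW, hC.sup_eq_top, top_inf_eq]

/-- Fill up a partial decomposition inside a coarser one.

Proof.  For `W' ∈ d'.bl` let `t W' = d.bl.filter (· ≤ W')`, a partial decomposition
(`IsPD.subset`) with sup `≤ W'`, saturated; let `C W'` be a complement of this sup inside `W'`
(`sat_exists_rel_compl`), and `s W' = t W'` if `C W' = ⊥`, `insert (C W') (t W')` otherwise; this
is a partial decomposition with sup `W'` (`Finset.SupIndep.insert`).  Let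
`e = d'.bl.biUnion s` (`IsPD.refine`).  `d.bl ⊆ e` because `d ≤ d'`; `e ≤ d'`; and for
`W' ∈ d'.bl` every element of `s W'` is `≤ W'`, so
`W' = (s W').sup id ≤ (e.filter (· ≤ W')).sup id ≤ W'`. -/
theorem exists_fill {d d' : PD R V} (h : d ≤ d') :
    ∃ e : PD R V, d.bl ⊆ e.bl ∧ e ≤ d' ∧
      ∀ W' ∈ d'.bl, W' = (e.bl.filter (· ≤ W')).sup id := by
  have hex : ∀ W' ∈ d'.bl, ∃ s : Finset (Submodule R V), d.bl.filter (· ≤ W') ⊆ s ∧ IsPD s ∧
      s.sup id = W' := by
    intro W' hW'
    have ht : IsPD (d.bl.filter (· ≤ W')) := d.pd.subset (Finset.filter_subset _ _)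
    have hle : (d.bl.filter (· ≤ W')).sup id ≤ W' :=
      Finset.sup_le fun W hW => (Finset.mem_filter.1 hW).2
    obtain ⟨C, hCW, hC1, hC2, hC3⟩ := sat_exists_rel_compl ht.sat hle (d'.pd.sat_of_mem hW')
    by_cases hC : C = ⊥
    · refine ⟨d.bl.filter (· ≤ W'), Finset.Subset.refl _, ht, ?_⟩
      rw [hC, sup_bot_eq] at hC2
      exact hC2
    · refine ⟨insert C (d.bl.filter (· ≤ W')), Finset.subset_insert _ _, ⟨?_, ?_, ?_⟩, ?_⟩
      · intro hb
        rcases Finset.mem_insert.1 hb with hb | hb
        · exact hC hb.symm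
        · exact ht.ne hb
      · exact ht.ind.insert (by
          rw [_root_.disjoint_iff, inf_comm]
          exact hC1)
      · rw [Finset.sup_insert, sup_comm]
        have h5 : (d.bl.filter (· ≤ W')).sup id ⊔ id C = W' := hC2
        rw [h5]
        exact d'.pd.sat_of_mem hW'
      · rw [Finset.sup_insert, sup_comm]
        exact hC2
  choose! s hs1 hs2 hs3 using hex
  refine ⟨⟨d'.bl.biUnion s, d'.pd.refine s hs2 (fun W hW => (hs3 W hW).le)⟩, ?_, ?_, ?_⟩
  · intro W hW
    obtain ⟨W', hW', hle⟩ := h W hW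
    exact Finset.mem_biUnion.2 ⟨W', hW', hs1 W' hW' (Finset.mem_filter.2 ⟨hW, hle⟩)⟩
  · intro W hW
    obtain ⟨W', hW', hW1⟩ := Finset.mem_biUnion.1 hW
    refine ⟨W', hW', ?_⟩
    calc W = id W := rfl
      _ ≤ (s W').sup id := Finset.le_sup hW1
      _ = W' := hs3 W' hW'
  · intro W' hW'
    apply le_antisymm
    · calc W' = (s W').sup id := (hs3 W' hW').symm
        _ ≤ _ := by
          apply Finset.sup_mono
          intro W hW
          refine Finset.mem_filter.2 ⟨Finset.mem_biUnion.2 ⟨W', hW', hW⟩, ?_⟩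
          calc W = id W := rfl
            _ ≤ (s W').sup id := Finset.le_sup hW
            _ = W' := hs3 W' hW'
    · exact Finset.sup_le fun W hW => (Finset.mem_filter.1 hW).2

end Pool.Agent.Rognes
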