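import Pool.Agent.Lib_MP_ca431a_cb.PDBasic
import Pool.Agent.Lib_MP_ca431a_cb.SatCompl

/-!
PIECE [RankPD] (MP_ca431a_al).  Ranks: full bad frames have `n` elements.
-/

open Finsupp
open scoped Classical

namespace Pool.Agent.Rognes

variable {R : Type*} [CommRing R] [IsDomain R] [IsPrincipalIdealRing R]
variable {V : Type*} [AddCommGroup V] [Module R V] [Module.Free R V] [Module.Finite R V]

/-- Rank of the sum of two disjoint submodules. -/
theorem finrank_sup_disj (U W : Submodule R V) (h : Disjoint U W) :
    Module.finrank R (U ⊔ W : Submodule R V) = Module.finrank R U + Module.finrank R W := by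
  have h1 := Submodule.rank_sup_add_rank_inf_eq U W
  rw [h.eq_bot, rank_bot, add_zero, ← Module.finrank_eq_rank, ← Module.finrank_eq_rank,
    ← Module.finrank_eq_rank] at h1
  exact_mod_cast h1

/-- The rank of the sum of a partial decomposition is the sum of the ranks. -/
theorem finrank_sup_of_isPD {s : Finset (Submodule R V)} (hs : IsPD s) :
    Module.finrank R (s.sup id : Submodule R V) = ∑ W ∈ s, Module.finrank R W := by
  induction s using Finset.induction_on with
  | empty => simp
  | insert W s hW ih =>
    rw [Finset.sup_insert, Finset.sum_insert hW,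
      ← ih (hs.subset (Finset.subset_insert _ _))]
    refine finrank_sup_disj _ _ ?_
    exact hs.ind (Finset.subset_insert _ _) (Finset.mem_insert_self _ _) hW

/-- A nonzero submodule has positive rank. -/
theorem finrank_pos_of_ne_bot {W : Submodule R V} (h : W ≠ ⊥) : 0 < Module.finrank R W := by
  rw [Nat.pos_iff_ne_zero]
  intro h0
  exact h (Submodule.finrank_eq_zero.1 h0)

/-- A saturated submodule of the same rank is equal.
Proof: `U ≤ W`, `U` has a complement `C` inside `W` (`sat_exists_rel_compl`; or: `W ⧸ U` is torsion
free of rank `0`); `finrank C = 0`, so `C = ⊥`. -/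
theorem eq_of_sat_of_finrank {U W : Submodule R V} (hU : Sat U) (hW : Sat W) (h : U ≤ W)
    (hr : Module.finrank R W ≤ Module.finrank R U) : U = W := by
  obtain ⟨C, _, h2, h3, _⟩ := sat_exists_rel_compl hU h hW
  have h4 := finrank_sup_disj U C (disjoint_iff.2 h2)
  rw [h3] at h4
  have h5 : C = ⊥ := by
    by_contra hC
    have := finrank_pos_of_ne_bot hC
    omega
  rw [h5, sup_bot_eq] at h3
  exact h3

/-- A full partial decomposition all of whose blocks are complements of `E`, where `E` has corank
one, has exactly `finrank R V` blocks.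
Proof: `IsCompl L E` gives `finrank L + finrank E = finrank V`
(`Submodule.finrank_add_eq_of_isCompl` or `Submodule.prodEquivOfIsCompl`), so `finrank L = 1`; and
`finrank_sup_of_isPD`. -/
theorem card_of_full_bad {E : Submodule R V} (hE : Module.finrank R E + 1 = Module.finrank R V)
    (d : PD R V) (hd : ∀ L ∈ d.bl, IsCompl L E) (hfull : d.bl.sup id = ⊤) :
    d.bl.card = Module.finrank R V := by
  have h1 : ∀ L ∈ d.bl, Module.finrank R L = 1 := by
    intro L hL
    have h2 := finrank_sup_disj L E (hd L hL).disjoint
    rw [(hd L hL).sup_eq_top, finrank_top] at h2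
    omega
  have h3 := finrank_sup_of_isPD d.pd
  rw [hfull, finrank_top, Finset.sum_congr rfl h1] at h3
  rw [h3]
  simp

end Pool.Agent.Rognes
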