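import Pool.Agent.Lib_MP_ca431a_cb.Hyp1
import Pool.Agent.Lib_MP_ca431a_cb.RankPD

/-!
PIECE [Hyp2] (MP_ca431a_al).  A hyperplane in general position for finitely many partial decompositions.
-/

open Finsupp
open scoped Classical

namespace Pool.Agent.Rognes

variable {R : Type*} [CommRing R] [IsDomain R] [IsPrincipalIdealRing R]
variable {V : Type*} [AddCommGroup V] [Module R V] [Module.Free R V] [Module.Finite R V]

/-- **A hyperplane in general position for a finite set of partial decompositions.**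

Proof.  Let `S` be the finite set of vectors `e_W` (`exists_unimodular_generator`) for the blocks `W`
of rank one of members of `F`.  Take `φ` from `manyUnits_module`, `E = ker φ` (`ker_facts`).  Let
`W` be a block of a member of `F` with `W ⊓ E = ⊥`.  Then `φ` is injective on `W`, so
`finrank W ≤ 1` and `= 1` (`finrank_pos_of_ne_bot`), `W = span {e_W}`, `φ e_W ≠ 0` (else
`e_W ∈ W ⊓ E = ⊥`, but `W ≠ ⊥`), so `φ e_W` is a unit and `W` is a complement of `E`: every
`v : V` is `(φ v / φ e_W) • e_W + (v - …)`. -/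
theorem exists_general_hyperplane (hR : ManyUnits R) (hn : 0 < Module.finrank R V)
    (F : Finset (PD R V)) (hF : (F : Set (PD R V)) ⊆ Pcirc R V) :
    ∃ E : Submodule R V, Sat E ∧ Module.finrank R E + 1 = Module.finrank R V ∧
      (F : Set (PD R V)) ⊆ PE E := by
  have hgen : ∀ W : Submodule R V, ∃ e : V, Sat W → Module.finrank R W = 1 →
      W = Submodule.span R {e} ∧ ∃ ψ : V →ₗ[R] R, ψ e = 1 := by
    intro W
    by_cases h : Sat W ∧ Module.finrank R W = 1
    · obtain ⟨e, he⟩ := exists_unimodular_generator h.1 h.2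
      exact ⟨e, fun _ _ => he⟩
    · exact ⟨0, fun h1 h2 => absurd ⟨h1, h2⟩ h⟩
  choose e he using hgen
  obtain ⟨φ, hφ, hφS⟩ := manyUnits_module hR hn
    (((F.biUnion (fun d => d.bl)).filter (fun W : Submodule R V => Module.finrank R W = 1)).image e) (by
      intro v hv
      obtain ⟨W, hW, rfl⟩ := Finset.mem_image.1 hv
      obtain ⟨hW1, hW2⟩ := Finset.mem_filter.1 hW
      obtain ⟨d, _, hWd⟩ := Finset.mem_biUnion.1 hW1
      exact (he W (d.pd.sat_of_mem hWd) hW2).2)
  obtain ⟨hE1, hE2⟩ := ker_facts φ hφ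
  refine ⟨LinearMap.ker φ, hE1, hE2, ?_⟩
  intro d hd
  refine ⟨hF hd, ?_⟩
  intro W hW hWE
  have hWsat : Sat W := d.pd.sat_of_mem hW
  have hpos : 0 < Module.finrank R W := finrank_pos_of_ne_bot (d.ne_bot hW)
  have hker : ∀ w ∈ W, φ w = 0 → w = 0 := by
    intro w hw hw0
    have h1 : w ∈ W ⊓ LinearMap.ker φ := ⟨hw, hw0⟩
    rw [hWE] at h1
    exact (Submodule.mem_bot R).1 h1
  have hinj : Function.Injective (φ.domRestrict W) := by
    rw [← LinearMap.ker_eq_bot, LinearMap.ker_eq_bot']
    intro w hw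
    exact Subtype.ext (hker w.1 w.2 hw)
  have hle : Module.finrank R W ≤ 1 := by
    have := LinearMap.finrank_le_finrank_of_injective hinj
    rwa [Module.finrank_self] at this
  have h1 : Module.finrank R W = 1 := le_antisymm hle hpos
  obtain ⟨hspan, ψ, hψ⟩ := he W hWsat h1
  have heW : e W ∈ W := by
    have h2 : e W ∈ Submodule.span R {e W} := Submodule.mem_span_singleton_self _
    rwa [← hspan] at h2
  have hmem : e W ∈ (((F.biUnion (fun d => d.bl)).filter
      (fun W : Submodule R V => Module.finrank R W = 1)).image e) :=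
    Finset.mem_image.2 ⟨W, Finset.mem_filter.2 ⟨Finset.mem_biUnion.2 ⟨d, hd, hW⟩, h1⟩, rfl⟩
  have hunit : IsUnit (φ (e W)) := by
    rcases hφS _ hmem with h0 | h0
    · exfalso
      have h3 : e W = 0 := hker _ heW h0
      apply d.ne_bot hW
      rw [hspan, h3, Submodule.span_zero_singleton]
    · exact h0
  obtain ⟨u, hu⟩ := hunit
  refine IsCompl.of_eq hWE ?_
  rw [eq_top_iff]
  intro v _
  have hdec : v = ((↑u⁻¹ * φ v) • e W) + (v - (↑u⁻¹ * φ v) • e W) := by abel
  rw [hdec]
  refine Submodule.add_mem_sup (Submodule.smul_mem _ _ heW) ?_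
  rw [LinearMap.mem_ker, map_sub, map_smul, smul_eq_mul, ← hu]
  have : (↑u⁻¹ * φ v) * (u : R) = φ v := by
    rw [mul_comm, ← mul_assoc, Units.mul_inv, one_mul]
  rw [this, sub_self]

end Pool.Agent.Rognes
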