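import Pool.Agent.Lib_MP_ca431a_cb.PEacy2

/-!
PIECE [PEacy3] (MP_ca431a_al).  Vanishing for `PE E` in list length `≤ 2n - 3`.
-/

open Finsupp
open scoped Classical

namespace Pool.Agent.Rognes

variable {R : Type*} [CommRing R] [IsDomain R] [IsPrincipalIdealRing R]
variable {V : Type*} [AddCommGroup V] [Module R V] [Module.Free R V] [Module.Finite R V]

/-- **Vanishing for `PE E`.**

Proof.  `PE E` is the union of `F0` (acyclic, `acy_F0`) and of the full bad frames, which form an
antichain (`y ≤ y'` gives `y.bl ⊆ y'.bl` by `subset_of_le_bad`; if `L ∈ y'.bl \ y.bl` then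
`L ⊓ y.bl.sup id = ⊥`, but the sup is `⊤`).  `attach_antichain` with `acy_link_full`: degree `r + 1`
needs the link in degree `r` with `r + 3 ≤ 2n - 1`, i.e. `(r + 1) + 3 ≤ 2 n`.
Degree `0`: `PE E` is nonempty (`{E}`), `acy_zero`. -/
theorem acy_PE {E : Submodule R V} (hE : Sat E)
    (hr : Module.finrank R E + 1 = Module.finrank R V) (hn : 2 ≤ Module.finrank R V)
    (r : ℕ) (hr' : r + 3 ≤ 2 * Module.finrank R V) :
    Acy (OC (PE E : Set (PD R V))) r := by
  have hEb : E ≠ ⊥ := by
    rintro rfl
    rw [finrank_bot] at hr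
    omega
  have hEt : E ≠ ⊤ := by
    rintro rfl
    rw [finrank_top] at hr
    omega
  cases r with
  | zero =>
    refine acy_zero (a := (⟨{E}, isPD_singleton hEb hE⟩ : PD R V)) ?_
    refine ⟨⟨⟨E, Finset.mem_singleton_self _⟩, ?_⟩, ?_⟩
    · intro h
      exact hEt (Finset.mem_singleton.1 h).symm
    · intro W hW hWE
      rw [Finset.mem_singleton] at hW
      subst hW
      rw [inf_idem] at hWE
      exact absurd hWE hEb
  | succ r =>
    have hsplit : (PE E : Set (PD R V)) =
        {d : PD R V | d ∈ PE E ∧ (Good E d ∨ d.bl.sup id ≠ ⊤)} ∪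
          {d : PD R V | d ∈ PE E ∧ ¬ Good E d ∧ d.bl.sup id = ⊤} := by
      ext d
      constructor
      · intro hd
        by_cases hg : Good E d
        · exact Or.inl ⟨hd, Or.inl hg⟩
        · by_cases hs : d.bl.sup id = ⊤
          · exact Or.inr ⟨hd, hg, hs⟩
          · exact Or.inl ⟨hd, Or.inr hs⟩
      · rintro (h | h)
        · exact h.1
        · exact h.1
    rw [hsplit]
    refine attach_antichain ?_ ?_ (acy_F0 hE hr hn (r + 1)) ?_
    · rintro y ⟨_, hbad, hfull⟩ ⟨_, h | h⟩
      · exact hbad h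
      · exact h hfull
    · rintro y ⟨hy, hbad, hfull⟩ y' ⟨hy', hbad', hfull'⟩ hle
      have hsub : y.bl ⊆ y'.bl := subset_of_le_bad hy (isCompl_of_not_good hy' hbad') hle
      have hsub' : y'.bl ⊆ y.bl := by
        intro L hL
        by_contra hLy
        have hdis : Disjoint L (y.bl.sup id) := by
          have := y'.pd.ind hsub hL hLy
          simpa using this
        rw [hfull, disjoint_top] at hdis
        exact y'.ne_bot hL hdis
      exact PD.ext (Finset.Subset.antisymm hsub hsub')
    · rintro y ⟨hy, hbad, hfull⟩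
      exact acy_link_full hE hr hn hy hbad hfull r (by omega)

end Pool.Agent.Rognes
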