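import Pool.Agent.Lib_MP_ca431a_cb.RankPD

/-!
PIECE [Rho] (MP_ca431a_al).  Chains in `P°` have at most `2n - 2` elements.
-/

open Finsupp
open scoped Classical

namespace Pool.Agent.Rognes

variable {R : Type*} [CommRing R] [IsDomain R] [IsPrincipalIdealRing R]
variable {V : Type*} [AddCommGroup V] [Module R V] [Module.Free R V] [Module.Finite R V]

/-- The strictly monotone function `ρ(d) = ∑_W (2 rank W - 1)`. -/
noncomputable def rho (d : PD R V) : ℕ := ∑ W ∈ d.bl, (2 * Module.finrank R W - 1)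

/-- the part of `d` inside `W'` -/
private theorem rho_fiber (d : PD R V) {W' : Submodule R V} (h0 : W' ≠ ⊥) (hs : Sat W') :
    (∑ W ∈ d.bl.filter (· ≤ W'), (2 * Module.finrank R W - 1)) ≤ 2 * Module.finrank R W' - 1 ∧
    ((∑ W ∈ d.bl.filter (· ≤ W'), (2 * Module.finrank R W - 1)) = 2 * Module.finrank R W' - 1 →
      W' ∈ d.bl) := by
  set t := d.bl.filter (· ≤ W') with ht
  have hpd : IsPD t := d.pd.subset (Finset.filter_subset _ _)
  have hpos' : 0 < Module.finrank R W' := finrank_pos_of_ne_bot h0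
  have hpos : ∀ W ∈ t, 0 < Module.finrank R W := fun W hW =>
    finrank_pos_of_ne_bot (d.ne_bot (Finset.mem_filter.1 hW).1)
  have hsum : (∑ W ∈ t, (2 * Module.finrank R W - 1)) + t.card =
      2 * ∑ W ∈ t, Module.finrank R W := by
    rw [Finset.card_eq_sum_ones, ← Finset.sum_add_distrib, Finset.mul_sum]
    refine Finset.sum_congr rfl ?_
    intro W hW
    have := hpos W hW
    omega
  have hle : t.sup id ≤ W' := Finset.sup_le (fun W hW => (Finset.mem_filter.1 hW).2)
  have hrk : ∑ W ∈ t, Module.finrank R W ≤ Module.finrank R W' := by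
    rw [← finrank_sup_of_isPD hpd]
    exact Submodule.finrank_mono hle
  rcases Nat.eq_zero_or_pos t.card with hc | hc
  · rw [Finset.card_eq_zero] at hc
    rw [hc]
    simp only [Finset.sum_empty]
    exact ⟨Nat.zero_le _, fun h => by omega⟩
  · refine ⟨by omega, ?_⟩
    intro he
    have h1 : t.card = 1 := by omega
    obtain ⟨W, hW⟩ := Finset.card_eq_one.1 h1
    have h2 : Module.finrank R W' ≤ ∑ W ∈ t, Module.finrank R W := by omega
    rw [hW, Finset.sum_singleton] at h2
    have hWt : W ∈ t := by rw [hW]; exact Finset.mem_singleton_self _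
    have hWd := (Finset.mem_filter.1 hWt).1
    have : W = W' := eq_of_sat_of_finrank (d.pd.sat_of_mem hWd) hs (Finset.mem_filter.1 hWt).2 h2
    rw [← this]
    exact hWd

/-- Proof.  For `d < d'`: for every `W' ∈ d'.bl` let `t W' = d.bl.filter (· ≤ W')`.  The sets `t W'`
partition `d.bl` (`PD.block_unique`), so `rho d = ∑_{W'} ∑_{W ∈ t W'} (2 rank W - 1)`.  Let
`k = (t W').card`, `m = ∑_{W ∈ t W'} rank W ≤ rank W'` (`finrank_sup_of_isPD` for `t W'`, whose sup is
inside `W'`).  If `k ≥ 1` then `∑ (2 rank W - 1) = 2 m - k ≤ 2 rank W' - 1`; if `k = 0` the sum is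
`0 ≤ 2 rank W' - 1`, even `<`.  Equality for `k ≥ 1` forces `k = 1` and `m = rank W'`, hence
`W = W'` for the unique `W ∈ t W'` by `eq_of_sat_of_finrank`.  So equality for all `W'` gives
`d'.bl ⊆ d.bl`, and then (`d ≤ d'`) `d = d'`. -/
theorem rho_strictMono {d d' : PD R V} (h : d < d') : rho d < rho d' := by
  have hle : ∀ W ∈ d.bl, ∃ W' ∈ d'.bl, W ≤ W' := h.le
  have hU : d.bl = d'.bl.biUnion (fun W' => d.bl.filter (· ≤ W')) := by
    ext W
    rw [Finset.mem_biUnion]
    constructor
    · intro hW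
      obtain ⟨W', hW', h1⟩ := hle W hW
      exact ⟨W', hW', Finset.mem_filter.2 ⟨hW, h1⟩⟩
    · rintro ⟨W', -, h1⟩
      exact (Finset.mem_filter.1 h1).1
  have hdis : Set.PairwiseDisjoint (d'.bl : Set (Submodule R V))
      (fun W' => d.bl.filter (· ≤ W')) := by
    intro A hA B hB hAB
    rw [Function.onFun, Finset.disjoint_left]
    intro W h1 h2
    apply hAB
    exact d'.block_unique hA hB (d.ne_bot (Finset.mem_filter.1 h1).1) (Finset.mem_filter.1 h1).2
      (Finset.mem_filter.1 h2).2
  have hrho : rho d = ∑ W' ∈ d'.bl, ∑ W ∈ d.bl.filter (· ≤ W'), (2 * Module.finrank R W - 1) := by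
    rw [← Finset.sum_biUnion hdis, ← hU]
    rfl
  have hfib := fun (W' : Submodule R V) (hW' : W' ∈ d'.bl) =>
    rho_fiber d (d'.ne_bot hW') (d'.pd.sat_of_mem hW')
  have hle2 : rho d ≤ rho d' := by
    rw [hrho]
    exact Finset.sum_le_sum (fun W' hW' => (hfib W' hW').1)
  refine lt_of_le_of_ne hle2 ?_
  intro heq
  have hall := (Finset.sum_eq_sum_iff_of_le (fun W' hW' => (hfib W' hW').1)).1
    (show ∑ W' ∈ d'.bl, ∑ W ∈ d.bl.filter (· ≤ W'), (2 * Module.finrank R W - 1) =
      ∑ W' ∈ d'.bl, (2 * Module.finrank R W' - 1) from hrho.symm.trans heq)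
  have hback : d' ≤ d := by
    intro W' hW'
    exact ⟨W', (hfib W' hW').2 (hall W' hW'), le_rfl⟩
  exact absurd (le_antisymm h.le hback) h.ne

/-- Proof: `{⊤}` is a partial decomposition with `rho = 2 n - 1` and `d < {⊤}`. -/
theorem rho_lt_of_Pcirc {d : PD R V} (hd : d ∈ Pcirc R V) :
    rho d < 2 * Module.finrank R V - 1 := by
  obtain ⟨⟨W, hW⟩, htop⟩ := hd
  have h0 : (⊤ : Submodule R V) ≠ ⊥ := by
    intro h
    exact d.ne_bot hW (le_bot_iff.1 (h ▸ le_top))
  have hlt : d < (⟨{⊤}, isPD_singleton h0 sat_top⟩ : PD R V) := by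
    refine lt_of_le_of_ne ?_ ?_
    · intro U _
      exact ⟨⊤, Finset.mem_singleton_self _, le_top⟩
    · intro h
      apply htop
      rw [h]
      exact Finset.mem_singleton_self _
  have h1 := rho_strictMono hlt
  have h2 : rho (⟨{⊤}, isPD_singleton h0 sat_top⟩ : PD R V) = 2 * Module.finrank R V - 1 := by
    unfold rho
    rw [Finset.sum_singleton, finrank_top]
  rwa [h2] at h1

/-- Proof: `d` has a block, of positive rank. -/
theorem rho_pos_of_Pcirc {d : PD R V} (hd : d ∈ Pcirc R V) : 0 < rho d := by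
  obtain ⟨⟨W, hW⟩, -⟩ := hd
  have h1 : 2 * Module.finrank R W - 1 ≤ rho d :=
    Finset.single_le_sum (f := fun W : Submodule R V => 2 * Module.finrank R W - 1)
      (fun _ _ => Nat.zero_le _) hW
  have h2 : 0 < Module.finrank R W := finrank_pos_of_ne_bot (d.ne_bot hW)
  omega

/-- **Chains in `P°` have at most `2n - 2` elements.**
Proof: `rho` is strictly increasing along the list with values in `1, …, 2n - 2`. -/
theorem length_le_of_Pcirc {l : List (PD R V)} (hl : l ∈ OC (Pcirc R V)) :
    l.length ≤ 2 * Module.finrank R V - 2 := by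
  have hpw : (l.map rho).Pairwise (· < ·) := by
    rw [List.pairwise_map]
    exact hl.2.imp (fun h => rho_strictMono h)
  have hnd : (l.map rho).Nodup := hpw.imp (fun h => ne_of_lt h)
  have hsub : (l.map rho).toFinset ⊆ Finset.Icc 1 (2 * Module.finrank R V - 2) := by
    intro x hx
    rw [List.mem_toFinset, List.mem_map] at hx
    obtain ⟨d, hd, rfl⟩ := hx
    have h1 := rho_lt_of_Pcirc (hl.1 d hd)
    have h2 := rho_pos_of_Pcirc (hl.1 d hd)
    rw [Finset.mem_Icc]
    omega
  have h1 := Finset.card_le_card hsub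
  rw [List.toFinset_card_of_nodup hnd, List.length_map, Nat.card_Icc] at h1
  omega

/-- Vanishing above the dimension. -/
theorem acy_Pcirc_high {r : ℕ} (hr : 2 * Module.finrank R V - 2 < r) :
    Acy (OC (Pcirc R V)) r := by
  intro z hz _
  refine ⟨0, by simp, ?_⟩
  have : z = 0 := by
    ext l
    by_contra h
    have := (mem_CK.1 hz) l h
    have := length_le_of_Pcirc this.1
    omega
  simp [this]

end Pool.Agent.Rognes
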