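import Pool.Agent.Lib_MP_ca431a_cb.Hyp1

/-!
PIECE [Units] (MP_ca431a_al).  Semilocal rings with infinite residue fields have many units.
-/

open Finsupp
open scoped Classical

namespace Pool.Agent.Rognes

/-- Over an infinite field `K`, finitely many nonzero vectors of `K^n` admit a linear form not
vanishing at any of them.
Proof: each `{c | ∑ c i * v i = 0}` is a proper subspace of `K^n`; a vector space over an infinite
field is not a finite union of proper subspaces (`Subspace.biUnion_ne_univ_of_top_notMem` or
`Submodule.iUnion_ssubset_of_forall_ne_top_of_card_lt`), or by a product of nonzero polynomials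
(`MvPolynomial.funext`/`exists_eval_ne_zero`). -/
theorem exists_form_field {K : Type*} [Field K] [Infinite K] {n : ℕ} (S : Finset (Fin n → K))
    (hS : ∀ v ∈ S, v ≠ 0) : ∃ c : Fin n → K, ∀ v ∈ S, ∑ i, c i * v i ≠ 0 := by
  let P : MvPolynomial (Fin n) K := ∏ v ∈ S, ∑ i, MvPolynomial.C (v i) * MvPolynomial.X i
  have hP : P ≠ 0 := by
    refine Finset.prod_ne_zero_iff.2 ?_
    intro v hv h0
    apply hS v hv
    funext j
    have h1 := congrArg (MvPolynomial.eval (fun i => if i = j then (1 : K) else 0)) h0
    simpa [map_sum] using h1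
  by_contra hcon
  push Not at hcon
  apply hP
  refine MvPolynomial.funext ?_
  intro c
  obtain ⟨v, hv, h0⟩ := hcon c
  rw [map_zero, map_prod]
  refine Finset.prod_eq_zero hv ?_
  rw [map_sum, ← h0]
  refine Finset.sum_congr rfl ?_
  intro i _
  simp [mul_comm]

/-- **Semilocal rings with infinite residue fields have many units.**

Proof.  Let `S` be a finite set of unimodular vectors of `R^n`, `n ≥ 1`; add the vector `(1,0,…,0)`
to `S` (this makes the form surjective: it takes a unit value).  For every maximal ideal `m` the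
images of `v ∈ S` in `(R ⧸ m)^n` are nonzero, because `∑ c i * v i = 1`.  By `exists_form_field`
choose `c_m : Fin n → R ⧸ m` with `∑ c_m i * v i ≠ 0` for `v ∈ S`.  By the Chinese remainder
theorem (`Ideal.quotientInfRingEquivPiQuotient`, or `Ideal.exists_forall_sub_mem_ideal`; distinct
maximal ideals are coprime) there is `c : Fin n → R` with `c i` mapping to `c_m i` for every `m`.
Then `∑ c i * v i` lies in no maximal ideal, so it is a unit, for all `v ∈ S`. -/
theorem manyUnits_of_semilocal {R : Type*} [CommRing R] [Finite (MaximalSpectrum R)]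
    (hinf : ∀ m : MaximalSpectrum R, Infinite (R ⧸ m.asIdeal)) : ManyUnits R := by
  intro n hn S hS
  -- add the first basis vector
  let e : Fin n → R := Pi.single ⟨0, hn⟩ 1
  let T : Finset (Fin n → R) := insert e S
  have hT : ∀ v ∈ T, ∃ c : Fin n → R, ∑ i, c i * v i = 1 := by
    intro v hv
    rcases Finset.mem_insert.1 hv with rfl | hv
    · refine ⟨fun _ => 1, ?_⟩
      simp [e, Pi.single_apply]
    · exact hS v hv
  -- forms over the residue fields
  have hloc : ∀ m : MaximalSpectrum R, ∃ c : Fin n → R,
      ∀ v ∈ T, (∑ i, c i * v i) ∉ m.asIdeal := by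
    intro m
    have hm : m.asIdeal.IsMaximal := m.isMaximal
    let _ : Field (R ⧸ m.asIdeal) := Ideal.Quotient.field m.asIdeal
    have _ : Infinite (R ⧸ m.asIdeal) := hinf m
    obtain ⟨c, hc⟩ := exists_form_field
      (T.image (fun v i => Ideal.Quotient.mk m.asIdeal (v i))) (by
        intro w hw
        obtain ⟨v, hv, rfl⟩ := Finset.mem_image.1 hw
        intro h0
        obtain ⟨c, hc⟩ := hT v hv
        have h1 : Ideal.Quotient.mk m.asIdeal (∑ i, c i * v i) = 1 := by
          rw [hc]; simp
        rw [map_sum] at h1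
        have h2 : ∀ i, Ideal.Quotient.mk m.asIdeal (v i) = 0 := fun i => congrFun h0 i
        simp only [map_mul, h2, mul_zero, Finset.sum_const_zero] at h1
        exact zero_ne_one h1)
    choose c' hc' using fun i => Ideal.Quotient.mk_surjective (c i)
    refine ⟨c', fun v hv hmem => ?_⟩
    refine hc _ (Finset.mem_image_of_mem _ hv) ?_
    have h3 : Ideal.Quotient.mk m.asIdeal (∑ i, c' i * v i) = 0 :=
      Ideal.Quotient.eq_zero_iff_mem.2 hmem
    rw [map_sum] at h3
    simpa only [map_mul, hc'] using h3
  choose cm hcm using hloc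
  -- Chinese remainder theorem
  have hcop : Pairwise (Function.onFun IsCoprime
      (fun m : MaximalSpectrum R => m.asIdeal)) := by
    intro m m' hne
    show IsCoprime m.asIdeal m'.asIdeal
    have h1 : m.asIdeal.IsMaximal := m.isMaximal
    have h2 : m'.asIdeal.IsMaximal := m'.isMaximal
    exact Ideal.isCoprime_of_isMaximal (fun h => hne (MaximalSpectrum.ext h))
  have hcrt : ∀ i : Fin n, ∃ a : R, ∀ m : MaximalSpectrum R, a - cm m i ∈ m.asIdeal := by
    intro i
    exact Ideal.exists_forall_sub_mem_ideal hcop (fun m => cm m i)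
  choose c hc using hcrt
  have hunit : ∀ v ∈ T, IsUnit (∑ i, c i * v i) := by
    intro v hv
    by_contra hnu
    obtain ⟨I, hI, hmem⟩ := exists_max_ideal_of_mem_nonunits hnu
    refine hcm ⟨I, hI⟩ v hv ?_
    have h4 : (∑ i, cm ⟨I, hI⟩ i * v i) =
        (∑ i, c i * v i) - ∑ i, (c i - cm ⟨I, hI⟩ i) * v i := by
      rw [← Finset.sum_sub_distrib]
      refine Finset.sum_congr rfl ?_
      intro i _
      ring
    rw [h4]
    refine Ideal.sub_mem _ hmem ?_
    refine Ideal.sum_mem _ ?_
    intro i _
    exact Ideal.mul_mem_right _ _ (hc i ⟨I, hI⟩)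
  -- the form
  let φ : (Fin n → R) →ₗ[R] R :=
    { toFun := fun v => ∑ i, c i * v i
      map_add' := by
        intro v w
        simp only [Pi.add_apply, mul_add, Finset.sum_add_distrib]
      map_smul' := by
        intro a v
        simp only [Pi.smul_apply, smul_eq_mul, RingHom.id_apply, Finset.mul_sum]
        refine Finset.sum_congr rfl ?_
        intro i _
        ring }
  refine ⟨φ, ?_, ?_⟩
  · have he : IsUnit (φ e) := hunit e (Finset.mem_insert_self _ _)
    obtain ⟨u, hu⟩ := he
    intro y
    refine ⟨(y * ↑u⁻¹) • e, ?_⟩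
    rw [map_smul, ← hu, smul_eq_mul, mul_assoc, Units.inv_mul, mul_one]
  · intro v hv
    exact Or.inr (hunit v (Finset.mem_insert_of_mem hv))

end Pool.Agent.Rognes
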