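import Pool.Agent.Lib_MP_ca431a_cb.Cmp2
import Pool.Agent.Lib_MP_ca431a_cb.PEacy3
import Pool.Agent.Lib_MP_ca431a_cb.Rho
import Pool.Agent.Lib_MP_ca431a_cb.Hyp2
import Pool.Agent.Lib_MP_ca431a_cb.Units

/-!
Assembly (MP_ca431a_al).
-/

open Finsupp
open scoped Classical

namespace Pool.Agent.Rognes

variable {R : Type*} [CommRing R] [IsDomain R] [IsPrincipalIdealRing R]
variable {V : Type*} [AddCommGroup V] [Module R V] [Module.Free R V] [Module.Finite R V]

theorem acy_Pcirc (hR : ManyUnits R) (hn : 2 ≤ Module.finrank R V) {r : ℕ}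
    (hr : r ≠ 2 * Module.finrank R V - 2) : Acy (OC (Pcirc R V)) r := by
  rcases lt_or_gt_of_ne hr with h | h
  · refine acy_of_finite (fun F hF => ?_)
    obtain ⟨E, hE, hrk, hFE⟩ := exists_general_hyperplane hR (by omega) F hF
    exact ⟨PE E, hFE, fun d hd => hd.1, acy_PE hE hrk hn r (by omega)⟩
  · exact acy_Pcirc_high h

theorem acy_CBK (hR : ManyUnits R) (hn : 2 ≤ Module.finrank R V) {r : ℕ}
    (hr : r ≠ 2 * Module.finrank R V - 2) : Acy (CBK R V) r :=
  acy_CBK_of_Pcirc (acy_Pcirc hR hn hr)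

/-- In rank `≤ 1` there are no vertices.
Proof: for `W` adapted to a basis indexed by `Fin n`, `n ≤ 1`, `W = ⊥` or `W = ⊤`. -/
theorem acy_CBK_small (hn : Module.finrank R V ≤ 1) {r : ℕ} (hr : r ≠ 0) :
    Acy (CBK R V) r := by
  intro z hz _
  refine ⟨0, by simp, ?_⟩
  have hz0 : z = 0 := by
    ext l
    by_contra h
    obtain ⟨⟨h1, B, hB⟩, h2⟩ := (mem_CK.1 hz) l h
    obtain ⟨W, hW⟩ : ∃ W, W ∈ l := by
      rcases l with _ | ⟨W, l⟩
      · simp at h2; omega
      · exact ⟨W, by simp⟩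
    obtain ⟨s, hs⟩ := hB W hW
    have hsub : Subsingleton (Fin (Module.finrank R V)) := by
      refine ⟨fun a b => Fin.ext ?_⟩
      have := a.2
      have := b.2
      omega
    rcases s.eq_empty_or_nonempty with h3 | ⟨x, hx⟩
    · subst h3
      exact (h1 W hW).1 (by rw [hs]; simp)
    · have h4 : s = Set.univ := by
        ext y
        rw [Subsingleton.elim y x]
        simp [hx]
      subst h4
      exact (h1 W hW).2 (by rw [hs, Set.image_univ, B.span_eq])
  simp [hz0]

end Pool.Agent.Rognes
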