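import Pool.Agent.Lib_MP_ca431a_cb.Defs
import Pool.Agent.Lib_MP_ca431a_cb.Main

/-!
Translation to the explicit statement (MP_ca431a_al).
-/

open Finsupp
open scoped Classical

namespace Pool.Agent.Rognes

theorem bdL_eq_sum {α : Type*} (l : List α) :
    bdL l = ∑ i ∈ Finset.range l.length, Finsupp.single (l.eraseIdx i) ((-1 : ℤ) ^ i) := by
  induction l with
  | nil => simp
  | cons a l ih =>
    rw [bdL_cons, ih, List.length_cons, Finset.sum_range_succ']
    simp only [List.eraseIdx_cons_succ, List.eraseIdx_cons_zero, pow_zero]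
    rw [map_sum, add_comm, sub_eq_add_neg]
    congr 1
    rw [← Finset.sum_neg_distrib]
    apply Finset.sum_congr rfl
    intro i _
    rw [consM_single, pow_succ, mul_neg, mul_one, Finsupp.single_neg]

theorem boundary_eq_bd {α : Type*} (x : List α →₀ ℤ) : boundary x = bd x := by
  rw [boundary, bd]
  congr 2
  funext l
  exact (bdL_eq_sum l).symm

theorem vanishes_of_acy {α : Type*} {K K' : Set (List α)} (hKK : K = K') {i : ℤ}
    (h : ∀ r : ℕ, (r : ℤ) = i + 1 → Acy K' r) : ReducedHomologyVanishes K i := by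
  subst hKK
  intro z hz hbz
  by_cases hi : 0 ≤ i + 1
  · obtain ⟨r, hr⟩ := Int.eq_ofNat_of_zero_le hi
    have hzK : z ∈ CK K r := by
      rw [mem_CK]
      intro l hl
      have := hz l (Finsupp.mem_support_iff.2 hl)
      exact ⟨this.1, by have := this.2; omega⟩
    obtain ⟨w, hw, hwz⟩ := h r hr.symm z hzK (by rw [← boundary_eq_bd]; exact hbz)
    refine ⟨w, ?_, by rw [boundary_eq_bd]; exact hwz⟩
    intro l hl
    have := (mem_CK.1 hw) l (Finsupp.mem_support_iff.1 hl)
    exact ⟨this.1, by have := this.2; omega⟩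
  · have hz0 : z = 0 := by
      ext l
      by_contra hl
      have := (hz l (Finsupp.mem_support_iff.2 hl)).2
      omega
    exact ⟨0, by simp, by simp [hz0]⟩

section

variable {R : Type*} [CommRing R] [IsDomain R] [IsPrincipalIdealRing R]

/-- The span of the complementary subset of a basis is a complement. -/
theorem Adapted.exists_isCompl {V ι : Type*} [AddCommGroup V] [Module R V]
    {B : Module.Basis ι R V} {W : Submodule R V} (h : Adapted B W) :
    ∃ W' : Submodule R V, IsCompl W W' := by
  obtain ⟨s, rfl⟩ := h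
  refine ⟨Submodule.span R (B '' sᶜ), ?_, ?_⟩
  · exact B.linearIndependent.disjoint_span_image disjoint_compl_right
  · rw [codisjoint_iff, ← Submodule.span_union, ← Set.image_union, Set.union_compl_self,
      Set.image_univ, B.span_eq]

theorem CBTuples_eq (d : ℕ) : CBTuples R d = CBK R (Fin d → R) := by
  have hfr : Module.finrank R (Fin d → R) = d := by simp
  ext l
  constructor
  · rintro ⟨h1, B, hB⟩
    refine ⟨fun W hW => (h1 W hW).2, B.reindex (finCongr hfr.symm), ?_⟩
    intro W hW
    obtain ⟨s, hs⟩ := hB W hW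
    refine ⟨(finCongr hfr.symm) '' s, ?_⟩
    rw [hs, ← Set.image_comp]
    congr 2
    funext i
    simp
  · rintro ⟨h1, B, hB⟩
    refine ⟨fun W hW => ⟨(hB W hW).exists_isCompl, h1 W hW⟩, B.reindex (finCongr hfr), ?_⟩
    intro W hW
    obtain ⟨s, hs⟩ := hB W hW
    refine ⟨(finCongr hfr) '' s, ?_⟩
    rw [hs, ← Set.image_comp]
    congr 2
    funext i
    simp

theorem final (hR : ManyUnits R) (d : ℕ) (hd : 1 ≤ d) (i : ℤ) (hi : i ≠ 2 * (d : ℤ) - 3) :
    ReducedHomologyVanishes (CBTuples R d) i := by
  have hfr : Module.finrank R (Fin d → R) = d := by simp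
  refine vanishes_of_acy (CBTuples_eq d) ?_
  intro r hr
  by_cases h2 : 2 ≤ d
  · refine acy_CBK hR (by omega) ?_
    rw [hfr]
    omega
  · refine acy_CBK_small (by omega) ?_
    omega

end

end Pool.Agent.Rognes
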