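import Pool.Agent.Lib_MP_ca431a_cb.PDBasic
import Pool.Agent.Lib_MP_ca431a_cb.Prism

/-!
PIECE [GoodPart] (MP_ca431a_al).  The good part is contractible.
-/

open Finsupp
open scoped Classical

namespace Pool.Agent.Rognes

variable {R : Type*} [CommRing R] [IsDomain R]
variable {V : Type*} [AddCommGroup V] [Module R V] [Module.IsTorsionFree R V]

/-- The blocks cut by `E`. -/
noncomputable def goodPartCut (E : Submodule R V) (hE : Sat E) (d : PD R V) : PD R V :=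
  ⟨d.bl.biUnion (fun W => if W ⊓ E = ⊥ then ∅ else {W ⊓ E}), by
    refine d.pd.refine _ ?_ ?_
    · intro W hW
      by_cases h : W ⊓ E = ⊥
      · rw [if_pos h]
        exact isPD_empty
      · rw [if_neg h]
        exact isPD_singleton h ((d.pd.sat_of_mem hW).inf hE)
    · intro W hW
      by_cases h : W ⊓ E = ⊥
      · rw [if_pos h]
        simp
      · rw [if_neg h, Finset.sup_singleton]
        exact inf_le_left⟩

theorem mem_goodPartCut {E : Submodule R V} {hE : Sat E} {d : PD R V} {U : Submodule R V} :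
    U ∈ (goodPartCut E hE d).bl ↔ ∃ W ∈ d.bl, W ⊓ E ≠ ⊥ ∧ U = W ⊓ E := by
  show U ∈ d.bl.biUnion (fun W => if W ⊓ E = ⊥ then ∅ else {W ⊓ E}) ↔ _
  rw [Finset.mem_biUnion]
  constructor
  · rintro ⟨W, hW, h⟩
    by_cases h0 : W ⊓ E = ⊥
    · rw [if_pos h0] at h
      exact absurd h (Finset.notMem_empty U)
    · rw [if_neg h0] at h
      exact ⟨W, hW, h0, Finset.mem_singleton.1 h⟩
  · rintro ⟨W, hW, h0, h⟩
    refine ⟨W, hW, ?_⟩
    rw [if_neg h0, h]
    exact Finset.mem_singleton_self _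

theorem goodPartCut_aux {E W : Submodule R V} (h : W ⊓ E ≠ ⊥) : W ⊓ E ⊓ E ≠ ⊥ := by
  rw [inf_assoc, inf_idem]
  exact h

/-- **The good part of `PE E` is acyclic.**

Proof.  For `d : PD R V` let `cut d` be the partial decomposition with blocks the nonzero
`W ⊓ E`, `W ∈ d.bl`: `IsPD.refine` with `s W = if W ⊓ E = ⊥ then ∅ else {W ⊓ E}`
(`isPD_singleton`, `Sat.inf`, `IsPD.sat_of_mem`, `isPD_empty`).  Let
`A = {d | d ∈ PE E ∧ Good E d}`.  For `d ∈ A`: `cut d ∈ A`: nonempty because `d` is good,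
`⊤` is not a block since the blocks are `≤ E ≠ ⊤`, every block `U = W ⊓ E` satisfies
`U ⊓ E = U ≠ ⊥`.  `cut` is monotone, `cut d ≤ d`, `cut d ≤ {E}`, and `{E} ∈ A` (`E ≠ ⊥`, `E ≠ ⊤`,
`E ⊓ E = E ≠ ⊥`).  Conclude by `acy_down`. -/
theorem acy_good (E : Submodule R V) (hE : Sat E) (h0 : E ≠ ⊥) (h1 : E ≠ ⊤) (r : ℕ) :
    Acy (OC {d : PD R V | d ∈ PE E ∧ Good E d}) r := by
  refine acy_down (goodPartCut E hE) ⟨{E}, isPD_singleton h0 hE⟩ ?_ ?_ ?_ ?_ ?_ r
  · refine ⟨⟨⟨Finset.singleton_nonempty E, ?_⟩, ?_⟩, E, Finset.mem_singleton_self E, ?_⟩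
    · intro h
      exact h1 (Finset.mem_singleton.1 h).symm
    · intro W hW h
      rw [Finset.mem_singleton.1 hW, inf_idem] at h
      exact absurd h h0
    · rw [inf_idem]
      exact h0
  · rintro d ⟨⟨⟨-, -⟩, -⟩, W, hW, hWE⟩
    have hmem : W ⊓ E ∈ (goodPartCut E hE d).bl := mem_goodPartCut.2 ⟨W, hW, hWE, rfl⟩
    refine ⟨⟨⟨⟨_, hmem⟩, ?_⟩, ?_⟩, W ⊓ E, hmem, goodPartCut_aux hWE⟩
    · intro h
      obtain ⟨W', -, -, h3⟩ := mem_goodPartCut.1 h
      exact h1 (top_le_iff.1 (h3 ▸ inf_le_right))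
    · intro U hU h
      obtain ⟨W', -, h2, h3⟩ := mem_goodPartCut.1 hU
      rw [h3] at h
      exact absurd h (goodPartCut_aux h2)
  · intro d _ d' _ hdd' U hU
    obtain ⟨W, hW, h2, h3⟩ := mem_goodPartCut.1 hU
    obtain ⟨W', hW', h4⟩ := hdd' W hW
    refine ⟨W' ⊓ E, mem_goodPartCut.2 ⟨W', hW', ?_, rfl⟩, ?_⟩
    · intro h5
      exact h2 (le_bot_iff.1 (h5 ▸ inf_le_inf_right E h4))
    · rw [h3]
      exact inf_le_inf_right E h4
  · intro d _ U hU
    obtain ⟨W, hW, -, h3⟩ := mem_goodPartCut.1 hU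
    refine ⟨W, hW, ?_⟩
    rw [h3]
    exact inf_le_left
  · intro d _ U hU
    obtain ⟨W, hW, -, h3⟩ := mem_goodPartCut.1 hU
    refine ⟨E, Finset.mem_singleton_self E, ?_⟩
    rw [h3]
    exact inf_le_right

end Pool.Agent.Rognes
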