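import Pool.Agent.Lib_MP_ca431a_cb.SatCompl
import Pool.Agent.Lib_MP_ca431a_cb.Defs

/-!
PIECE [Hyp1] (MP_ca431a_al).  From the hypothesis on the ring to a hyperplane in general position.
-/

open Finsupp
open scoped Classical

namespace Pool.Agent.Rognes

variable {R : Type*} [CommRing R] [IsDomain R] [IsPrincipalIdealRing R]
variable {V : Type*} [AddCommGroup V] [Module R V] [Module.Free R V] [Module.Finite R V]

/-- The kernel of a surjective linear form is saturated of corank one. -/
theorem ker_facts (φ : V →ₗ[R] R) (hφ : Function.Surjective φ) :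
    Sat (LinearMap.ker φ) ∧
      Module.finrank R (LinearMap.ker φ) + 1 = Module.finrank R V := by
  refine ⟨fun a x ha hx => ?_, ?_⟩
  · rw [LinearMap.mem_ker] at hx ⊢
    rw [map_smul, smul_eq_mul] at hx
    exact (mul_eq_zero.1 hx).resolve_left ha
  · have h := Submodule.finrank_quotient_add_finrank (LinearMap.ker φ)
    rw [(φ.quotKerEquivOfSurjective hφ).finrank_eq, Module.finrank_self] at h
    omega

/-- A saturated submodule of rank one is spanned by a vector `e` on which some linear form takes
the value `1`.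
Proof: `W` is free of rank one, `W = span {e}`; `W` has a complement (`sat_exists_isCompl`), and the
projection `V → W ≃ R` is the linear form. -/
theorem exists_unimodular_generator {W : Submodule R V} (hW : Sat W)
    (h1 : Module.finrank R W = 1) :
    ∃ e : V, W = Submodule.span R {e} ∧ ∃ ψ : V →ₗ[R] R, ψ e = 1 := by
  obtain ⟨C, hC⟩ := sat_exists_isCompl hW
  have hb : Nonempty (Module.Basis (Fin 1) R W) := ⟨Module.finBasisOfFinrankEq R W h1⟩
  obtain ⟨b⟩ := hb
  refine ⟨(b 0 : V), ?_, (b.coord 0).comp (Submodule.projectionOnto W C hC), ?_⟩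
  · apply le_antisymm
    · intro x hx
      have hx' := b.sum_repr ⟨x, hx⟩
      rw [Fin.sum_univ_one] at hx'
      have h2 := congrArg Subtype.val hx'
      simp only [Submodule.coe_smul] at h2
      rw [← h2]
      exact Submodule.smul_mem _ _ (Submodule.mem_span_singleton_self _)
    · rw [Submodule.span_singleton_le_iff_mem]
      exact (b 0).2
  · rw [LinearMap.comp_apply, Submodule.projectionOnto_apply_left hC (b 0)]
    simp

/-- `ManyUnits` for a free module `V` instead of `Fin n → R`.
Proof: transport along a basis `V ≃ (Fin n → R)`; a linear form `ψ` on `V` with `ψ v = 1` gives the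
coefficients `c i = ψ (b i)`. -/
theorem manyUnits_module (hR : ManyUnits R) (hn : 0 < Module.finrank R V) (S : Finset V)
    (hS : ∀ v ∈ S, ∃ ψ : V →ₗ[R] R, ψ v = 1) :
    ∃ φ : V →ₗ[R] R, Function.Surjective φ ∧ ∀ v ∈ S, φ v = 0 ∨ IsUnit (φ v) := by
  have b : Module.Basis (Fin (Module.finrank R V)) R V := Module.finBasis R V
  obtain ⟨φ, hφ, hv⟩ := hR (Module.finrank R V) hn (S.image fun v => b.equivFun v) (by
    intro w hw
    obtain ⟨v, hv, rfl⟩ := Finset.mem_image.1 hw
    obtain ⟨ψ, hψ⟩ := hS v hv
    refine ⟨fun i => ψ (b i), ?_⟩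
    rw [← hψ]
    conv_rhs => rw [← b.sum_equivFun v]
    rw [map_sum]
    refine Finset.sum_congr rfl fun i _ => ?_
    rw [map_smul, smul_eq_mul, mul_comm])
  refine ⟨φ.comp b.equivFun.toLinearMap, ?_, ?_⟩
  · exact hφ.comp b.equivFun.surjective
  · intro v hvS
    exact hv _ (Finset.mem_image_of_mem _ hvS)

end Pool.Agent.Rognes
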