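import Pool.Agent.Lib_MP_ca431a_cb.CaseA2
import Pool.Agent.Lib_MP_ca431a_cb.CaseB2

/-!
PIECE [LemG] (MP_ca431a_al).  Lemma G.
-/

open Finsupp
open scoped Classical

namespace Pool.Agent.Rognes

variable {R : Type*} [CommRing R] [IsDomain R]
variable {V : Type*} [AddCommGroup V] [Module R V] [Module.IsTorsionFree R V]

omit [IsDomain R] [Module.IsTorsionFree R V] in
/-- If every block of `d` contains a block of `τ`, then `d` has at most as many blocks. -/
theorem lemG_card_le {τ d : PD R V} (hcov : ∀ B ∈ d.bl, ∃ L ∈ τ.bl, L ≤ B) :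
    d.bl.card ≤ τ.bl.card := by
  choose! f hf1 hf2 using hcov
  refine Finset.card_le_card_of_injOn f (fun B hB => hf1 B hB) ?_
  intro B hB B' hB' he
  have hL : f B ≠ ⊥ := τ.ne_bot (hf1 B hB)
  exact d.block_unique hB hB' hL (hf2 B hB) (by
    have := hf2 B' hB'
    rw [he]; exact this)

/-- **Lemma G.**

Proof.  Every block of `d0` contains a block of `τ`, different blocks of `d0` contain different
ones, so `d0.bl.card ≤ τ.bl.card`.  Induction on `n = τ.bl.card - d0.bl.card`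
(for all `d0`, `τ` fixed).
(i) Suppose some block `B1` of `d0` contains exactly one `L1 ∈ τ.bl` and `L1 ≠ B1`: both statements
follow from `caseA`.
(ii) Suppose some block `B` of `d0` contains two different `L1, L2 ∈ τ.bl`.  So
`τ.bl.card ≥ d0.bl.card + 1`.
 - `mrg L1 L2 τ ≠ d0` if `τ.bl.sup id ≠ ⊤` (`mrg_sup`) or if `d0.bl.card + 2 ≤ τ.bl.card`
   (`mrg_card`: `(mrg L1 L2 τ).bl.card + 1 = τ.bl.card`).
 - Every `d ∈ GG E τ d0` with `mrg d = d0` has `d.bl.sup id = ⊤` (`mrg_sup`), `τ ≤ d`,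
   `d.bl.card = d0.bl.card + 1` (`mrg_card`, `bad_struct`), and every block of `d` contains a block of
   `τ` (`bad_struct`), so the induction hypothesis applies to `d`.
 - In degree `r + 1`: `caseB`; for (b) from `r + 1 + d0.bl.card + 2 ≤ τ.bl.card` we get
   `r + d.bl.card + 2 ≤ τ.bl.card`.  In degree `0`: `mrg L1 L2 τ ∈ GG E τ d0` (`mrg_mem_GG` with
   `d = τ`) and `acy_zero`.
(iii) If neither (i) nor (ii) occurs, every block `B` of `d0` contains exactly one `L ∈ τ.bl` and is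
equal to it, so `d0.bl ⊆ τ.bl`, and `d0 = τ` since `τ ≤ d0`: then `τ.bl.sup id = ⊤` (so (a) is void)
and the inequality in (b) is false. -/
theorem lemG (E : Submodule R V) (hE : Sat E) (τ d0 : PD R V)
    (hbad : ∀ L ∈ τ.bl, IsCompl L E) (hfull : d0.bl.sup id = ⊤) (hle : τ ≤ d0)
    (hcov : ∀ B ∈ d0.bl, ∃ L ∈ τ.bl, L ≤ B) :
    (τ.bl.sup id ≠ ⊤ → ∀ r, Acy (OC (GG E τ d0)) r) ∧
    (τ.bl.sup id = ⊤ → ∀ r, r + d0.bl.card + 2 ≤ τ.bl.card → Acy (OC (GG E τ d0)) r) := by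
  induction hn : τ.bl.card - d0.bl.card using Nat.strong_induction_on generalizing d0 with
  | _ n ih =>
  by_cases hi : ∃ B1 ∈ d0.bl, ∃ L1 ∈ τ.bl, L1 ≤ B1 ∧ L1 ≠ B1 ∧ ∀ L ∈ τ.bl, L ≤ B1 → L = L1
  · obtain ⟨B1, hB1, L1, hL1, h1, hne, huniq⟩ := hi
    exact ⟨fun _ r => caseA E hE τ d0 hbad hle hB1 hL1 h1 hne huniq r,
      fun _ r _ => caseA E hE τ d0 hbad hle hB1 hL1 h1 hne huniq r⟩
  by_cases hii : ∃ B ∈ d0.bl, ∃ L1 ∈ τ.bl, ∃ L2 ∈ τ.bl, L1 ≠ L2 ∧ L1 ≤ B ∧ L2 ≤ B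
  · obtain ⟨B, hB, L1, hL1, L2, hL2, hne, h1, h2⟩ := hii
    have hL1b := τ.ne_bot hL1
    have hL2b := τ.ne_bot hL2
    -- the general step
    have hdeg0 : mrg L1 L2 τ ≠ d0 → Acy (OC (GG E τ d0)) 0 := fun hm =>
      acy_zero (mrg_mem_GG hbad hB hL1 hL2 hne h1 h2 (fun W hW _ => hbad W hW) le_rfl hle hm)
    -- the bad elements
    have hd : ∀ d, d ∈ GG E τ d0 → mrg L1 L2 d = d0 →
        d.bl.sup id = ⊤ ∧ τ ≤ d ∧ d.bl.card = d0.bl.card + 1 ∧ (∀ C ∈ d.bl, ∃ L ∈ τ.bl, L ≤ C) := by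
      intro d hd hm
      have hτd : τ ≤ d := (mem_GG.1 hd).2.2.1
      obtain ⟨W1, W2, hW, hLW1, hLW2, hsup, hbl⟩ := bad_struct hB hL1 hL2 h1 h2 hd hm
      have hW1 : W1 ∈ d.bl := (hbl W1).2 (Or.inl rfl)
      have hW2 : W2 ∈ d.bl := (hbl W2).2 (Or.inr (Or.inl rfl))
      refine ⟨?_, hτd, ?_, ?_⟩
      · rw [← mrg_sup (L1 := L1) (L2 := L2) d, hm]; exact hfull
      · have := mrg_card (L1 := L1) (L2 := L2) hL1b hL2b hW1 hLW1 hW2 hLW2 hW
        rw [hm] at this
        exact this.symm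
      · intro C hC
        rcases (hbl C).1 hC with rfl | rfl | ⟨hC', _⟩
        · exact ⟨L1, hL1, hLW1⟩
        · exact ⟨L2, hL2, hLW2⟩
        · exact hcov C hC'
    have hlt : ∀ d, d ∈ GG E τ d0 → mrg L1 L2 d = d0 → τ.bl.card - d.bl.card < n := by
      intro d hd1 hm
      obtain ⟨_, _, hc, hcov'⟩ := hd d hd1 hm
      have := lemG_card_le hcov'
      omega
    constructor
    · intro hs r
      have hm : mrg L1 L2 τ ≠ d0 := by
        intro h
        apply hs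
        rw [← mrg_sup (L1 := L1) (L2 := L2) τ, h]; exact hfull
      cases r with
      | zero => exact hdeg0 hm
      | succ r =>
        refine caseB E τ d0 hbad hle hB hL1 hL2 hne h1 h2 hm ?_
        intro d hd1 hm1
        obtain ⟨hf, hτd, _, hcov'⟩ := hd d hd1 hm1
        exact (ih _ (hlt d hd1 hm1) d hf hτd hcov' rfl).1 hs r
    · intro hs r hr
      have hm : mrg L1 L2 τ ≠ d0 := by
        intro h
        have := mrg_card (L1 := L1) (L2 := L2) hL1b hL2b hL1 le_rfl hL2 le_rfl hne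
        rw [h] at this
        omega
      cases r with
      | zero => exact hdeg0 hm
      | succ r =>
        refine caseB E τ d0 hbad hle hB hL1 hL2 hne h1 h2 hm ?_
        intro d hd1 hm1
        obtain ⟨hf, hτd, hc, hcov'⟩ := hd d hd1 hm1
        exact (ih _ (hlt d hd1 hm1) d hf hτd hcov' rfl).2 hs r (by omega)
  · have hsub : ∀ B ∈ d0.bl, B ∈ τ.bl := by
      intro B hB
      obtain ⟨L, hL, hLB⟩ := hcov B hB
      by_cases hLB' : L = B
      · exact hLB' ▸ hL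
      · exfalso
        apply hi
        refine ⟨B, hB, L, hL, hLB, hLB', ?_⟩
        intro L' hL' hL'B
        by_contra hne
        exact hii ⟨B, hB, L', hL', L, hL, hne, hL'B, hLB⟩
    have heq : d0 = τ := le_antisymm ((PD.le_def _ _).2 fun W hW => ⟨W, hsub W hW, le_rfl⟩) hle
    constructor
    · intro hs
      exact absurd (heq ▸ hfull) hs
    · intro _ r hr
      rw [heq] at hr
      omega

end Pool.Agent.Rognes
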