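import Pool.Agent.Lib_MP_ca431a_cb.PDBasic

/-!
PIECE [Merge] (MP_ca431a_al).  Merging the blocks which contain `L1` or `L2`.
-/

open Finsupp
open scoped Classical

namespace Pool.Agent.Rognes

variable {R : Type*} [CommRing R] [IsDomain R]
variable {V : Type*} [AddCommGroup V] [Module R V] [Module.IsTorsionFree R V]

/-- `W` contains `L1` or `L2`. -/
def Has (L1 L2 W : Submodule R V) : Prop := L1 ≤ W ∨ L2 ≤ W

/-- Merge the blocks containing `L1` or `L2`. -/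
noncomputable def mrg (L1 L2 : Submodule R V) (d : PD R V) : PD R V :=
  if h : (d.bl.filter (Has L1 L2)).Nonempty then
    ⟨coll d.bl (Has L1 L2), d.pd.collapse _ h⟩
  else d

/-- The merged block. -/
noncomputable def mblk (L1 L2 : Submodule R V) (d : PD R V) : Submodule R V :=
  (d.bl.filter (Has L1 L2)).sup id

variable {L1 L2 : Submodule R V}

theorem Has.mono {L1 L2 W W' : Submodule R V} (h : Has L1 L2 W) (hle : W ≤ W') :
    Has L1 L2 W' := by
  rcases h with h | h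
  · exact Or.inl (h.trans hle)
  · exact Or.inr (h.trans hle)

theorem mem_mrg_aux {d : PD R V} (hn : (d.bl.filter (Has L1 L2)).Nonempty)
    (W : Submodule R V) :
    W ∈ (mrg L1 L2 d).bl ↔ W = mblk L1 L2 d ∨ (W ∈ d.bl ∧ ¬ Has L1 L2 W) := by
  rw [mrg, dif_pos hn]
  show W ∈ coll d.bl (Has L1 L2) ↔ _
  rw [coll, Finset.mem_insert, Finset.mem_filter]
  rfl

theorem mrg_neg {d : PD R V} (hn : ¬ (d.bl.filter (Has L1 L2)).Nonempty) :
    mrg L1 L2 d = d := by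
  rw [mrg, dif_neg hn]

theorem le_mblk {d : PD R V} {W : Submodule R V} (hW : W ∈ d.bl) (h : Has L1 L2 W) :
    W ≤ mblk L1 L2 d :=
  Finset.le_sup (f := id) (Finset.mem_filter.2 ⟨hW, h⟩)

theorem filter_Has_eq {d : PD R V} (h1 : L1 ≠ ⊥) (h2 : L2 ≠ ⊥) {W1 W2 : Submodule R V}
    (hW1 : W1 ∈ d.bl) (hL1 : L1 ≤ W1) (hW2 : W2 ∈ d.bl) (hL2 : L2 ≤ W2) :
    d.bl.filter (Has L1 L2) = {W1, W2} := by
  ext W
  rw [Finset.mem_filter, Finset.mem_insert, Finset.mem_singleton]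
  constructor
  · rintro ⟨hW, h | h⟩
    · exact Or.inl (d.block_unique hW hW1 h1 h hL1)
    · exact Or.inr (d.block_unique hW hW2 h2 h hL2)
  · rintro (rfl | rfl)
    · exact ⟨hW1, Or.inl hL1⟩
    · exact ⟨hW2, Or.inr hL2⟩

/-- Proof: unfold (`W1` witnesses that the filter is nonempty). -/
theorem mem_mrg {d : PD R V} {W1 : Submodule R V} (hW1 : W1 ∈ d.bl) (h1 : L1 ≤ W1)
    (W : Submodule R V) :
    W ∈ (mrg L1 L2 d).bl ↔ W = mblk L1 L2 d ∨ (W ∈ d.bl ∧ ¬ Has L1 L2 W) := by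
  exact mem_mrg_aux ⟨W1, Finset.mem_filter.2 ⟨hW1, Or.inl h1⟩⟩ W

/-- If `W1 ⊇ L1`, `W2 ⊇ L2` are blocks of `d` (`L1, L2 ≠ ⊥`), the merged block is `W1 ⊔ W2`.
Proof: by `PD.block_unique` the filter is `{W1, W2}`. -/
theorem mblk_eq {d : PD R V} (h1 : L1 ≠ ⊥) (h2 : L2 ≠ ⊥) {W1 W2 : Submodule R V}
    (hW1 : W1 ∈ d.bl) (hL1 : L1 ≤ W1) (hW2 : W2 ∈ d.bl) (hL2 : L2 ≤ W2) :
    mblk L1 L2 d = W1 ⊔ W2 := by
  rw [mblk, filter_Has_eq h1 h2 hW1 hL1 hW2 hL2, Finset.sup_insert, Finset.sup_singleton]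
  rfl

/-- `d ≤ mrg d`. -/
theorem le_mrg (d : PD R V) : d ≤ mrg L1 L2 d := by
  intro W hW
  by_cases h : (d.bl.filter (Has L1 L2)).Nonempty
  · by_cases hP : Has L1 L2 W
    · exact ⟨mblk L1 L2 d, (mem_mrg_aux h _).2 (Or.inl rfl), le_mblk hW hP⟩
    · exact ⟨W, (mem_mrg_aux h _).2 (Or.inr ⟨hW, hP⟩), le_rfl⟩
  · rw [mrg_neg h]
    exact ⟨W, hW, le_rfl⟩

/-- `mrg` is monotone.
Proof: if the filter of `d` is empty, `mrg d = d ≤ d' ≤ mrg d'`.  Otherwise, a block `W` of `d`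
with `L1 ≤ W` (or `L2 ≤ W`) lies in a block `W'` of `d'` with the same property, so the merged block
of `d` is inside the merged block of `d'`; a block `W` without the property lies in some `W'` of
`d'`, which is inside the merged block or is a block of `mrg d'`. -/
theorem mrg_mono {d d' : PD R V} (h : d ≤ d') : mrg L1 L2 d ≤ mrg L1 L2 d' := by
  by_cases hn : (d.bl.filter (Has L1 L2)).Nonempty
  · have hn' : (d'.bl.filter (Has L1 L2)).Nonempty := by
      obtain ⟨W, hW⟩ := hn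
      rw [Finset.mem_filter] at hW
      obtain ⟨W', hW', hle⟩ := h W hW.1
      exact ⟨W', Finset.mem_filter.2 ⟨hW', hW.2.mono hle⟩⟩
    intro W hW
    rcases (mem_mrg_aux hn _).1 hW with rfl | ⟨hW, hP⟩
    · refine ⟨mblk L1 L2 d', (mem_mrg_aux hn' _).2 (Or.inl rfl), ?_⟩
      refine Finset.sup_le fun U hU => ?_
      rw [Finset.mem_filter] at hU
      obtain ⟨U', hU', hle⟩ := h U hU.1
      exact hle.trans (le_mblk hU' (hU.2.mono hle))
    · obtain ⟨W', hW', hle⟩ := h W hW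
      obtain ⟨W'', h2, h3⟩ := le_mrg d' W' hW'
      exact ⟨W'', h2, hle.trans h3⟩
  · rw [mrg_neg hn]
    exact h.trans (le_mrg d')

/-- `mrg (mrg d) = mrg d` if `L1` lies in a block of `d` and `L2` lies in a block of `d`.
Proof: the only block of `mrg d` containing `L1` or `L2` is the merged block. -/
theorem mrg_idem {d : PD R V} {W1 W2 : Submodule R V}
    (hW1 : W1 ∈ d.bl) (hL1 : L1 ≤ W1) (hW2 : W2 ∈ d.bl) (hL2 : L2 ≤ W2) :
    mrg L1 L2 (mrg L1 L2 d) = mrg L1 L2 d := by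
  have hHas : Has L1 L2 (mblk L1 L2 d) := Or.inl (hL1.trans (le_mblk hW1 (Or.inl hL1)))
  have hf : (mrg L1 L2 d).bl.filter (Has L1 L2) = {mblk L1 L2 d} := by
    ext W
    rw [Finset.mem_filter, mem_mrg hW1 hL1, Finset.mem_singleton]
    constructor
    · rintro ⟨h | ⟨_, h⟩, h'⟩
      · exact h
      · exact absurd h' h
    · rintro rfl
      exact ⟨Or.inl rfl, hHas⟩
  have hn : ((mrg L1 L2 d).bl.filter (Has L1 L2)).Nonempty := by
    rw [hf]
    exact Finset.singleton_nonempty _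
  have hm : mblk L1 L2 (mrg L1 L2 d) = mblk L1 L2 d := by
    show ((mrg L1 L2 d).bl.filter (Has L1 L2)).sup id = _
    rw [hf, Finset.sup_singleton]
    rfl
  apply PD.ext
  ext W
  rw [mem_mrg_aux hn, hm, mem_mrg hW1 hL1]
  constructor
  · rintro (h | ⟨h, h'⟩)
    · exact Or.inl h
    · exact h
  · rintro (h | ⟨h, h'⟩)
    · exact Or.inl h
    · exact Or.inr ⟨Or.inr ⟨h, h'⟩, h'⟩

/-- If `L1`, `L2` lie in one block `B` of `d0`, and `d ≤ d0`, then `mrg d ≤ d0`.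
Proof: a block of `d` containing `L1` (or `L2`) lies in a block of `d0`, which is `B` by
`PD.block_unique`; so the merged block is inside `B`. -/
theorem mrg_le {d d0 : PD R V} (h : d ≤ d0) (h1 : L1 ≠ ⊥) (h2 : L2 ≠ ⊥) {B : Submodule R V}
    (hB : B ∈ d0.bl) (hL1 : L1 ≤ B) (hL2 : L2 ≤ B) : mrg L1 L2 d ≤ d0 := by
  by_cases hn : (d.bl.filter (Has L1 L2)).Nonempty
  · intro W hW
    rcases (mem_mrg_aux hn _).1 hW with rfl | ⟨hW, hP⟩
    · refine ⟨B, hB, Finset.sup_le fun U hU => ?_⟩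
      rw [Finset.mem_filter] at hU
      obtain ⟨U', hU', hle⟩ := h U hU.1
      rcases hU.2 with h3 | h3
      · rw [d0.block_unique hU' hB h1 (h3.trans hle) hL1] at hle
        exact hle
      · rw [d0.block_unique hU' hB h2 (h3.trans hle) hL2] at hle
        exact hle
    · exact h W hW
  · rw [mrg_neg hn]
    exact h

/-- `mrg` does not change the total sum (`coll_sup`). -/
theorem mrg_sup (d : PD R V) : (mrg L1 L2 d).bl.sup id = d.bl.sup id := by
  by_cases hn : (d.bl.filter (Has L1 L2)).Nonempty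
  · rw [mrg, dif_pos hn]
    exact coll_sup _ _
  · rw [mrg_neg hn]

/-- If `L1, L2` lie in the same block then `mrg d = d`. -/
theorem mrg_eq_self {d : PD R V} (h1 : L1 ≠ ⊥) (h2 : L2 ≠ ⊥) {W : Submodule R V}
    (hW : W ∈ d.bl) (hL1 : L1 ≤ W) (hL2 : L2 ≤ W) : mrg L1 L2 d = d := by
  apply PD.ext
  ext U
  rw [mem_mrg hW hL1, mblk_eq h1 h2 hW hL1 hW hL2, sup_idem]
  constructor
  · rintro (rfl | ⟨h, _⟩)
    · exact hW
    · exact h
  · intro hU
    by_cases hP : Has L1 L2 U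
    · rcases hP with h | h
      · exact Or.inl (d.block_unique hU hW h1 h hL1)
      · exact Or.inl (d.block_unique hU hW h2 h hL2)
    · exact Or.inr ⟨hU, hP⟩

/-- If `L1 ≤ W1`, `L2 ≤ W2`, `W1 ≠ W2` blocks of `d`, then `mrg d` has one block less.
Proof: `mrg d = insert (W1 ⊔ W2) (d.bl \ {W1, W2})`, and `W1 ⊔ W2` is not a block of `d`
(it would be equal to `W1` by `PD.block_unique`, and to `W2`). -/
theorem mrg_card {d : PD R V} (h1 : L1 ≠ ⊥) (h2 : L2 ≠ ⊥) {W1 W2 : Submodule R V}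
    (hW1 : W1 ∈ d.bl) (hL1 : L1 ≤ W1) (hW2 : W2 ∈ d.bl) (hL2 : L2 ≤ W2) (hne : W1 ≠ W2) :
    (mrg L1 L2 d).bl.card + 1 = d.bl.card := by
  have hn : (d.bl.filter (Has L1 L2)).Nonempty :=
    ⟨W1, Finset.mem_filter.2 ⟨hW1, Or.inl hL1⟩⟩
  have hbl : (mrg L1 L2 d).bl =
      insert (mblk L1 L2 d) (d.bl.filter (fun W => ¬ Has L1 L2 W)) := by
    rw [mrg, dif_pos hn]
    rfl
  have hnot : mblk L1 L2 d ∉ d.bl.filter (fun W => ¬ Has L1 L2 W) := by
    intro h
    exact (Finset.mem_filter.1 h).2 (Or.inl (hL1.trans (le_mblk hW1 (Or.inl hL1))))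
  have hc := Finset.card_filter_add_card_filter_not (s := d.bl) (Has L1 L2)
  rw [filter_Has_eq h1 h2 hW1 hL1 hW2 hL2, Finset.card_pair hne] at hc
  rw [hbl, Finset.card_insert_of_notMem hnot]
  omega

end Pool.Agent.Rognes
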