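import Pool.Agent.Lib_MP_ca431a_cb.Chain

/-!
# Partial decompositions (MP_ca431a_al)

`Sat U`: the submodule `U` is saturated.  `IsPD s`: the finite set `s` of submodules is a partial
decomposition: its members are nonzero, independent, and their sum is saturated.
`PD R V`: the type of partial decompositions, ordered by refinement
(`d ≤ d'` iff every block of `d` lies in a block of `d'`).
-/

open Finsupp
open scoped Classical

namespace Pool.Agent.Rognes

variable {R : Type*} [CommRing R] {V : Type*} [AddCommGroup V] [Module R V]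

/-- `U` is a saturated submodule of `V`. -/
def Sat (U : Submodule R V) : Prop := ∀ (a : R) (x : V), a ≠ 0 → a • x ∈ U → x ∈ U

theorem Sat.inf {U W : Submodule R V} (hU : Sat U) (hW : Sat W) : Sat (U ⊓ W) :=
  fun a x ha hx => ⟨hU a x ha hx.1, hW a x ha hx.2⟩

theorem sat_top : Sat (⊤ : Submodule R V) := fun _ _ _ _ => Submodule.mem_top

/-- A partial decomposition as a finite set of submodules. -/
structure IsPD (s : Finset (Submodule R V)) : Prop where
  ne : ⊥ ∉ s
  ind : s.SupIndep id
  sat : Sat (s.sup id)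

variable (R V) in
/-- The partial decompositions of `V`. -/
@[ext]
structure PD where
  bl : Finset (Submodule R V)
  pd : IsPD bl

namespace PD

theorem ne_bot (d : PD R V) {W : Submodule R V} (hW : W ∈ d.bl) : W ≠ ⊥ :=
  fun h => d.pd.ne (h ▸ hW)

/-- Two blocks with a common nonzero submodule are equal. -/
theorem block_unique (d : PD R V) {W W' U : Submodule R V} (hW : W ∈ d.bl) (hW' : W' ∈ d.bl)
    (hU : U ≠ ⊥) (h : U ≤ W) (h' : U ≤ W') : W = W' := by
  by_contra hne
  have := d.pd.ind.pairwiseDisjoint (Finset.mem_coe.2 hW) (Finset.mem_coe.2 hW') hne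
  exact hU (le_bot_iff.1 (this h h'))

/-- Refinement order. -/
instance : PartialOrder (PD R V) where
  le d d' := ∀ W ∈ d.bl, ∃ W' ∈ d'.bl, W ≤ W'
  le_refl d W hW := ⟨W, hW, le_rfl⟩
  le_trans a b c hab hbc W hW := by
    obtain ⟨W', hW', h1⟩ := hab W hW
    obtain ⟨W'', hW'', h2⟩ := hbc W' hW'
    exact ⟨W'', hW'', h1.trans h2⟩
  le_antisymm a b hab hba := by
    have key : ∀ a b : PD R V, (∀ W ∈ a.bl, ∃ W' ∈ b.bl, W ≤ W') →
        (∀ W ∈ b.bl, ∃ W' ∈ a.bl, W ≤ W') → a.bl ⊆ b.bl := by
      intro a b hab hba W hW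
      obtain ⟨W', hW', h1⟩ := hab W hW
      obtain ⟨W'', hW'', h2⟩ := hba W' hW'
      have : W = W'' := a.block_unique hW hW'' (a.ne_bot hW) le_rfl (h1.trans h2)
      subst this
      have : W = W' := le_antisymm h1 h2
      subst this
      exact hW'
    exact PD.ext (Finset.Subset.antisymm (key a b hab hba) (key b a hba hab))

theorem le_def (d d' : PD R V) : d ≤ d' ↔ ∀ W ∈ d.bl, ∃ W' ∈ d'.bl, W ≤ W' := Iff.rfl

theorem sup_mono_of_le {d d' : PD R V} (h : d ≤ d') : d.bl.sup id ≤ d'.bl.sup id := by
  refine Finset.sup_le ?_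
  intro W hW
  obtain ⟨W', hW', h1⟩ := h W hW
  exact h1.trans (Finset.le_sup (f := id) hW')

/-- If `⊤` is a block, it is the only block. -/
theorem eq_singleton_top (d : PD R V) (h : ⊤ ∈ d.bl) : d.bl = {⊤} := by
  ext W
  rw [Finset.mem_singleton]
  constructor
  · intro hW
    exact d.block_unique hW h (d.ne_bot hW) le_rfl le_top
  · rintro rfl; exact h

end PD

/-- Proper nonempty partial decompositions: the poset `P°`. -/
def Pcirc (R V : Type*) [CommRing R] [AddCommGroup V] [Module R V] : Set (PD R V) :=
  {d | d.bl.Nonempty ∧ ⊤ ∉ d.bl}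

/-- The part of `P°` in general position to `E`: blocks meeting `E` trivially are complements
of `E`. -/
def PE (E : Submodule R V) : Set (PD R V) :=
  {d | d ∈ Pcirc R V ∧ ∀ W ∈ d.bl, W ⊓ E = ⊥ → IsCompl W E}

/-- `d` has a block which meets `E` nontrivially. -/
def Good (E : Submodule R V) (d : PD R V) : Prop := ∃ W ∈ d.bl, W ⊓ E ≠ ⊥

/-- The good elements strictly below `d0` and above `τ`. -/
def GG (E : Submodule R V) (τ d0 : PD R V) : Set (PD R V) :=
  {d | d ∈ PE E ∧ Good E d ∧ τ ≤ d ∧ d ≤ d0 ∧ d ≠ d0}

theorem mem_Pcirc {d : PD R V} : d ∈ Pcirc R V ↔ d.bl.Nonempty ∧ ⊤ ∉ d.bl := Iff.rfl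

theorem mem_PE {E : Submodule R V} {d : PD R V} :
    d ∈ PE E ↔ d ∈ Pcirc R V ∧ ∀ W ∈ d.bl, W ⊓ E = ⊥ → IsCompl W E := Iff.rfl

theorem mem_GG {E : Submodule R V} {τ d0 d : PD R V} :
    d ∈ GG E τ d0 ↔ d ∈ PE E ∧ Good E d ∧ τ ≤ d ∧ d ≤ d0 ∧ d ≠ d0 := Iff.rfl

theorem Good.mono {E : Submodule R V} {d d' : PD R V} (h : Good E d) (hle : d ≤ d') :
    Good E d' := by
  obtain ⟨W, hW, h1⟩ := h
  obtain ⟨W', hW', h2⟩ := hle W hW
  refine ⟨W', hW', fun h3 => h1 ?_⟩
  exact le_bot_iff.1 (h3 ▸ inf_le_inf_right E h2)

/-- Merge the blocks satisfying `P` into one block. -/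
noncomputable def coll (s : Finset (Submodule R V)) (P : Submodule R V → Prop) :
    Finset (Submodule R V) :=
  insert ((s.filter P).sup id) (s.filter (fun W => ¬ P W))

theorem coll_sup (s : Finset (Submodule R V)) (P : Submodule R V → Prop) :
    (coll s P).sup id = s.sup id := by
  rw [coll, Finset.sup_insert]
  have : s.sup id = (s.filter P ∪ s.filter (fun W => ¬ P W)).sup id := by
    rw [Finset.filter_union_filter_not_eq]
  rw [this, Finset.sup_union]
  rfl

theorem isPD_singleton {W : Submodule R V} (h0 : W ≠ ⊥) (hs : Sat W) :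
    IsPD ({W} : Finset (Submodule R V)) := by
  refine ⟨?_, by simp, by simpa using hs⟩
  intro h
  exact h0 (Finset.mem_singleton.1 h).symm

theorem isPD_pair {W W' : Submodule R V} (h0 : W ≠ ⊥) (h0' : W' ≠ ⊥) (hd : Disjoint W W')
    (hs : Sat (W ⊔ W')) : IsPD ({W, W'} : Finset (Submodule R V)) := by
  have hne : W ≠ W' := by
    rintro rfl
    exact h0 (disjoint_self.1 hd)
  refine ⟨?_, ?_, by simpa using hs⟩
  · intro h
    rcases Finset.mem_insert.1 h with h | h
    · exact h0 h.symm
    · exact h0' (Finset.mem_singleton.1 h).symm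
  · rw [Finset.supIndep_pair hne]
    exact hd

section torsionfree

variable [IsDomain R] [Module.IsTorsionFree R V]

/-- A subset of a partial decomposition is a partial decomposition. -/
theorem IsPD.subset {s t : Finset (Submodule R V)} (h : IsPD s) (hts : t ⊆ s) : IsPD t := by
  refine ⟨fun hb => h.ne (hts hb), h.ind.subset hts, ?_⟩
  intro a x ha hx
  have hdis : Disjoint (t.sup id) ((s \ t).sup id) :=
    h.ind.disjoint_sup_sup hts Finset.sdiff_subset (Finset.disjoint_sdiff)
  have hs : s.sup id = t.sup id ⊔ (s \ t).sup id := by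
    rw [← Finset.sup_union, Finset.union_sdiff_of_subset hts]
  have hxs : x ∈ s.sup id := h.sat a x ha (by rw [hs]; exact Submodule.mem_sup_left hx)
  rw [hs] at hxs
  obtain ⟨u, hu, v, hv, rfl⟩ := Submodule.mem_sup.1 hxs
  have h1 : a • v ∈ t.sup id := by
    have : a • v = a • (u + v) - a • u := by rw [smul_add]; abel
    rw [this]
    exact Submodule.sub_mem _ hx (Submodule.smul_mem _ _ hu)
  have h2 : a • v ∈ (s \ t).sup id := Submodule.smul_mem _ _ hv
  have h3 : a • v = 0 := by
    have := hdis.le_bot ⟨h1, h2⟩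
    simpa using this
  have h4 : v = 0 := by
    rcases smul_eq_zero.1 h3 with h | h
    · exact absurd h ha
    · exact h
  subst h4
  simpa using hu

theorem IsPD.sat_of_mem {s : Finset (Submodule R V)} (h : IsPD s) {W : Submodule R V}
    (hW : W ∈ s) : Sat W := by
  have := (h.subset (Finset.singleton_subset_iff.2 hW)).sat
  simpa using this

theorem isPD_empty : IsPD (∅ : Finset (Submodule R V)) := by
  refine ⟨by simp, by simp, ?_⟩
  intro a x ha hx
  simp only [Finset.sup_empty, Submodule.mem_bot] at hx ⊢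
  rcases smul_eq_zero.1 hx with h | h
  · exact absurd h ha
  · exact h

/-- Refinement: replace every block `W` of `d` by a partial decomposition `s W` inside `W`. -/
theorem IsPD.refine {d : Finset (Submodule R V)} (hd : IsPD d)
    (s : Submodule R V → Finset (Submodule R V)) (hs : ∀ W ∈ d, IsPD (s W))
    (hle : ∀ W ∈ d, (s W).sup id ≤ W) : IsPD (d.biUnion s) := by
  have hind : d.SupIndep fun W => (s W).sup id := hd.ind.mono hle
  refine ⟨?_, ?_, ?_⟩
  · intro h
    rw [Finset.mem_biUnion] at h
    obtain ⟨W, hW, h⟩ := h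
    exact (hs W hW).ne h
  · exact Finset.SupIndep.biUnion hind (fun W hW => (hs W hW).ind)
  · -- saturation: induction over subsets of `d`
    have key : ∀ t : Finset (Submodule R V), t ⊆ d → Sat ((t.biUnion s).sup id) := by
      intro t
      induction t using Finset.induction_on with
      | empty => intro _; exact isPD_empty.sat
      | insert W t hWt ih =>
        intro hsub
        have hWd : W ∈ d := hsub (Finset.mem_insert_self _ _)
        have htd : t ⊆ d := fun x hx => hsub (Finset.mem_insert_of_mem hx)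
        have ih' := ih htd
        rw [Finset.biUnion_insert, Finset.sup_union]
        intro a x ha hx
        have hle1 : (t.biUnion s).sup id ≤ t.sup id := by
          rw [Finset.sup_biUnion]
          exact Finset.sup_mono_fun (fun W' hW' => hle W' (htd hW'))
        have hle2 : (s W).sup id ⊔ (t.biUnion s).sup id ≤ (insert W t).sup id := by
          rw [Finset.sup_insert]
          exact sup_le_sup (hle W hWd) hle1
        have hx' : x ∈ (insert W t).sup id :=
          (hd.subset hsub).sat a x ha (hle2 hx)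
        rw [Finset.sup_insert] at hx'
        obtain ⟨u, hu, v, hv, rfl⟩ := Submodule.mem_sup.1 hx'
        obtain ⟨u', hu', v', hv', huv⟩ := Submodule.mem_sup.1 hx
        have hdis : Disjoint W (t.sup id) := hd.ind htd hWd hWt
        have h1 : a • u - u' = v' - a • v := by
          have : u' + v' = a • u + a • v := by rw [huv, smul_add]
          have h2 : v' = a • u + a • v - u' := by rw [← this]; abel
          rw [h2]; abel
        have hW1 : a • u - u' ∈ W :=
          Submodule.sub_mem _ (Submodule.smul_mem _ _ hu) (hle W hWd hu')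
        have hW2 : v' - a • v ∈ t.sup id :=
          Submodule.sub_mem _ (hle1 hv') (Submodule.smul_mem _ _ hv)
        have h0 : a • u - u' = 0 := by
          have := hdis.le_bot ⟨hW1, h1 ▸ hW2⟩
          simpa using this
        have h3 : a • u = u' := sub_eq_zero.1 h0
        have h4 : v' = a • v := by rw [h0] at h1; exact sub_eq_zero.1 h1.symm
        have h5 : u ∈ (s W).sup id := (hs W hWd).sat a u ha (by rw [h3]; exact hu')
        have h6 : v ∈ (t.biUnion s).sup id := ih' a v ha (by rw [← h4]; exact hv')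
        exact Submodule.add_mem_sup h5 h6
    exact key d (Finset.Subset.refl d)


theorem IsPD.collapse {s : Finset (Submodule R V)} (h : IsPD s) (P : Submodule R V → Prop)
    (hne : (s.filter P).Nonempty) : IsPD (coll s P) := by
  have hdis : Disjoint ((s.filter P).sup id) ((s.filter (fun W => ¬ P W)).sup id) :=
    h.ind.disjoint_sup_sup (Finset.filter_subset _ _) (Finset.filter_subset _ _)
      (Finset.disjoint_filter_filter_not _ _ _)
  refine ⟨?_, ?_, ?_⟩
  · intro hb
    rcases Finset.mem_insert.1 hb with hb | hb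
    · obtain ⟨W, hW⟩ := hne
      have : W ≤ ⊥ := by rw [hb]; exact Finset.le_sup (f := id) hW
      rw [le_bot_iff] at this
      exact h.ne (this ▸ (Finset.mem_filter.1 hW).1)
    · exact h.ne (Finset.mem_filter.1 hb).1
  · exact (h.ind.subset (Finset.filter_subset _ _)).insert hdis
  · rw [coll_sup]
    exact h.sat

end torsionfree

end Pool.Agent.Rognes
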