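import Pool.Agent.Lib_MP_ca431a_cb.LemG
import Pool.Agent.Lib_MP_ca431a_cb.GoodPart
import Pool.Agent.Lib_MP_ca431a_cb.Attach2
import Pool.Agent.Lib_MP_ca431a_cb.RankPD

/-!
PIECE [PEacy1] (MP_ca431a_al).  Everything but the full bad frames.
-/

open Finsupp
open scoped Classical

namespace Pool.Agent.Rognes

variable {R : Type*} [CommRing R] [IsDomain R] [IsPrincipalIdealRing R]
variable {V : Type*} [AddCommGroup V] [Module R V] [Module.Free R V] [Module.Finite R V]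

/-- The one-block decomposition `{V}`. -/
noncomputable def topPD (h : (⊤ : Submodule R V) ≠ ⊥) : PD R V := ⟨{⊤}, isPD_singleton h sat_top⟩

/-- A non-good element of `PE E` has only complements of `E` as blocks. -/
theorem isCompl_of_not_good {E : Submodule R V} {d : PD R V} (hd : d ∈ PE E) (hg : ¬ Good E d) :
    ∀ L ∈ d.bl, IsCompl L E := by
  intro L hL
  refine hd.2 L hL ?_
  by_contra h
  exact hg ⟨L, hL, h⟩

/-- `d ≤ τ` with all blocks of `τ` complements of `E`, `d ∈ PE E`: then `d.bl ⊆ τ.bl`.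
Proof: `W ≤ L`, `W ⊓ E ≤ L ⊓ E = ⊥`, so `IsCompl W E`; two comparable complements are equal. -/
theorem subset_of_le_bad {E : Submodule R V} {d τ : PD R V} (hd : d ∈ PE E)
    (hτ : ∀ L ∈ τ.bl, IsCompl L E) (h : d ≤ τ) : d.bl ⊆ τ.bl := by
  intro W hW
  obtain ⟨L, hL, hWL⟩ := h W hW
  have hLE := hτ L hL
  have hWE : W ⊓ E = ⊥ := le_bot_iff.1 (hLE.inf_eq_bot ▸ inf_le_inf_right E hWL)
  have hWc := hd.2 W hW hWE
  have : W = L := eq_of_le_of_inf_le_of_sup_le (z := E) hWL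
    (by rw [hLE.inf_eq_bot]; exact bot_le) (by rw [hWc.sup_eq_top]; exact le_top)
  rw [this]
  exact hL

/-- The elements of `PE E` which are good, or bad but not full, form an acyclic poset.

Proof.  `attach_lower` with `X = {d | d ∈ PE E ∧ Good E d}` (`acy_good`) and
`Y = {d | d ∈ PE E ∧ ¬ Good E d ∧ d.bl.sup id ≠ ⊤}`.  For `y ∈ Y`,
`{x | x ∈ X ∧ y < x} = GG E y (topPD _)`: `x ≤ topPD` always, `x ≠ topPD` because `⊤ ∉ x.bl`, and
`y ≤ x` implies `y ≠ x` since `x` is good.  Acyclic by `lemG` (a) with `d0 = topPD`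
(`y.bl` is nonempty, so `⊤` contains a block of `y`).  `¬ x ≤ y` by `Good.mono`.
(`E ≠ ⊥` and `E ≠ ⊤` by ranks.) -/
theorem acy_F0 {E : Submodule R V} (hE : Sat E)
    (hr : Module.finrank R E + 1 = Module.finrank R V) (hn : 2 ≤ Module.finrank R V) (r : ℕ) :
    Acy (OC {d : PD R V | d ∈ PE E ∧ (Good E d ∨ d.bl.sup id ≠ ⊤)}) r := by
  have hE0 : E ≠ ⊥ := by
    rintro rfl
    rw [finrank_bot] at hr
    omega
  have hE1 : E ≠ ⊤ := by
    rintro rfl
    rw [finrank_top] at hr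
    omega
  have htop : (⊤ : Submodule R V) ≠ ⊥ := fun h => hE0 (le_bot_iff.1 (h ▸ le_top))
  have hset : {d : PD R V | d ∈ PE E ∧ (Good E d ∨ d.bl.sup id ≠ ⊤)} =
      {d : PD R V | d ∈ PE E ∧ Good E d} ∪
        {d : PD R V | d ∈ PE E ∧ ¬ Good E d ∧ d.bl.sup id ≠ ⊤} := by
    ext d
    show (d ∈ PE E ∧ (Good E d ∨ d.bl.sup id ≠ ⊤)) ↔
      ((d ∈ PE E ∧ Good E d) ∨ (d ∈ PE E ∧ ¬ Good E d ∧ d.bl.sup id ≠ ⊤))
    tauto
  rw [hset]
  refine attach_lower (fun r => acy_good E hE hE0 hE1 r) ?_ ?_ r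
  · intro y hy r
    have hy1 : y ∈ PE E := hy.1
    have hy2 : ¬ Good E y := hy.2.1
    have hy3 : y.bl.sup id ≠ ⊤ := hy.2.2
    have hGG : {x : PD R V | x ∈ {d : PD R V | d ∈ PE E ∧ Good E d} ∧ y < x} =
        GG E y (topPD htop) := by
      ext x
      show ((x ∈ PE E ∧ Good E x) ∧ y < x) ↔
        (x ∈ PE E ∧ Good E x ∧ y ≤ x ∧ x ≤ topPD htop ∧ x ≠ topPD htop)
      constructor
      · rintro ⟨⟨h1, h2⟩, h3⟩
        refine ⟨h1, h2, h3.le, fun W _ => ⟨⊤, Finset.mem_singleton_self _, le_top⟩, ?_⟩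
        rintro rfl
        exact h1.1.2 (Finset.mem_singleton_self _)
      · rintro ⟨h1, h2, h3, -, -⟩
        refine ⟨⟨h1, h2⟩, lt_of_le_of_ne h3 ?_⟩
        rintro rfl
        exact hy2 h2
    rw [hGG]
    refine (lemG E hE y (topPD htop) (isCompl_of_not_good hy1 hy2) ?_ ?_ ?_).1 hy3 r
    · show ({⊤} : Finset (Submodule R V)).sup id = ⊤
      rw [Finset.sup_singleton]; rfl
    · exact fun W _ => ⟨⊤, Finset.mem_singleton_self _, le_top⟩
    · intro B hB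
      have hB' : B = ⊤ := Finset.mem_singleton.1 hB
      obtain ⟨L, hL⟩ := hy1.1.1
      exact ⟨L, hL, hB' ▸ le_top⟩
  · intro x hx y hy hxy
    exact hy.2.1 (Good.mono hx.2 hxy)

end Pool.Agent.Rognes
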