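import Pool.Agent.Lib_MP_ca431a_cb.PEacy1
import Pool.Agent.Lib_MP_ca431a_cb.BoolQ

/-!
PIECE [PEacy2] (MP_ca431a_al).  The link of a full bad frame.
-/

open Finsupp
open scoped Classical

namespace Pool.Agent.Rognes

variable {R : Type*} [CommRing R] [IsDomain R] [IsPrincipalIdealRing R]
variable {V : Type*} [AddCommGroup V] [Module R V] [Module.Free R V] [Module.Finite R V]

/-- The link of a full bad frame.

Proof.  Let `F0 = {d | d ∈ PE E ∧ (Good E d ∨ d.bl.sup id ≠ ⊤)}` and let `y ∈ PE E` be bad and full,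
`n = finrank V = y.bl.card` (`card_of_full_bad`).  `Lk F0 y = QQ e y.bl (GG E y topPD)` with
`e s = ⟨s ∩ y.bl, _⟩` (`IsPD.subset`):
- `a ∈ F0`, `a < y`: `a` is not good (`Good.mono`), `a.bl ⊆ y.bl` by `subset_of_le_bad`, proper and
  nonempty, `a = e a.bl`.  Conversely for `s ⊂ y.bl` nonempty, `e s ∈ PE E` (for `⊤ ∉ s`:
  `y ∈ Pcirc`), and its sup is `≠ ⊤`: for `L ∈ y.bl \ s` independence gives `L ⊓ s.sup id = ⊥`.
- `a ∈ F0`, `y < a`: if `a` were not good, its sup would be `≠ ⊤`, but `y ≤ a` and `y` is full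
  (`PD.sup_mono_of_le`).  So `a ∈ GG E y topPD` (as in `acy_F0`), and conversely.
Apply `acy_bool` with `m = n - 2`: `Acy (OC (GG E y topPD)) r` for `r + 1 + 2 ≤ n` by `lemG` (b);
`e s ≤ e t ↔ s ⊆ t` for `s, t ⊆ y.bl`: if `L ∈ s` is inside `L' ∈ t` then `L = L'` by
`PD.block_unique` of `y`; `e s < x` for `s ⊂ y.bl` and `x ∈ GG E y topPD`: `e s ≤ y ≤ x`, and `x` is
good but `e s` is not. -/
theorem acy_link_full {E : Submodule R V} (hE : Sat E)
    (hr : Module.finrank R E + 1 = Module.finrank R V) (hn : 2 ≤ Module.finrank R V)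
    {y : PD R V} (hy : y ∈ PE E) (hbad : ¬ Good E y) (hfull : y.bl.sup id = ⊤)
    (r : ℕ) (hr' : r + 3 ≤ 2 * Module.finrank R V - 1) :
    Acy (OC (Lk {d : PD R V | d ∈ PE E ∧ (Good E d ∨ d.bl.sup id ≠ ⊤)} y)) r := by
  have hcompl : ∀ L ∈ y.bl, IsCompl L E := isCompl_of_not_good hy hbad
  have hcard : y.bl.card = Module.finrank R V := card_of_full_bad hr y hcompl hfull
  have hyne : y.bl.Nonempty := hy.1.1
  have hytop : ⊤ ∉ y.bl := hy.1.2
  have htop : (⊤ : Submodule R V) ≠ ⊥ := by
    intro h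
    obtain ⟨W, hW⟩ := hyne
    apply y.ne_bot hW
    rw [← le_bot_iff, ← h]
    exact le_top
  have hetop : ∀ a : PD R V, a ≤ topPD htop := by
    intro a W _
    exact ⟨⊤, Finset.mem_singleton_self _, le_top⟩
  have hytopPD : y ≤ topPD htop := hetop y
  -- the embedding
  obtain ⟨e, he⟩ : ∃ e : Finset (Submodule R V) → PD R V, ∀ s, (e s).bl = s ∩ y.bl :=
    ⟨fun s => ⟨s ∩ y.bl, y.pd.subset Finset.inter_subset_right⟩, fun s => rfl⟩
  have he' : ∀ s, s ⊆ y.bl → (e s).bl = s := fun s hs => by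
    rw [he, Finset.inter_eq_left.2 hs]
  have hle : ∀ s t, s ⊆ y.bl → t ⊆ y.bl → (e s ≤ e t ↔ s ⊆ t) := by
    intro s t hs ht
    rw [PD.le_def, he' s hs, he' t ht]
    constructor
    · intro h W hW
      obtain ⟨W', hW', h1⟩ := h W hW
      have : W = W' := y.block_unique (hs hW) (ht hW') (y.ne_bot (hs hW)) le_rfl h1
      rwa [this]
    · intro h W hW
      exact ⟨W, h hW, le_rfl⟩
  have hley : ∀ s, s ⊆ y.bl → e s ≤ y := by
    intro s hs W hW
    rw [he' s hs] at hW
    exact ⟨W, hs hW, le_rfl⟩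
  have hngood : ∀ s, s ⊆ y.bl → ¬ Good E (e s) := fun s hs h => hbad (h.mono (hley s hs))
  have hX0 : ∀ r, r < Module.finrank R V - 2 → Acy (OC (GG E y (topPD htop))) r := by
    intro r hr0
    refine (lemG E hE y (topPD htop) hcompl ?_ hytopPD ?_).2 hfull r ?_
    · simp [topPD]
    · intro B hB
      obtain ⟨L, hL⟩ := hyne
      have hB' : B = ⊤ := Finset.mem_singleton.1 hB
      exact ⟨L, hL, by rw [hB']; exact le_top⟩
    · have h1 : (topPD htop).bl.card = 1 := Finset.card_singleton _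
      rw [h1, hcard]
      omega
  have hX : ∀ s, s ⊂ y.bl → ∀ x ∈ GG E y (topPD htop), e s < x := by
    intro s hs x hx
    refine lt_of_le_of_ne ((hley s hs.1).trans hx.2.2.1) ?_
    intro h
    apply hngood s hs.1
    rw [h]
    exact hx.2.1
  have key := acy_bool e (GG E y (topPD htop)) (Module.finrank R V - 2) hX0 y.bl hyne hle hX r
    (by rw [hcard]; omega)
  have hset : Lk {d : PD R V | d ∈ PE E ∧ (Good E d ∨ d.bl.sup id ≠ ⊤)} y
      = QQ e y.bl (GG E y (topPD htop)) := by
    ext a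
    constructor
    · rintro ⟨⟨haP, ha⟩, hay⟩
      rcases hay with hay | hay
      · left
        have hsub : a.bl ⊆ y.bl := subset_of_le_bad haP hcompl hay.le
        refine ⟨a.bl, ⟨hsub, fun h => ?_⟩, haP.1.1, ?_⟩
        · apply hay.ne
          exact PD.ext (Finset.Subset.antisymm hsub h)
        · exact PD.ext (he' _ hsub).symm
      · right
        have hga : Good E a := by
          rcases ha with ha | ha
          · exact ha
          · exfalso
            apply ha
            rw [eq_top_iff, ← hfull]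
            exact PD.sup_mono_of_le hay.le
        refine ⟨haP, hga, hay.le, hetop a, fun h => ?_⟩
        apply haP.1.2
        rw [h]
        exact Finset.mem_singleton_self _
    · rintro (⟨s, hs, hsne, rfl⟩ | ha)
      · have hs' := he' s hs.1
        refine ⟨⟨⟨⟨by rwa [hs'], ?_⟩, ?_⟩, Or.inr ?_⟩, Or.inl ?_⟩
        · rw [hs']
          exact fun h => hytop (hs.1 h)
        · rw [hs']
          intro W hW hWE
          exact hy.2 W (hs.1 hW) hWE
        · rw [hs']
          intro h
          obtain ⟨L, hL, hLs⟩ := Finset.exists_of_ssubset hs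
          have hd : Disjoint L (s.sup id) := y.pd.ind hs.1 hL hLs
          rw [h] at hd
          exact y.ne_bot hL (disjoint_top.1 hd)
        · refine lt_of_le_of_ne (hley s hs.1) ?_
          intro h
          apply hs.2
          rw [← h, hs']
      · refine ⟨⟨ha.1, Or.inl ha.2.1⟩, Or.inr (lt_of_le_of_ne ha.2.2.1 ?_)⟩
        intro h
        apply hbad
        rw [h]
        exact ha.2.1
  rw [hset]
  exact key

end Pool.Agent.Rognes
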